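import Mathlib

/-!
Definitions used in the statement.
-/

set_option autoImplicit false

namespace Pool.Agent.Work.MP_dd0d16_nt

variable {p : ℕ} [Fact p.Prime]

/-- `z` is a root of a nonzero integer polynomial of degree at most `d` all of whose coefficients
have absolute value at most `H`. -/
def Bdd (d H : ℕ) (z : PadicAlgCl p) : Prop :=
  ∃ f : Polynomial ℤ, f ≠ 0 ∧ f.natDegree ≤ d ∧ (∀ i, |f.coeff i| ≤ H) ∧ Polynomial.aeval z f = 0

/-- `L` is the Iwasawa logarithm (the three hypotheses of the frozen statement). -/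
def IsLog (L : PadicAlgCl p → PadicAlgCl p) : Prop :=
  (∀ x y : PadicAlgCl p, x ≠ 0 → y ≠ 0 → L (x * y) = L x + L y) ∧
  L ((p : ℕ) : PadicAlgCl p) = 0 ∧
  ∀ z : PadicAlgCl p, ‖z‖ < 1 →
    HasSum (fun n : ℕ => (-1 : PadicAlgCl p) ^ n * z ^ (n + 1) / ((n : PadicAlgCl p) + 1))
      (L (1 + z))

/-- The conclusion of the strong four exponentials conjecture for the matrix `M`: if the rows are
independent over the algebraic numbers and so are the columns, then `det M ≠ 0`. -/
def FourExp (M : Matrix (Fin 2) (Fin 2) (PadicAlgCl p)) : Prop :=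
  (∀ a b : PadicAlgCl p, IsAlgebraic ℚ a → IsAlgebraic ℚ b →
    (∀ j, a * M 0 j + b * M 1 j = 0) → a = 0 ∧ b = 0) →
  (∀ a b : PadicAlgCl p, IsAlgebraic ℚ a → IsAlgebraic ℚ b →
    (∀ i, a * M i 0 + b * M i 1 = 0) → a = 0 ∧ b = 0) →
  M.det ≠ 0

end Pool.Agent.Work.MP_dd0d16_nt
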