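import Mathlib
import Pool.Agent.Work.MP_dd0d16_nt.Defs

-- merged part: Pool.Agent.Work.MP_dd0d16_nt.Fields
section
/-!
Derivations of fields of characteristic zero: existence, and the residue lemma for a relation
between logarithmic derivatives and an exact derivative.
-/

set_option autoImplicit false

namespace Pool.Agent.Work.MP_dd0d16_nt

open Polynomial IntermediateField

section basic
variable {M Ω : Type*} [Field M] [Field Ω] [Algebra M Ω]

theorem der_aeval (δ : Ω → Ω) (hadd : ∀ a b, δ (a + b) = δ a + δ b)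
    (hmul : ∀ a b, δ (a * b) = a * δ b + b * δ a) (hM : ∀ m : M, δ (algebraMap M Ω m) = 0)
    (x : Ω) (f : M[X]) : δ (aeval x f) = aeval x (derivative f) * δ x := by
  induction f using Polynomial.induction_on with
  | C a => simp [hM]
  | add p q hp hq => simp only [map_add, hadd, hp, hq]; ring
  | monomial n a ih =>
    rw [pow_succ, ← mul_assoc, map_mul (aeval x) _ X, hmul, ih, derivative_mul (g := X)]
    simp only [map_add, map_mul, aeval_X, derivative_X, map_one]
    ring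

theorem der_eq_zero [CharZero M] (δ : Ω → Ω) (hadd : ∀ a b, δ (a + b) = δ a + δ b)
    (hmul : ∀ a b, δ (a * b) = a * δ b + b * δ a) (hM : ∀ m : M, δ (algebraMap M Ω m) = 0)
    {x : Ω} (hx : IsAlgebraic M x) : δ x = 0 := by
  have h := der_aeval δ hadd hmul hM x (minpoly M x)
  have h0 : δ 0 = 0 := by simpa using hM 0
  rw [minpoly.aeval, h0] at h
  have hs : (minpoly M x).Separable := (minpoly.irreducible hx.isIntegral).separable
  exact (mul_eq_zero.1 h.symm).resolve_left (hs.aeval_derivative_ne_zero (minpoly.aeval M x))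

theorem exists_mid {t : Ω} (ht : Transcendental M t) :
    ∃ k : IntermediateField M Ω, Transcendental k t ∧ Algebra.IsAlgebraic k⟮t⟯ Ω := by
  have h1 : AlgebraicIndepOn M id ({t} : Set Ω) := by
    rw [AlgebraicIndepOn, algebraicIndependent_unique_type_iff]
    exact ht
  obtain ⟨s, hs, hb⟩ := exists_isTranscendenceBasis_superset h1
  have hts : t ∈ s := hs rfl
  refine ⟨adjoin M (((↑) : s → Ω) '' {⟨t, hts⟩}ᶜ), ?_, ?_⟩
  · rw [IntermediateField.transcendental_adjoin_iff]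
    exact hb.1.transcendental_adjoin (i := ⟨t, hts⟩) (by simp)
  · have h2 := hb.isAlgebraic_field
    have e : (adjoin M (((↑) : s → Ω) '' {⟨t, hts⟩}ᶜ))⟮t⟯.restrictScalars M =
        adjoin M (Set.range ((↑) : s → Ω)) := by
      rw [adjoin_adjoin_left]
      congr 1
      ext x
      simp only [Set.mem_union, Set.mem_image, Set.mem_compl_iff, Set.mem_singleton_iff,
        Set.mem_range]
      constructor
      · rintro (⟨y, _, rfl⟩ | rfl)
        · exact ⟨y, rfl⟩
        · exact ⟨⟨_, hts⟩, rfl⟩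
      · rintro ⟨y, rfl⟩
        by_cases hy : y = ⟨t, hts⟩
        · right; rw [hy]
        · left; exact ⟨y, hy, rfl⟩
    rw [← e] at h2
    exact h2

/-- Dual numbers, as a type synonym without algebra structure. -/
def Dual (Ω : Type*) : Type _ := TrivSqZeroExt Ω Ω

noncomputable instance (Ω : Type*) [Field Ω] : CommRing (Dual Ω) :=
  inferInstanceAs (CommRing (TrivSqZeroExt Ω Ω))

open scoped IntermediateField.algebraAdjoinAdjoin in
theorem exists_der [CharZero M] [CharZero Ω] {t : Ω} (ht : Transcendental M t)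
    (halg : Algebra.IsAlgebraic M⟮t⟯ Ω) :
    ∃ D : Derivation ℚ Ω Ω, (∀ m : M, D (algebraMap M Ω m) = 0) ∧ D t = 1 := by
  let P := Algebra.adjoin M {t}
  let e := Polynomial.algEquivOfTranscendental M t ht
  have he : ∀ q, (e q : Ω) = aeval t q := by
    intro q
    simp [e]
  let τ : TrivSqZeroExt Ω Ω := TrivSqZeroExt.inl t + TrivSqZeroExt.inr 1
  let φ : P →+* Dual Ω := (aeval τ).toRingHom.comp e.symm.toAlgHom.toRingHom
  have hφ : ∀ q, φ (e q) = (aeval τ q : TrivSqZeroExt Ω Ω) := by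
    intro q
    change aeval τ (e.symm (e q)) = _
    rw [AlgEquiv.symm_apply_apply]
  let : Algebra P (Dual Ω) := φ.toAlgebra
  have h1 : Algebra.FormallySmooth P M⟮t⟯ := .of_isLocalization (nonZeroDivisors _)
  have h2 : Algebra.FormallyEtale M⟮t⟯ Ω := Algebra.FormallyEtale.of_isSeparable _ Ω
  have h3 : Algebra.FormallySmooth P Ω := .comp P M⟮t⟯ Ω
  let g : Dual Ω →ₐ[P] Ω :=
    { toRingHom := (TrivSqZeroExt.fstHom M Ω Ω).toRingHom
      commutes' := fun p => by
        obtain ⟨q, rfl⟩ := e.surjective p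
        change TrivSqZeroExt.fstHom M Ω Ω (φ (e q)) = (e q : Ω)
        rw [hφ, he, ← aeval_algHom_apply]
        simp [τ] }
  have hg : ∀ x : TrivSqZeroExt Ω Ω, g x = x.fst := fun x => rfl
  have hsurj : Function.Surjective g := fun x => ⟨TrivSqZeroExt.inl x, rfl⟩
  have hnil : IsNilpotent (RingHom.ker (g : Dual Ω →+* Ω)) :=
    ⟨2, TrivSqZeroExt.kerIdeal_sq Ω Ω⟩
  let l := Algebra.FormallySmooth.liftOfSurjective (AlgHom.id P Ω) g hsurj hnil
  have hl : ∀ x, TrivSqZeroExt.fst (l x : TrivSqZeroExt Ω Ω) = x := fun x =>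
    Algebra.FormallySmooth.liftOfSurjective_apply (AlgHom.id P Ω) g hsurj hnil x
  have hlq : ∀ q : M[X], l (aeval t q) = (aeval τ q : TrivSqZeroExt Ω Ω) := by
    intro q
    rw [← he, ← hφ]
    exact l.commutes (e q)
  let d : Ω →+ Ω :=
    { toFun := fun x => TrivSqZeroExt.snd (l x : TrivSqZeroExt Ω Ω)
      map_zero' := by rw [map_zero]; rfl
      map_add' := fun a b => by rw [map_add]; rfl }
  have hd : ∀ x, d x = TrivSqZeroExt.snd (l x : TrivSqZeroExt Ω Ω) := fun x => rfl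
  refine ⟨Derivation.mk' d.toRatLinearMap fun a b => ?_, fun m => ?_, ?_⟩
  · change d (a * b) = a • d b + b • d a
    rw [hd, map_mul]
    erw [TrivSqZeroExt.snd_mul]
    rw [hl, hl, hd, hd]
    simp [mul_comm]
  · change d _ = 0
    have := hlq (C m)
    rw [aeval_C, aeval_C] at this
    rw [hd, this, TrivSqZeroExt.algebraMap_eq_inl']
    rfl
  · change d t = 1
    have := hlq X
    rw [aeval_X, aeval_X] at this
    rw [hd, this]
    simp [τ]

end basic

section residue
variable {k Ω : Type*} [Field k] [Field Ω] [Algebra k Ω]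

/-- Rational functions of `t` regular at `t = 0`. -/
def regRing (k : Type*) [Field k] [Algebra k Ω] (t : Ω) : Subalgebra k Ω where
  carrier := {x | ∃ p q : k[X], q.coeff 0 ≠ 0 ∧ x * aeval t q = aeval t p}
  mul_mem' := by
    rintro x y ⟨p, q, hq, h⟩ ⟨p', q', hq', h'⟩
    refine ⟨p * p', q * q', by simp [hq, hq'], ?_⟩
    rw [map_mul, map_mul, ← h, ← h']; ring
  add_mem' := by
    rintro x y ⟨p, q, hq, h⟩ ⟨p', q', hq', h'⟩
    refine ⟨p * q' + p' * q, q * q', by simp [hq, hq'], ?_⟩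
    simp only [map_mul, map_add]
    rw [← h, ← h']; ring
  algebraMap_mem' := fun c => ⟨C c, 1, by simp, by simp⟩

theorem self_mem_regRing (t : Ω) : t ∈ regRing k t := ⟨X, 1, by simp, by simp⟩

theorem eq_zero_of_small {t : Ω} (ht : Transcendental k t) {c : k} {ω : Ω} (hω : ω ∈ regRing k t)
    (h : algebraMap k Ω c = t * ω) : c = 0 := by
  obtain ⟨p, q, hq, e⟩ := hω
  have h1 : aeval t (C c * q - X * p) = 0 := by
    simp only [map_sub, map_mul, aeval_C, aeval_X]
    rw [h, ← e]; ring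
  have h2 : C c * q - X * p = 0 := (transcendental_iff.1 ht) _ h1
  have h3 := congrArg (fun f => coeff f 0) h2
  simpa [hq] using h3

theorem poly_split {p : k[X]} (hp : p ≠ 0) : ∃ (n : ℕ) (q : k[X]), q.coeff 0 ≠ 0 ∧ p = X ^ n * q := by
  obtain ⟨q, h1, h2⟩ := exists_eq_pow_rootMultiplicity_mul_and_not_dvd p hp 0
  refine ⟨p.rootMultiplicity 0, q, fun h => h2 ?_, by simpa using h1⟩
  simpa [X_dvd_iff] using h

variable [Algebra ℚ Ω]

theorem logd_prod (D : Derivation ℚ Ω Ω) {ι : Type*} (s : Finset ι) (y : ι → Ω)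
    (hy : ∀ i, y i ≠ 0) : D (∏ i ∈ s, y i) / ∏ i ∈ s, y i = ∑ i ∈ s, D (y i) / y i := by
  classical
  induction s using Finset.induction_on with
  | empty => simp
  | insert i s hi ih =>
    have h : ∏ j ∈ s, y j ≠ 0 := Finset.prod_ne_zero_iff.2 fun j _ => hy j
    have hi' := hy i
    rw [Finset.prod_insert hi, Finset.sum_insert hi, ← ih, Derivation.leibniz]
    simp only [smul_eq_mul]
    field_simp
    ring

theorem logd_zpow (D : Derivation ℚ Ω Ω) {y : Ω} (hy : y ≠ 0) (a : ℤ) :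
    D (y ^ a) / y ^ a = a * (D y / y) := by
  rw [Derivation.leibniz_zpow, zpow_sub_one₀ hy]
  have := zpow_ne_zero a hy
  simp only [smul_eq_mul, zsmul_eq_mul]
  field_simp

theorem split_mem {t : Ω} (ht : Transcendental k t) (D : Derivation ℚ Ω Ω)
    (hD : ∀ m : k, D (algebraMap k Ω m) = 0) (hDt : D t = 1) {x : Ω} (hx : x ∈ k⟮t⟯)
    (hx0 : x ≠ 0) : ∃ (b : ℤ) (u ω : Ω), u ∈ regRing k t ∧ u⁻¹ ∈ regRing k t ∧ u ≠ 0 ∧
      ω ∈ regRing k t ∧ x = t ^ b * u ∧ t * (D x / x) = b + t * ω := by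
  obtain ⟨r, s, rfl⟩ := (mem_adjoin_simple_iff k x).1 hx
  have ht0 : t ≠ 0 := fun h => ht (h ▸ isAlgebraic_zero)
  have hr : r ≠ 0 := by rintro rfl; simp at hx0
  have hs : s ≠ 0 := by rintro rfl; simp at hx0
  obtain ⟨m, p, hp, rfl⟩ := poly_split hr
  obtain ⟨n, q, hq, rfl⟩ := poly_split hs
  have hp0 : aeval t p ≠ 0 := fun h => hp (by simp [(transcendental_iff.1 ht) _ h])
  have hq0 : aeval t q ≠ 0 := fun h => hq (by simp [(transcendental_iff.1 ht) _ h])
  have hDa : ∀ f : k[X], D (aeval t f) = aeval t (derivative f) := fun f => by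
    rw [der_aeval D (map_add D) (fun a b => by simp) hD, hDt, mul_one]
  have e : aeval t (X ^ m * p) / aeval t (X ^ n * q) =
      t ^ ((m : ℤ) - n) * (aeval t p / aeval t q) := by
    rw [zpow_sub₀ ht0]
    simp only [map_mul, map_pow, aeval_X, zpow_natCast]
    field_simp
  refine ⟨(m : ℤ) - n, aeval t p / aeval t q,
    aeval t (derivative p) / aeval t p - aeval t (derivative q) / aeval t q,
    ⟨p, q, hq, by field_simp⟩, ⟨q, p, hp, by field_simp⟩, div_ne_zero hp0 hq0,
    Subalgebra.sub_mem _ ⟨derivative p, p, hp, by field_simp⟩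
      ⟨derivative q, q, hq, by field_simp⟩, e, ?_⟩
  rw [e, Derivation.leibniz, Derivation.leibniz_div, hDa, hDa, Derivation.leibniz_zpow, hDt,
    zpow_sub_one₀ ht0]
  have := zpow_ne_zero ((m : ℤ) - n) ht0
  simp only [smul_eq_mul, zsmul_eq_mul]
  field_simp
  ring

theorem der_mem_adjoin {t : Ω} (D : Derivation ℚ Ω Ω)
    (hD : ∀ m : k, D (algebraMap k Ω m) = 0) (hDt : D t = 1) {x : Ω} (hx : x ∈ k⟮t⟯) :
    D x ∈ k⟮t⟯ := by
  obtain ⟨r, s, rfl⟩ := (mem_adjoin_simple_iff k x).1 hx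
  have hDa : ∀ f : k[X], D (aeval t f) = aeval t (derivative f) := fun f => by
    rw [der_aeval D (map_add D) (fun a b => by simp) hD, hDt, mul_one]
  have hm : ∀ f : k[X], aeval t f ∈ k⟮t⟯ := fun f =>
    (mem_adjoin_simple_iff k _).2 ⟨f, 1, by simp⟩
  rw [Derivation.leibniz_div, hDa, hDa]
  simp only [smul_eq_mul]
  exact mul_mem (pow_mem (inv_mem (hm _)) 2)
    (sub_mem (mul_mem (hm _) (hm _)) (mul_mem (hm _) (hm _)))

theorem residue_zero [CharZero k] {t : Ω} (ht : Transcendental k t) (D : Derivation ℚ Ω Ω)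
    (hD : ∀ m : k, D (algebraMap k Ω m) = 0) (hDt : D t = 1) {R ω : Ω} (hR : R ∈ k⟮t⟯)
    (hω : ω ∈ regRing k t) {c : k} (h : algebraMap k Ω c + t * ω = t * D R) : c = 0 := by
  have ht0 : t ≠ 0 := fun h => ht (h ▸ isAlgebraic_zero)
  have htm := self_mem_regRing (k := k) t
  by_cases hR0 : R = 0
  · refine eq_zero_of_small ht (Subalgebra.neg_mem _ hω) ?_
    rw [hR0, map_zero] at h
    linear_combination h
  obtain ⟨b, u, ω', hu, hu', hu0, hω', e1, e2⟩ := split_mem ht D hD hDt hR hR0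
  have e3 : t * D R = t ^ b * u * (b + t * ω') := by
    rw [← e2, ← e1]; field_simp
  have hb : (b : Ω) ∈ regRing k t := intCast_mem _ b
  rcases lt_trichotomy b 0 with hb0 | hb0 | hb0
  · exfalso
    obtain ⟨n, hn⟩ : ∃ n : ℕ, b = -((n + 1 : ℕ) : ℤ) := ⟨(-b - 1).toNat, by omega⟩
    have h1 : (b : k) = 0 := by
      refine eq_zero_of_small ht (ω := t ^ n * (algebraMap k Ω c + t * ω) * u⁻¹ - ω') ?_ ?_
      · exact Subalgebra.sub_mem _ (mul_mem (mul_mem (pow_mem htm n)
          (add_mem (Subalgebra.algebraMap_mem _ c) (mul_mem htm hω))) hu') hω'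
      · rw [h, e3, map_intCast]
        have : t ^ b = (t ^ (n + 1))⁻¹ := by rw [hn, zpow_neg, zpow_natCast]
        rw [this]
        field_simp
        ring
    exact hb0.ne (by exact_mod_cast h1)
  · refine eq_zero_of_small ht (ω := u * ω' - ω) (sub_mem (mul_mem hu hω') hω) ?_
    rw [hb0] at e3
    simp only [zpow_zero, Int.cast_zero] at e3
    linear_combination h + e3
  · obtain ⟨n, hn⟩ : ∃ n : ℕ, b = ((n + 1 : ℕ) : ℤ) := ⟨(b - 1).toNat, by omega⟩
    refine eq_zero_of_small ht (ω := t ^ n * u * (b + t * ω') - ω)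
      (sub_mem (mul_mem (mul_mem (pow_mem htm n) hu) (add_mem hb (mul_mem htm hω'))) hω) ?_
    have : t ^ b = t ^ (n + 1) := by rw [hn, zpow_natCast]
    rw [this] at e3
    linear_combination h + e3

end residue

theorem exists_int_orth {k : Type*} [Field k] [CharZero k] {ι : Type*} [Fintype ι] {c : ι → k}
    (hc : c ≠ 0) : ∃ a : ι → ℤ, a ≠ 0 ∧ ∀ b : ι → ℤ, ∑ i, c i * b i = 0 → ∑ i, a i * b i = 0 := by
  obtain ⟨i0, hi0⟩ := Function.ne_iff.1 hc
  obtain ⟨l, hl⟩ := Module.Projective.exists_dual_ne_zero ℚ hi0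
  obtain ⟨d, hd⟩ := IsLocalization.exist_integer_multiples_of_finite (nonZeroDivisors ℤ)
    (fun i => l (c i))
  choose a ha using hd
  have hd0 : ((d : ℤ) : ℚ) ≠ 0 := by exact_mod_cast nonZeroDivisors.coe_ne_zero d
  have ha' : ∀ i, (a i : ℚ) = ((d : ℤ) : ℚ) * l (c i) := fun i => by simpa using ha i
  refine ⟨a, fun h => ?_, fun b hb => ?_⟩
  · have := ha' i0
    rw [h] at this
    simp only [Pi.zero_apply, Int.cast_zero] at this
    exact mul_ne_zero hd0 hl this.symm
  · have h1 := congrArg l hb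
    rw [map_sum, map_zero] at h1
    have h2 : ((∑ i, a i * b i : ℤ) : ℚ) = ((d : ℤ) : ℚ) * ∑ i, l (c i * b i) := by
      rw [Finset.mul_sum]
      push_cast
      refine Finset.sum_congr rfl fun i _ => ?_
      have : c i * b i = (b i : ℚ) • c i := by simp [mul_comm, Algebra.smul_def]
      rw [ha', this, map_smul, smul_eq_mul]; ring
    rw [h1, mul_zero] at h2
    exact_mod_cast h2

theorem galois_sum {M Ω : Type} [Field M] [Field Ω] [Algebra M Ω] [CharZero M] [IsAlgClosed Ω]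
    [Algebra.IsAlgebraic M Ω] (s : Set Ω) (hs : s.Finite) :
    ∃ (G : Type) (_ : Fintype G) (_ : Nonempty G) (σ : G → Ω ≃ₐ[M] Ω), ∀ x ∈ s,
      (∑ g, σ g x) ∈ Set.range (algebraMap M Ω) ∧ (∏ g, σ g x) ∈ Set.range (algebraMap M Ω) := by
  have : IsAlgClosure M Ω := ⟨inferInstance, inferInstance⟩
  have : Finite s := hs
  let E0 := adjoin M s
  have : FiniteDimensional M E0 :=
    finiteDimensional_adjoin fun x _ => (Algebra.IsAlgebraic.isAlgebraic x).isIntegral
  let E := normalClosure M E0 Ω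
  have : IsGalois M E := ⟨⟩
  have hE : ∀ x ∈ s, x ∈ E := fun x hx => le_normalClosure E0 (subset_adjoin M s hx)
  refine ⟨E ≃ₐ[M] E, inferInstance, inferInstance, fun g => g.liftNormal Ω, fun x hx => ?_⟩
  have hl : ∀ g : E ≃ₐ[M] E, g.liftNormal Ω x = (g ⟨x, hE x hx⟩ : Ω) := fun g =>
    g.liftNormal_commutes Ω ⟨x, hE x hx⟩
  simp only [hl]
  have key : ∀ z : E, (∀ e : E ≃ₐ[M] E, e z = z) → (z : Ω) ∈ Set.range (algebraMap M Ω) := by
    intro z hz
    obtain ⟨m, hm⟩ := (IsGalois.mem_range_algebraMap_iff_fixed z).2 hz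
    exact ⟨m, by rw [← hm]; rfl⟩
  constructor
  · have := key (∑ g : E ≃ₐ[M] E, g ⟨x, hE x hx⟩) fun e => by
      rw [map_sum]
      exact Fintype.sum_equiv (Equiv.mulLeft e) _ _ fun g => rfl
    rwa [IntermediateField.coe_sum] at this
  · have := key (∏ g : E ≃ₐ[M] E, g ⟨x, hE x hx⟩) fun e => by
      rw [map_prod]
      exact Fintype.prod_equiv (Equiv.mulLeft e) _ _ fun g => rfl
    rwa [IntermediateField.coe_prod] at this

theorem res {Ω : Type} [Field Ω] [CharZero Ω] [IsAlgClosed Ω] {ι : Type} [Fintype ι]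
    (c y : ι → Ω) (r : Ω) (hy : ∀ i, y i ≠ 0) (hc : c ≠ 0)
    (h : ∀ D : Derivation ℚ Ω Ω, (∀ i, D (c i) = 0) ∧ ∑ i, c i * (D (y i) / y i) = D r) :
    ∃ a : ι → ℤ, a ≠ 0 ∧ IsAlgebraic ℚ (∏ i, y i ^ a i) := by
  have hca : ∀ i, IsAlgebraic ℚ (c i) := by
    intro i
    by_contra hi
    obtain ⟨k, hk, hk'⟩ := exists_mid (M := ℚ) hi
    obtain ⟨D, -, hD⟩ := exists_der hk hk'
    rw [(h D).1 i] at hD
    exact zero_ne_one hD
  obtain ⟨a, ha, hab⟩ := exists_int_orth hc
  refine ⟨a, ha, ?_⟩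
  by_contra ht0
  set t := ∏ i, y i ^ a i with htdef
  obtain ⟨k, ht, halg⟩ := exists_mid (Transcendental.algebraicClosure ht0)
  obtain ⟨D, hD, hDt⟩ := exists_der ht halg
  have hck : ∀ i, ∃ c' : k, algebraMap k Ω c' = c i := fun i =>
    ⟨algebraMap (algebraicClosure ℚ Ω) k ⟨c i, mem_algebraicClosure_iff.2 (hca i)⟩, rfl⟩
  choose c' hc' using hck
  obtain ⟨G, _, _, σ, hσ⟩ := galois_sum (M := k⟮t⟯) (Set.range y ∪ {r})
    ((Set.finite_range y).union (Set.finite_singleton r))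
  have hfix : ∀ g, ∀ x ∈ k⟮t⟯, σ g x = x := fun g x hx => (σ g).commutes ⟨x, hx⟩
  have hcomm : ∀ g x, D (σ g x) = σ g (D x) := by
    intro g x
    have := der_eq_zero (M := k⟮t⟯) (fun x => (σ g).symm (D (σ g x)) - D x)
      (fun a b => by simp only [map_add]; ring)
      (fun a b => by
        simp only [map_mul, Derivation.leibniz, smul_eq_mul, map_add, AlgEquiv.symm_apply_apply]
        ring)
      (fun m => by
        have h1 := der_mem_adjoin D hD hDt m.2
        change (σ g).symm (D (σ g m)) - D m = 0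
        rw [hfix g m m.2, sub_eq_zero, AlgEquiv.symm_apply_eq, hfix g _ h1])
      (Algebra.IsAlgebraic.isAlgebraic x)
    rw [sub_eq_zero, AlgEquiv.symm_apply_eq] at this
    exact this
  have hmem : ∀ x : Ω, x ∈ Set.range (algebraMap k⟮t⟯ Ω) → x ∈ k⟮t⟯ := by
    rintro _ ⟨m, rfl⟩; exact m.2
  let N : ι → Ω := fun i => ∏ g, σ g (y i)
  have hσy : ∀ g i, σ g (y i) ≠ 0 := fun g i => by simpa using hy i
  have hN0 : ∀ i, N i ≠ 0 := fun i => Finset.prod_ne_zero_iff.2 fun g _ => hσy g i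
  have hN : ∀ i, N i ∈ k⟮t⟯ := fun i => hmem _ (hσ _ (Or.inl ⟨i, rfl⟩)).2
  have hR : (∑ g, σ g r) ∈ k⟮t⟯ := hmem _ (hσ _ (Or.inr rfl)).1
  choose b u ω _ _ _ hω _ hb using fun i => split_mem ht D hD hDt (hN i) (hN0 i)
  have hlog : ∀ i, D (N i) / N i = ∑ g, σ g (D (y i) / y i) := by
    intro i
    rw [logd_prod D _ _ fun g => hσy g i]
    simp only [hcomm, map_div₀]
  have hcm : ∀ i, c i ∈ k⟮t⟯ := fun i => hc' i ▸ (k⟮t⟯).algebraMap_mem (c' i)
  have h1 : ∑ i, c i * (D (N i) / N i) = D (∑ g, σ g r) := by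
    simp only [hlog, map_sum, hcomm, ← (h D).2, Finset.mul_sum, map_mul]
    rw [Finset.sum_comm]
    exact Finset.sum_congr rfl fun g _ => Finset.sum_congr rfl fun i _ => by
      rw [hfix g _ (hcm i)]
  have h2 : ∑ i, c' i * b i = 0 := by
    refine residue_zero ht D hD hDt hR (ω := ∑ i, c i * ω i)
      (Subalgebra.sum_mem _ fun i _ => mul_mem (hc' i ▸ Subalgebra.algebraMap_mem _ _) (hω i)) ?_
    rw [← h1, map_sum, Finset.mul_sum, Finset.mul_sum, ← Finset.sum_add_distrib]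
    refine Finset.sum_congr rfl fun i _ => ?_
    rw [map_mul, hc', map_intCast]
    linear_combination (-c i) * hb i
  have h3 : ∑ i, a i * b i = 0 := by
    refine hab b ?_
    have := congrArg (algebraMap k Ω) h2
    simpa only [map_sum, map_mul, hc', map_intCast, map_zero] using this
  have ht0' : t ≠ 0 := fun h => ht (h ▸ isAlgebraic_zero)
  have h4 : ∑ i, (a i : Ω) * (D (N i) / N i) = Fintype.card G * t⁻¹ := by
    have e : ∑ i, (a i : Ω) * (D (y i) / y i) = t⁻¹ := by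
      have := logd_prod D Finset.univ (fun i => y i ^ a i) fun i => zpow_ne_zero _ (hy i)
      simp only [logd_zpow D (hy _)] at this
      rw [← this, ← htdef, hDt, one_div]
    simp only [hlog, Finset.mul_sum]
    rw [Finset.sum_comm]
    have : ∀ g, ∑ i, (a i : Ω) * σ g (D (y i) / y i) = t⁻¹ := by
      intro g
      have := congrArg (σ g) e
      rw [hfix g _ (inv_mem (mem_adjoin_simple_self k t))] at this
      simpa using this
    simp only [this]
    simp
  have h5 : ((Fintype.card G : ℕ) : k) = 0 := by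
    refine eq_zero_of_small ht (ω := ∑ i, (a i : Ω) * ω i)
      (Subalgebra.sum_mem _ fun i _ => mul_mem (intCast_mem _ _) (hω i)) ?_
    have e1 : t * ∑ i, (a i : Ω) * (D (N i) / N i) = ∑ i, (a i : Ω) * (b i + t * ω i) := by
      rw [Finset.mul_sum]
      exact Finset.sum_congr rfl fun i _ => by rw [← hb i]; ring
    have e2 : ∑ i, (a i : Ω) * (b i : Ω) = 0 := by exact_mod_cast congrArg (Int.cast (R := Ω)) h3
    rw [h4] at e1
    simp only [mul_add, Finset.sum_add_distrib, e2, zero_add] at e1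
    rw [map_natCast, Finset.mul_sum]
    have e3 : t * ((Fintype.card G : Ω) * t⁻¹) = Fintype.card G := by field_simp
    rw [← e3, e1]
    exact Finset.sum_congr rfl fun i _ => by ring
  exact Fintype.card_ne_zero (Nat.cast_eq_zero.1 h5)

end Pool.Agent.Work.MP_dd0d16_nt
end

-- merged part: Pool.Agent.Work.MP_dd0d16_nt.Core
section
/-!
Seminorms on a polynomial ring with a Liouville lower bound: the kernel of the extension to power
series is a minimal prime, hence stable under derivations.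
-/

set_option autoImplicit false

namespace Pool.Agent.Work.MP_dd0d16_nt

open Filter Topology MvPowerSeries

/-- A multiplicative ultrametric seminorm on `ℚ[σ]`, trivial on `ℚ`, small on the variables, with a
Liouville type lower bound. -/
structure SN (σ : Type) where
  N : MvPolynomial σ ℚ → ℝ
  θ : ℝ
  κ : ℝ
  nonneg : ∀ P, 0 ≤ N P
  zero : N 0 = 0
  mul : ∀ P Q, N (P * Q) = N P * N Q
  add : ∀ P Q, N (P + Q) ≤ max (N P) (N Q)
  const : ∀ c : ℚ, c ≠ 0 → N (MvPolynomial.C c) = 1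
  var : ∀ s, N (MvPolynomial.X s) ≤ θ
  θ_nonneg : 0 ≤ θ
  θ_lt : θ < 1
  κ_pos : 0 < κ
  κ_le : κ ≤ 1
  liou : ∀ P, N P ≠ 0 → κ ^ (P.totalDegree + 1) ≤ N P

section general
variable {A : Type*} [CommRing A] (N : A → ℝ)

/-- The ball of radius `t` of an ultrametric seminorm bounded by one, as an ideal. -/
def ballIdeal (h0 : N 0 = 0) (hnn : ∀ a, 0 ≤ N a) (hmul : ∀ a b, N (a * b) = N a * N b)
    (hadd : ∀ a b, N (a + b) ≤ max (N a) (N b)) (hle : ∀ a, N a ≤ 1) (t : ℝ) (ht : 0 ≤ t) :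
    Ideal A where
  carrier := {a | N a ≤ t}
  zero_mem' := by simp [h0, ht]
  add_mem' := fun {a b} ha hb => (hadd a b).trans (max_le ha hb)
  smul_mem' := fun c a ha => by
    change N (c * a) ≤ t
    rw [hmul]
    exact (mul_le_of_le_one_left (hnn a) (hle c)).trans ha

theorem le_pow_of_mem_pow (h0 : N 0 = 0) (hnn : ∀ a, 0 ≤ N a)
    (hmul : ∀ a b, N (a * b) = N a * N b)
    (hadd : ∀ a b, N (a + b) ≤ max (N a) (N b)) (hle : ∀ a, N a ≤ 1) {t : ℝ} (ht : 0 ≤ t)
    {ι : Type*} (x : ι → A) (hx : ∀ i, N (x i) ≤ t) (T : ℕ) :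
    ∀ a ∈ Ideal.span (Set.range x) ^ T, N a ≤ t ^ T := by
  have h1 : Ideal.span (Set.range x) ≤ ballIdeal N h0 hnn hmul hadd hle t ht := by
    rw [Ideal.span_le]
    rintro _ ⟨i, rfl⟩
    exact hx i
  induction T with
  | zero => intro a _; simpa using hle a
  | succ T ih =>
    have : Ideal.span (Set.range x) ^ (T + 1) ≤
        ballIdeal N h0 hnn hmul hadd hle (t ^ (T + 1)) (by positivity) := by
      rw [pow_succ, Ideal.mul_le]
      intro r hr s hs
      change N (r * s) ≤ t ^ (T + 1)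
      rw [hmul, pow_succ]
      exact mul_le_mul (ih r hr) (h1 hs) (hnn s) (by positivity)
    exact fun a ha => this ha

end general

namespace SN

variable {σ : Type} (S : SN σ)

theorem one : S.N 1 = 1 := by simpa using S.const 1 one_ne_zero

theorem neg (P : MvPolynomial σ ℚ) : S.N (-P) = S.N P := by
  have : -P = MvPolynomial.C (-1 : ℚ) * P := by simp
  rw [this, S.mul, S.const _ (by norm_num), one_mul]

theorem le_one (P : MvPolynomial σ ℚ) : S.N P ≤ 1 := by
  induction P using MvPolynomial.induction_on with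
  | C c =>
    by_cases hc : c = 0
    · simp [hc, S.zero]
    · exact (S.const c hc).le
  | add P Q hP hQ => exact (S.add P Q).trans (max_le hP hQ)
  | mul_X P s hP =>
    rw [S.mul]
    exact mul_le_one₀ hP (S.nonneg _) ((S.var s).trans S.θ_lt.le)

theorem le_of_mem {T : ℕ} {P : MvPolynomial σ ℚ} (h : P ∈ MvPolynomial.idealOfVars σ ℚ ^ T) :
    S.N P ≤ S.θ ^ T :=
  le_pow_of_mem_pow S.N S.zero S.nonneg S.mul S.add S.le_one S.θ_nonneg _ S.var T P h

theorem abs_sub_le (P Q : MvPolynomial σ ℚ) : |S.N P - S.N Q| ≤ S.N (P - Q) := by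
  have h1 := S.add (P - Q) Q
  have h2 := S.add (-(P - Q)) P
  rw [S.neg] at h2
  have e1 : P - Q + Q = P := by ring
  have e2 : -(P - Q) + P = Q := by ring
  rw [e1] at h1
  rw [e2] at h2
  have a := S.nonneg (P - Q)
  have b := S.nonneg P
  have c := S.nonneg Q
  rw [abs_le]
  constructor
  · rcases le_max_iff.1 h2 with h | h <;> linarith
  · rcases le_max_iff.1 h1 with h | h <;> linarith

variable [Finite σ]

theorem cauchy (f : MvPowerSeries σ ℚ) : CauchySeq fun T => S.N (truncTotal T f) := by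
  refine cauchySeq_of_le_geometric S.θ 1 S.θ_lt fun T => ?_
  rw [Real.dist_eq, one_mul]
  exact (S.abs_sub_le _ _).trans
    (S.le_of_mem (truncTotal_sub_truncTotal_mem_pow_idealOfVars le_rfl (Nat.le_succ T) f))

/-- The extension of the seminorm to power series. -/
noncomputable def Nh (f : MvPowerSeries σ ℚ) : ℝ := limUnder atTop fun T => S.N (truncTotal T f)

theorem tendsto_Nh (f : MvPowerSeries σ ℚ) :
    Tendsto (fun T => S.N (truncTotal T f)) atTop (𝓝 (S.Nh f)) :=
  (S.cauchy f).tendsto_limUnder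

theorem Nh_coe (P : MvPolynomial σ ℚ) : S.Nh (P : MvPowerSeries σ ℚ) = S.N P := by
  refine tendsto_nhds_unique (S.tendsto_Nh _) (tendsto_const_nhds.congr' ?_)
  filter_upwards [eventually_gt_atTop P.totalDegree] with T hT
  rw [(truncTotal_coe_eq_self_iff P (by omega)).2 hT]

theorem Nh_nonneg (f : MvPowerSeries σ ℚ) : 0 ≤ S.Nh f :=
  ge_of_tendsto' (S.tendsto_Nh f) fun _ => S.nonneg _

theorem Nh_le_one (f : MvPowerSeries σ ℚ) : S.Nh f ≤ 1 :=
  le_of_tendsto' (S.tendsto_Nh f) fun _ => S.le_one _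

theorem Nh_zero : S.Nh 0 = 0 := by
  have := S.Nh_coe 0
  rwa [MvPolynomial.coe_zero, S.zero] at this

theorem Nh_one : S.Nh 1 = 1 := by
  have := S.Nh_coe 1
  rwa [MvPolynomial.coe_one, S.one] at this

theorem Nh_add (f g : MvPowerSeries σ ℚ) : S.Nh (f + g) ≤ max (S.Nh f) (S.Nh g) := by
  refine le_of_tendsto_of_tendsto' (S.tendsto_Nh _) ((S.tendsto_Nh f).max (S.tendsto_Nh g))
    fun T => ?_
  rw [map_add]
  exact S.add _ _

theorem Nh_mul (f g : MvPowerSeries σ ℚ) : S.Nh (f * g) = S.Nh f * S.Nh g := by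
  have h1 := (S.tendsto_Nh (f * g)).sub ((S.tendsto_Nh f).mul (S.tendsto_Nh g))
  have h2 : Tendsto (fun T => S.N (truncTotal T (f * g)) -
      S.N (truncTotal T f) * S.N (truncTotal T g)) atTop (𝓝 0) := by
    refine squeeze_zero_norm (fun T => ?_) (tendsto_pow_atTop_nhds_zero_of_lt_one S.θ_nonneg S.θ_lt)
    rw [Real.norm_eq_abs, ← S.mul]
    exact (S.abs_sub_le _ _).trans
      (S.le_of_mem (truncTotal_mul_sub_mul_truncTotal_mem_pow_idealOfVars f g))
  exact sub_eq_zero.1 (tendsto_nhds_unique h1 h2)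

theorem Nh_neg (f : MvPowerSeries σ ℚ) : S.Nh (-f) = S.Nh f := by
  have h := S.Nh_coe (-1)
  rw [S.neg, S.one] at h
  have e : -f = ((-1 : MvPolynomial σ ℚ) : MvPowerSeries σ ℚ) * f := by
    have : ((-1 : MvPolynomial σ ℚ) : MvPowerSeries σ ℚ) = -1 := by
      simpa using map_neg (MvPolynomial.coeToMvPowerSeries.ringHom (σ := σ) (R := ℚ)) 1
    rw [this]; ring
  rw [e, S.Nh_mul, h, one_mul]

end SN

/-- The ideal of the variables in the power series ring. -/
noncomputable def MM (σ : Type) : Ideal (MvPowerSeries σ ℚ) := Ideal.span (Set.range X)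

theorem mem_MM_pow {σ : Type} [Finite σ] (T : ℕ) :
    ∀ f : MvPowerSeries σ ℚ, (∀ x : σ →₀ ℕ, x.degree < T → coeff x f = 0) → f ∈ MM σ ^ T := by
  classical
  have := Fintype.ofFinite σ
  induction T with
  | zero => intro f _; simp
  | succ T ih =>
    intro f hf
    have hsel : ∀ x : σ →₀ ℕ, x ≠ 0 → ∃ s, x s ≠ 0 := by
      intro x hx
      by_contra h
      push Not at h
      exact hx (Finsupp.ext h)
    choose sel hsel using fun x : {x : σ →₀ ℕ // x ≠ 0} => hsel x.1 x.2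
    let g : σ → MvPowerSeries σ ℚ := fun s y =>
      if sel ⟨y + Finsupp.single s 1, by
        intro h
        have := congrArg (fun z => z s) h
        simp at this⟩ = s then coeff (y + Finsupp.single s 1) f else 0
    have hg : ∀ s, g s ∈ MM σ ^ T := by
      intro s
      refine ih _ fun y hy => ?_
      change (if _ then _ else _) = _
      split_ifs
      · exact hf _ (by simp; omega)
      · rfl
    have e : f = ∑ s, g s * X s := by
      ext x
      rw [map_sum]
      by_cases hx : x = 0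
      · subst hx
        rw [hf 0 (by simp)]
        simp
      · rw [Finset.sum_eq_single (sel ⟨x, hx⟩)]
        · set s := sel ⟨x, hx⟩ with hs
          have hle : Finsupp.single s 1 ≤ x := by
            rw [Finsupp.single_le_iff]
            exact Nat.one_le_iff_ne_zero.2 (hsel ⟨x, hx⟩)
          have ex : x - Finsupp.single s 1 + Finsupp.single s 1 = x := tsub_add_cancel_of_le hle
          rw [X, coeff_mul_monomial, if_pos hle, mul_one]
          change _ = (if _ then _ else _)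
          simp only [ex]
          rw [if_pos hs.symm]
        · intro s _ hs
          rw [X, coeff_mul_monomial]
          split_ifs with hle
          · have ex : x - Finsupp.single s 1 + Finsupp.single s 1 = x := tsub_add_cancel_of_le hle
            rw [mul_one]
            change (if _ then _ else _) = _
            simp only [ex]
            rw [if_neg (Ne.symm hs)]
          · rfl
        · simp
    rw [e, pow_succ]
    exact Ideal.sum_mem _ fun s _ => Ideal.mul_mem_mul (hg s) (Ideal.subset_span ⟨s, rfl⟩)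

theorem sub_trunc_mem {σ : Type} [Finite σ] (T : ℕ) (f : MvPowerSeries σ ℚ) :
    f - (truncTotal T f : MvPolynomial σ ℚ) ∈ MM σ ^ T := by
  refine mem_MM_pow T _ fun x hx => ?_
  rw [map_sub, MvPolynomial.coeff_coe, coeff_truncTotal _ hx, sub_self]

theorem finrank_range_le_of_ker_le {K X Y Z : Type*} [Field K] [AddCommGroup X] [Module K X]
    [AddCommGroup Y] [Module K Y] [AddCommGroup Z] [Module K Z] (f : X →ₗ[K] Y) (g : X →ₗ[K] Z)
    [FiniteDimensional K (LinearMap.range f)] (h : LinearMap.ker f ≤ LinearMap.ker g) :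
    Module.finrank K (LinearMap.range g) ≤ Module.finrank K (LinearMap.range f) := by
  have e := f.quotKerEquivRange
  have : FiniteDimensional K (X ⧸ LinearMap.ker f) := e.symm.finiteDimensional
  rw [← e.finrank_eq, ← Submodule.range_liftQ (LinearMap.ker f) g h]
  exact LinearMap.finrank_range_le _

theorem finrank_restrict_le (σ : Type) [Fintype σ] (D : ℕ) :
    Module.finrank ℚ (MvPolynomial.restrictTotalDegree σ ℚ D) ≤ (D + 1) ^ Fintype.card σ := by
  classical
  let s : Finset (MvPolynomial σ ℚ) :=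
    (Fintype.piFinset fun _ : σ => Finset.range (D + 1)).image
      fun f => MvPolynomial.monomial (Finsupp.equivFunOnFinite.symm f) (1 : ℚ)
  have hle : MvPolynomial.restrictTotalDegree σ ℚ D ≤ Submodule.span ℚ (s : Set _) := by
    intro P hP
    rw [MvPolynomial.mem_restrictTotalDegree] at hP
    rw [P.as_sum]
    refine Submodule.sum_mem _ fun x hx => ?_
    have : MvPolynomial.monomial x (P.coeff x) = P.coeff x • MvPolynomial.monomial x (1 : ℚ) := by
      rw [MvPolynomial.smul_monomial, smul_eq_mul, mul_one]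
    rw [this]
    refine Submodule.smul_mem _ _ (Submodule.subset_span ?_)
    simp only [s, Finset.coe_image]
    refine ⟨x, ?_, by simp⟩
    simp only [Finset.mem_coe, Fintype.mem_piFinset, Finset.mem_range]
    intro i
    have h1 := MvPolynomial.monomial_le_degreeOf i hx
    have h2 := MvPolynomial.degreeOf_le_totalDegree P i
    omega
  refine (Submodule.finrank_mono hle).trans ((finrank_span_finset_le_card s).trans ?_)
  refine Finset.card_image_le.trans ?_
  simp

theorem no_growth (h : ℕ → ℕ) (Λ : ℕ) (h1 : ∀ D, 1 ≤ h D)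
    (hg : ∀ D, (D + 1) * h D ≤ h (Λ * (D + 1))) (e : ℕ) :
    ¬ ∃ c, ∀ D, h D ≤ c * (D + 1) ^ e := by
  induction e with
  | zero =>
    rintro ⟨c, hc⟩
    have a := hg c
    have b := hc (Λ * (c + 1))
    have d := h1 c
    nlinarith
  | succ e ih =>
    rintro ⟨c, hc⟩
    refine ih ⟨c * (Λ + 1) ^ (e + 1), fun D => ?_⟩
    have a := (hg D).trans (hc _)
    have b : (Λ * (D + 1) + 1) ^ (e + 1) ≤ ((Λ + 1) * (D + 1)) ^ (e + 1) :=
      Nat.pow_le_pow_left (by nlinarith) _
    have d : (D + 1) * h D ≤ (D + 1) * (c * (Λ + 1) ^ (e + 1) * (D + 1) ^ e) := by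
      refine a.trans ((Nat.mul_le_mul_left c b).trans (le_of_eq ?_))
      rw [mul_pow]; ring
    exact Nat.le_of_mul_le_mul_left d (Nat.succ_pos D)

theorem artin_rees {R : Type*} [CommRing R] [IsNoetherianRing R] (M P : Ideal R) [P.IsPrime]
    {g : R} (hg : g ∉ P) : ∃ k, ∀ T ≥ k, ∀ G, g * G ∈ M ^ T ⊔ P → G ∈ M ^ (T - k) ⊔ P := by
  let π := Ideal.Quotient.mk P
  obtain ⟨k, hk⟩ := Ideal.exists_pow_inf_eq_pow_smul (M.map π) (M := R ⧸ P)
    (Ideal.span {π g})
  have key : ∀ (T : ℕ) (x : R), x ∈ M ^ T ⊔ P ↔ π x ∈ M.map π ^ T := by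
    intro T x
    rw [← Ideal.map_pow, ← Ideal.mem_comap,
      Ideal.comap_map_of_surjective π Ideal.Quotient.mk_surjective]
    have : Ideal.comap π ⊥ = P := Ideal.mk_ker
    rw [this]
  refine ⟨k, fun T hT G hG => ?_⟩
  rw [key] at hG ⊢
  have h1 : π (g * G) ∈ (M.map π ^ T • ⊤ ⊓ Ideal.span {π g} : Submodule (R ⧸ P) (R ⧸ P)) := by
    refine ⟨by simpa using hG, ?_⟩
    rw [map_mul]
    exact Ideal.mul_mem_right _ _ (Ideal.mem_span_singleton_self _)
  rw [hk T hT] at h1
  have h2 : π (g * G) ∈ M.map π ^ (T - k) * Ideal.span {π g} :=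
    (Submodule.smul_mono le_rfl inf_le_right) h1
  obtain ⟨z, hz, e⟩ := Ideal.mem_mul_span_singleton.1 h2
  have hg' : π g ≠ 0 := fun h => hg (Ideal.Quotient.eq_zero_iff_mem.1 h)
  have : z = π G := by
    apply mul_right_cancel₀ hg'
    rw [e, map_mul, mul_comm]
  rwa [← this]

theorem der_mem_of_minimal {R : Type*} [CommRing R] [Algebra ℚ R] (D : Derivation ℚ R R)
    {I P : Ideal R} (hP : P ∈ I.minimalPrimes) (hI : ∀ x ∈ I, D x ∈ I) {x : R} (hx : x ∈ P) :
    D x ∈ P := by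
  classical
  have hPp : P.IsPrime := hP.1.1
  have hex : ∃ n : ℕ, ∃ s, s ∉ P ∧ s * x ^ n ∈ I := by
    have h := IsLocalization.AtPrime.radical_map_of_mem_minimalPrimes (Localization.AtPrime P) P I hP
    have h2 : algebraMap R (Localization.AtPrime P) x ∈
        (I.map (algebraMap R (Localization.AtPrime P))).radical := by
      rw [h]; exact Ideal.mem_map_of_mem _ hx
    obtain ⟨n, hn⟩ := h2
    rw [← map_pow, IsLocalization.algebraMap_mem_map_algebraMap_iff P.primeCompl] at hn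
    obtain ⟨m, hm, hm'⟩ := hn
    exact ⟨n, m, hm, hm'⟩
  obtain ⟨s, hs, hsx⟩ := Nat.find_spec hex
  by_contra hD
  have hn : Nat.find hex ≠ 0 := by
    intro h
    rw [h, pow_zero, mul_one] at hsx
    exact hs (hP.1.2 hsx)
  obtain ⟨m, hm⟩ := Nat.exists_eq_succ_of_ne_zero hn
  refine Nat.find_min hex (m := m) (by omega) ⟨((m + 1 : ℕ) : R) * (s * s * D x), ?_, ?_⟩
  · intro h
    rcases hPp.mem_or_mem h with h | h
    · have hu : IsUnit ((m + 1 : ℕ) : R) := by
        have : ((m + 1 : ℕ) : R) = algebraMap ℚ R ((m + 1 : ℕ) : ℚ) := by simp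
        rw [this]
        exact (IsUnit.mk0 _ (by positivity)).map _
      exact hPp.ne_top (Ideal.eq_top_of_isUnit_mem _ h hu)
    · rcases hPp.mem_or_mem h with h | h
      · rcases hPp.mem_or_mem h with h | h <;> exact hs h
      · exact hD h
  · rw [hm] at hsx
    have h1 := hI _ hsx
    have h2 : ((m + 1 : ℕ) : R) * (s * s * D x) * x ^ m =
        s * D (s * x ^ m.succ) - D s * (s * x ^ m.succ) := by
      rw [Derivation.leibniz, Derivation.leibniz_pow]
      simp only [Nat.succ_sub_one, smul_eq_mul, nsmul_eq_mul, Nat.succ_eq_add_one]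
      ring
    rw [h2]
    exact I.sub_mem (I.mul_mem_left _ h1) (I.mul_mem_left _ hsx)

namespace SN

variable {σ : Type} [Finite σ] (S : SN σ)

/-- The kernel of the extended seminorm. -/
noncomputable def PP : Ideal (MvPowerSeries σ ℚ) :=
  ballIdeal S.Nh S.Nh_zero S.Nh_nonneg S.Nh_mul S.Nh_add S.Nh_le_one 0 le_rfl

theorem mem_PP {f : MvPowerSeries σ ℚ} : f ∈ S.PP ↔ S.Nh f = 0 :=
  ⟨fun h => le_antisymm h (S.Nh_nonneg f), fun h => h.le⟩

instance PP_prime : S.PP.IsPrime where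
  ne_top' := by
    rw [Ideal.ne_top_iff_one, mem_PP, S.Nh_one]
    exact one_ne_zero
  mem_or_mem' := by
    intro x y h
    rw [mem_PP, S.Nh_mul] at h
    simpa [mem_PP] using h

/-- The kernel of the seminorm. -/
noncomputable def qq : Ideal (MvPolynomial σ ℚ) :=
  S.PP.comap MvPolynomial.coeToMvPowerSeries.ringHom

theorem mem_qq {P : MvPolynomial σ ℚ} : P ∈ S.qq ↔ S.N P = 0 := by
  rw [qq, Ideal.mem_comap, mem_PP, MvPolynomial.coeToMvPowerSeries.ringHom_apply, S.Nh_coe]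

instance qq_prime : S.qq.IsPrime := Ideal.comap_isPrime _ _

theorem Nh_le_of_mem {T : ℕ} {f : MvPowerSeries σ ℚ} (h : f ∈ MM σ ^ T ⊔ S.PP) :
    S.Nh f ≤ S.θ ^ T := by
  obtain ⟨a, ha, b, hb, rfl⟩ := Submodule.mem_sup.1 h
  refine (S.Nh_add a b).trans (max_le ?_ ?_)
  · refine le_pow_of_mem_pow S.Nh S.Nh_zero S.Nh_nonneg S.Nh_mul S.Nh_add S.Nh_le_one S.θ_nonneg
      X (fun s => ?_) T a ha
    rw [← MvPolynomial.coe_X, S.Nh_coe]
    exact S.var s
  · rw [S.mem_PP.1 hb]
    exact pow_nonneg S.θ_nonneg T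

theorem PP_minimal :
    S.PP ∈ (S.qq.map MvPolynomial.coeToMvPowerSeries.ringHom).minimalPrimes := by
  classical
  have := Fintype.ofFinite σ
  have hle : S.qq.map MvPolynomial.coeToMvPowerSeries.ringHom ≤ S.PP := Ideal.map_comap_le
  obtain ⟨P', hP', hP'le⟩ := Ideal.exists_minimalPrimes_le hle
  have hP'p : P'.IsPrime := hP'.1.1
  suffices P' = S.PP by rwa [← this]
  by_contra hne
  obtain ⟨g, hg, hg'⟩ := SetLike.exists_of_lt (lt_of_le_of_ne hP'le hne)
  obtain ⟨k, hk⟩ := artin_rees (MM σ) P' hg'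
  obtain ⟨l, hl⟩ := exists_pow_lt_of_lt_one S.κ_pos S.θ_lt
  let J : ℕ → Ideal (MvPowerSeries σ ℚ) := fun T => MM σ ^ T ⊔ P'
  let V : ℕ → Submodule ℚ (MvPolynomial σ ℚ) := MvPolynomial.restrictTotalDegree σ ℚ
  let co : MvPolynomial σ ℚ →ₗ[ℚ] MvPowerSeries σ ℚ :=
    (MvPolynomial.coeToMvPowerSeries.algHom ℚ).toLinearMap
  have hco : ∀ P, co P = (P : MvPowerSeries σ ℚ) := fun P => by simp [co]
  let mk : (T : ℕ) → MvPowerSeries σ ℚ →ₗ[ℚ] MvPowerSeries σ ℚ ⧸ J T := fun T =>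
    (Ideal.Quotient.mkₐ ℚ (J T)).toLinearMap
  have hmk : ∀ T f, mk T f = 0 ↔ f ∈ J T := fun T f => Ideal.Quotient.eq_zero_iff_mem
  let a : (D : ℕ) → V D →ₗ[ℚ] MvPolynomial σ ℚ ⧸ S.qq := fun D =>
    (Ideal.Quotient.mkₐ ℚ S.qq).toLinearMap ∘ₗ (V D).subtype
  have ha : ∀ D P, a D P = 0 ↔ (P : MvPolynomial σ ℚ) ∈ S.qq := fun D P =>
    Ideal.Quotient.eq_zero_iff_mem
  let b : (T D : ℕ) → V D →ₗ[ℚ] MvPowerSeries σ ℚ ⧸ J T := fun T D =>
    mk T ∘ₗ co ∘ₗ (V D).subtype
  have hb : ∀ T D P, b T D P = mk T ((P : MvPolynomial σ ℚ) : MvPowerSeries σ ℚ) := by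
    intro T D P
    simp only [b, LinearMap.comp_apply, hco, Submodule.subtype_apply]
  have hqJ : ∀ T, ∀ P ∈ S.qq, (P : MvPowerSeries σ ℚ) ∈ J T := fun T P hP =>
    Ideal.mem_sup_right (hP'.1.2 (Ideal.mem_map_of_mem _ hP))
  let h : ℕ → ℕ := fun D => Module.finrank ℚ (LinearMap.range (a D))
  let Φ : ℕ → ℕ := fun T => Module.finrank ℚ (MvPowerSeries σ ℚ ⧸ J T)
  have hsurj : ∀ T, LinearMap.range (b T T) = ⊤ := by
    intro T
    rw [LinearMap.range_eq_top]
    intro y
    obtain ⟨f, rfl⟩ := Ideal.Quotient.mk_surjective y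
    refine ⟨⟨truncTotal T f, ?_⟩, ?_⟩
    · rw [MvPolynomial.mem_restrictTotalDegree]
      by_cases hT : T = 0
      · subst hT
        have : truncTotal 0 f = 0 := by
          ext x; simp [coeff_truncTotal_eq_zero]
        simp [this]
      · exact (totalDegree_truncTotal_lt _ hT).le
    · rw [hb]
      symm
      exact Ideal.Quotient.eq.2 (Ideal.mem_sup_left (sub_trunc_mem T f))
  have hfin : ∀ T, FiniteDimensional ℚ (MvPowerSeries σ ℚ ⧸ J T) := fun T =>
    Module.Finite.of_surjective (b T T) (LinearMap.range_eq_top.1 (hsurj T))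
  have hΦ : ∀ T, Φ T ≤ h T := by
    intro T
    have := finrank_range_le_of_ker_le (a T) (b T T) fun P hP => by
      rw [LinearMap.mem_ker] at hP ⊢
      rw [hb, hmk]
      exact hqJ T _ ((ha T P).1 hP)
    rwa [hsurj, finrank_top] at this
  have hsmall : ∀ D T, l * (D + 1) ≤ T → ∀ P : V D,
      ((P : MvPolynomial σ ℚ) : MvPowerSeries σ ℚ) ∈ MM σ ^ T ⊔ S.PP →
      (P : MvPolynomial σ ℚ) ∈ S.qq := by
    intro D T hT P hP
    rw [mem_qq]
    by_contra hne
    have h1 := S.liou _ hne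
    have h2 := S.Nh_le_of_mem hP
    rw [S.Nh_coe] at h2
    have hd : (P : MvPolynomial σ ℚ).totalDegree ≤ D :=
      (MvPolynomial.mem_restrictTotalDegree _ _ _).1 P.2
    have h3 : S.κ ^ (D + 1) ≤ S.κ ^ ((P : MvPolynomial σ ℚ).totalDegree + 1) :=
      pow_le_pow_of_le_one S.κ_pos.le S.κ_le (by omega)
    have h4 : S.θ ^ T ≤ S.θ ^ (l * (D + 1)) := pow_le_pow_of_le_one S.θ_nonneg S.θ_lt.le hT
    have h5 : S.θ ^ (l * (D + 1)) < S.κ ^ (D + 1) := by
      rw [pow_mul]
      exact pow_lt_pow_left₀ hl (pow_nonneg S.θ_nonneg l) (Nat.succ_ne_zero D)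
    linarith
  have hJ : ∀ T, J T ≤ MM σ ^ T ⊔ S.PP := fun T => sup_le_sup_left hP'le _
  have hstep : ∀ D T, l * (D + 1) ≤ T → k ≤ T → h D + Φ (T - k) ≤ Φ T := by
    intro D T hT hkT
    have := hfin T
    let c : MvPowerSeries σ ℚ →ₗ[ℚ] MvPowerSeries σ ℚ ⧸ J T := mk T ∘ₗ LinearMap.mulLeft ℚ g
    have hc : ∀ G, c G = mk T (g * G) := fun G => rfl
    have h1 : h D ≤ Module.finrank ℚ (LinearMap.range (b T D)) :=
      finrank_range_le_of_ker_le (b T D) (a D) fun P hP => by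
        rw [LinearMap.mem_ker] at hP ⊢
        rw [hb, hmk] at hP
        exact (ha D P).2 (hsmall D T hT P (hJ T hP))
    have h2 : Φ (T - k) ≤ Module.finrank ℚ (LinearMap.range c) := by
      have := finrank_range_le_of_ker_le c (mk (T - k)) fun G hG => by
        rw [LinearMap.mem_ker] at hG ⊢
        rw [hc, hmk] at hG
        rw [hmk]
        exact hk T hkT G hG
      rwa [LinearMap.range_eq_top.2 Ideal.Quotient.mk_surjective, finrank_top] at this
    have h3 : LinearMap.range (b T D) ⊓ LinearMap.range c = ⊥ := by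
      rw [eq_bot_iff]
      rintro y ⟨⟨P, rfl⟩, ⟨G, hG⟩⟩
      rw [hc, hb] at hG
      have h4 : g * G - ((P : MvPolynomial σ ℚ) : MvPowerSeries σ ℚ) ∈ J T :=
        Ideal.Quotient.eq.1 hG
      have h5 : ((P : MvPolynomial σ ℚ) : MvPowerSeries σ ℚ) ∈ MM σ ^ T ⊔ S.PP := by
        have := Ideal.sub_mem _ (Ideal.mem_sup_right (S := MM σ ^ T)
          (S.PP.mul_mem_right G hg)) (hJ T h4)
        simpa using this
      rw [Submodule.mem_bot, hb, hmk]
      exact hqJ T _ (hsmall D T hT P h5)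
    have h6 := Submodule.finrank_sup_add_finrank_inf_eq (LinearMap.range (b T D))
      (LinearMap.range c)
    rw [h3, finrank_bot] at h6
    have h7 := Submodule.finrank_le (LinearMap.range (b T D) ⊔ LinearMap.range c)
    simp only [Φ]
    simp only [Φ] at h2
    omega
  have hiter : ∀ D j, j * h D ≤ Φ ((l + k) * (D + 1) + j * k) := by
    intro D j
    induction j with
    | zero => simp
    | succ j ih =>
      have := hstep D ((l + k) * (D + 1) + (j + 1) * k) (by nlinarith) (by nlinarith)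
      have e : (l + k) * (D + 1) + (j + 1) * k - k = (l + k) * (D + 1) + j * k := by
        rw [add_mul j, one_mul, ← add_assoc, Nat.add_sub_cancel]
      rw [e] at this
      linarith
  refine no_growth h (l + 2 * k) (fun D => ?_) (fun D => ?_) (Fintype.card σ) ⟨1, fun D => ?_⟩
  · rw [Nat.one_le_iff_ne_zero]
    intro h0
    have hb0 : LinearMap.range (a D) = ⊥ := Submodule.finrank_eq_zero.1 h0
    have h1 : (1 : MvPolynomial σ ℚ) ∈ V D := by
      rw [MvPolynomial.mem_restrictTotalDegree]; simp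
    have : a D ⟨1, h1⟩ = 0 := by
      rw [← Submodule.mem_bot ℚ, ← hb0]; exact LinearMap.mem_range_self _ _
    rw [ha, mem_qq, S.one] at this
    exact one_ne_zero this
  · have := (hiter D (D + 1)).trans (hΦ _)
    have e : (l + k) * (D + 1) + (D + 1) * k = (l + 2 * k) * (D + 1) := by ring
    rwa [e] at this
  · rw [one_mul]
    exact (LinearMap.finrank_range_le _).trans (finrank_restrict_le σ D)

theorem der_mem (D : Derivation ℚ (MvPowerSeries σ ℚ) (MvPowerSeries σ ℚ))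
    (hD : ∀ P ∈ S.qq, ∃ Q ∈ S.qq, D (P : MvPowerSeries σ ℚ) = (Q : MvPowerSeries σ ℚ))
    {f : MvPowerSeries σ ℚ} (hf : f ∈ S.PP) : D f ∈ S.PP := by
  refine der_mem_of_minimal D S.PP_minimal (fun x hx => ?_) hf
  induction hx using Submodule.span_induction with
  | mem x hx =>
    obtain ⟨P, hP, rfl⟩ := hx
    obtain ⟨Q, hQ, e⟩ := hD P hP
    rw [MvPolynomial.coeToMvPowerSeries.ringHom_apply, e]
    exact Ideal.mem_map_of_mem _ hQ
  | zero => simp
  | add x y _ _ hx hy => rw [map_add]; exact Ideal.add_mem _ hx hy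
  | smul r x hx' hx =>
    rw [smul_eq_mul, Derivation.leibniz, smul_eq_mul, smul_eq_mul]
    exact Ideal.add_mem _ (Ideal.mul_mem_left _ _ hx) (Ideal.mul_mem_right _ _ hx')

end SN

end Pool.Agent.Work.MP_dd0d16_nt
end

-- merged part: Pool.Agent.Work.MP_dd0d16_nt.Seq
section
-- merged part: Pool.Agent.Work.MP_dd0d16_nt.Ostrowski
section
/-!
The Kolchin-Ostrowski argument: algebraic dependence of formal logarithms gives a multiplicative
relation.
-/

set_option autoImplicit false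

namespace Pool.Agent.Work.MP_dd0d16_nt

open MvPolynomial

section
variable {L B I : Type} [Field L] [CharZero L] [Field B] [Algebra L B] [Fintype I]

/-- Apply a derivation to the coefficients. -/
noncomputable def cder (δ : Derivation ℚ L L) (F : MvPolynomial I L) : MvPolynomial I L :=
  ∑ μ ∈ F.support, monomial μ (δ (F.coeff μ))

omit [Fintype I] in
theorem coeff_cder (δ : Derivation ℚ L L) (F : MvPolynomial I L) (μ : I →₀ ℕ) :
    (cder δ F).coeff μ = δ (F.coeff μ) := by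
  classical
  simp only [cder, coeff_sum, coeff_monomial]
  rw [Finset.sum_ite_eq']
  split_ifs with h
  · rfl
  · rw [notMem_support_iff.1 h, map_zero]

theorem chain (δ : Derivation ℚ L L) (η : I → L) (w : I → B) (d : B → B)
    (hadd : ∀ a b, d (a + b) = d a + d b) (hmul : ∀ a b, d (a * b) = a * d b + b * d a)
    (hL : ∀ x, d (algebraMap L B x) = algebraMap L B (δ x))
    (hw : ∀ i, d (w i) = algebraMap L B (η i)) (F : MvPolynomial I L) :
    d (aeval w F) = aeval w (cder δ F + ∑ i, C (η i) * pderiv i F) := by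
  classical
  induction F using MvPolynomial.induction_on with
  | C a =>
    have : cder δ (C a : MvPolynomial I L) = C (δ a) := by
      ext μ
      rw [coeff_cder, coeff_C, coeff_C]
      split_ifs <;> simp
    simp [this, hL]
  | add P Q hP hQ =>
    have : cder δ (P + Q) = cder δ P + cder δ Q := by
      ext μ
      simp [coeff_cder]
    simp only [this, map_add, hadd, hP, hQ, mul_add, Finset.sum_add_distrib]
    ring
  | mul_X P j hP =>
    have : cder δ (P * X j) = cder δ P * X j := by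
      ext μ
      rw [coeff_cder, coeff_mul_X', coeff_mul_X']
      split_ifs
      · rw [coeff_cder]
      · simp
    have e : ∑ i, C (η i) * pderiv i (P * X j) =
        (∑ i, C (η i) * pderiv i P) * X j + C (η j) * P := by
      simp only [Derivation.leibniz, smul_eq_mul, mul_add, Finset.sum_add_distrib, Finset.sum_mul]
      rw [add_comm]
      congr 1
      · exact Finset.sum_congr rfl fun i _ => by ring
      · rw [Finset.sum_eq_single j]
        · simp
        · intro i _ hi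
          simp [pderiv_X_of_ne (Ne.symm hi)]
        · simp
    rw [map_mul, hmul, hP, this, e, aeval_X, hw]
    simp only [map_add, map_mul, aeval_X, aeval_C]
    ring

theorem ostrowski (y : I → L) (w : I → B)
    (hext : ∀ δ : Derivation ℚ L L, ∃ d : B → B, (∀ a b, d (a + b) = d a + d b) ∧
      (∀ a b, d (a * b) = a * d b + b * d a) ∧
      (∀ x, d (algebraMap L B x) = algebraMap L B (δ x)) ∧
      ∀ i, d (w i) = algebraMap L B (δ (y i) / y i))
    (F0 : MvPolynomial I L) (hF0 : F0 ≠ 0) (hw0 : aeval w F0 = 0) :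
    ∃ (c : I → L) (r : L), c ≠ 0 ∧ ∀ δ : Derivation ℚ L L,
      (∀ i, δ (c i) = 0) ∧ ∑ i, c i * (δ (y i) / y i) = δ r := by
  classical
  have hex : ∃ n, ∃ F : MvPolynomial I L, F ≠ 0 ∧ aeval w F = 0 ∧ F.totalDegree = n :=
    ⟨_, F0, hF0, hw0, rfl⟩
  set n := Nat.find hex with hn
  have hmin : ∀ F : MvPolynomial I L, F ≠ 0 → aeval w F = 0 → n ≤ F.totalDegree :=
    fun F h1 h2 => Nat.find_min' hex ⟨F, h1, h2, rfl⟩
  let top : MvPolynomial I L → Finset (I →₀ ℕ) := fun F => F.support.filter fun μ => μ.degree = n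
  have hex2 : ∃ m, ∃ F : MvPolynomial I L, F ≠ 0 ∧ aeval w F = 0 ∧ F.totalDegree = n ∧
      (top F).card = m := by
    obtain ⟨F, h1, h2, h3⟩ := Nat.find_spec hex
    exact ⟨_, F, h1, h2, h3, rfl⟩
  obtain ⟨F1, hF1, hw1, hd1, hc1⟩ := Nat.find_spec hex2
  have hmin2 : ∀ F : MvPolynomial I L, F ≠ 0 → aeval w F = 0 → F.totalDegree = n →
      (top F1).card ≤ (top F).card := fun F h1 h2 h3 =>
    hc1 ▸ Nat.find_min' hex2 ⟨F, h1, h2, h3, rfl⟩
  obtain ⟨μ0, hμ0, hμ0d⟩ : ∃ μ0 ∈ F1.support, μ0.degree = n := by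
    obtain ⟨μ, hμ, e⟩ := Finset.exists_mem_eq_sup F1.support (support_nonempty.2 hF1)
      fun s => s.sum fun _ e => e
    exact ⟨μ, hμ, by rw [← hd1, totalDegree, e]; rfl⟩
  have ha : F1.coeff μ0 ≠ 0 := mem_support_iff.1 hμ0
  let F : MvPolynomial I L := C (F1.coeff μ0)⁻¹ * F1
  have hFc : ∀ μ, F.coeff μ = (F1.coeff μ0)⁻¹ * F1.coeff μ := fun μ => coeff_C_mul _ _ _
  have hF1' : F.coeff μ0 = 1 := by rw [hFc, inv_mul_cancel₀ ha]
  have hwF : aeval w F = 0 := by simp [F, hw1]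
  have hFhi : ∀ μ : I →₀ ℕ, n < μ.degree → F.coeff μ = 0 := by
    intro μ hμ
    rw [hFc, coeff_eq_zero_of_totalDegree_lt (d := μ) (by rw [hd1]; exact hμ), mul_zero]
  have hn0 : n ≠ 0 := by
    intro h0
    rw [h0] at hd1
    have e := totalDegree_eq_zero_iff_eq_C.1 hd1
    rw [e, aeval_C, map_eq_zero] at hw1
    exact hF1 (by rw [e, hw1, map_zero])
  have hG : ∀ δ : Derivation ℚ L L, ∀ μ : I →₀ ℕ,
      δ (F.coeff μ) + ∑ i, δ (y i) / y i * (F.coeff (μ + Finsupp.single i 1) * (μ i + 1)) = 0 := by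
    intro δ
    obtain ⟨d, hadd, hmul, hL, hw⟩ := hext δ
    have h := chain δ (fun i => δ (y i) / y i) w d hadd hmul hL hw F
    have h0 : d 0 = 0 := by simpa using hL 0
    rw [hwF, h0] at h
    set G := cder δ F + ∑ i, C (δ (y i) / y i) * pderiv i F with hGdef
    have hGc : ∀ μ, G.coeff μ = δ (F.coeff μ) +
        ∑ i, δ (y i) / y i * (F.coeff (μ + Finsupp.single i 1) * (μ i + 1)) := by
      intro μ
      simp only [hGdef, coeff_add, coeff_cder, coeff_sum, coeff_C_mul, coeff_pderiv]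
    have hGtop : ∀ μ : I →₀ ℕ, n ≤ μ.degree → G.coeff μ = δ (F.coeff μ) := by
      intro μ hμ
      rw [hGc, Finset.sum_eq_zero, add_zero]
      intro i _
      rw [hFhi _ (by simp; omega)]
      simp
    suffices G = 0 by
      intro μ
      rw [← hGc, this, coeff_zero]
    by_contra hG0
    have h1 := hmin G hG0 h.symm
    have h2 : G.totalDegree ≤ n := by
      rw [totalDegree, Finset.sup_le_iff]
      intro μ hμ
      by_contra hlt
      have hlt' : n < μ.degree := not_le.1 hlt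
      exact mem_support_iff.1 hμ (by rw [hGtop μ hlt'.le, hFhi μ hlt', map_zero])
    have h3 := hmin2 G hG0 h.symm (le_antisymm h2 h1)
    have h4 : top G ⊂ top F1 := by
      rw [Finset.ssubset_iff_of_subset]
      · refine ⟨μ0, Finset.mem_filter.2 ⟨hμ0, hμ0d⟩, fun hh => ?_⟩
        refine mem_support_iff.1 (Finset.mem_filter.1 hh).1 ?_
        rw [hGtop _ hμ0d.ge, hF1', Derivation.map_one_eq_zero]
      · intro μ hμ
        obtain ⟨h5, h6⟩ := Finset.mem_filter.1 hμ
        refine Finset.mem_filter.2 ⟨mem_support_iff.2 fun h7 => mem_support_iff.1 h5 ?_, h6⟩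
        rw [hGtop _ h6.ge, hFc, h7, mul_zero, map_zero]
    exact absurd (Finset.card_lt_card h4) (not_lt.2 h3)
  obtain ⟨i0, hi0⟩ : ∃ i, μ0 i ≠ 0 := by
    by_contra hh
    push Not at hh
    have : μ0 = 0 := Finsupp.ext hh
    rw [this] at hμ0d
    exact hn0 (by simpa using hμ0d.symm)
  let ν := μ0 - Finsupp.single i0 1
  have hν : ν + Finsupp.single i0 1 = μ0 :=
    tsub_add_cancel_of_le (Finsupp.single_le_iff.2 (Nat.one_le_iff_ne_zero.2 hi0))
  have hνd : ν.degree + 1 = n := by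
    rw [← hμ0d, ← hν]; simp
  refine ⟨fun i => F.coeff (ν + Finsupp.single i 1) * (ν i + 1), -F.coeff ν, fun h => ?_,
    fun δ => ⟨fun i => ?_, ?_⟩⟩
  · have := congrFun h i0
    simp only [hν, hF1', one_mul, Pi.zero_apply] at this
    exact Nat.cast_add_one_ne_zero _ this
  · have h1 := hG δ (ν + Finsupp.single i 1)
    rw [Finset.sum_eq_zero, add_zero] at h1
    · have h2 : δ ((ν i : L) + 1) = 0 := by simp
      rw [Derivation.leibniz, h1, h2]
      simp
    · intro j _
      rw [hFhi _ (by simp; omega)]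
      simp
  · have h1 := hG δ ν
    rw [map_neg, eq_neg_iff_add_eq_zero, add_comm, ← h1]
    congr 1
    exact Finset.sum_congr rfl fun i _ => mul_comm _ _

theorem exists_alg_monomial (y : I → L) (hy : ∀ i, y i ≠ 0) (c : I → L) (r : L) (hc : c ≠ 0)
    (h : ∀ δ : Derivation ℚ L L, (∀ i, δ (c i) = 0) ∧ ∑ i, c i * (δ (y i) / y i) = δ r) :
    ∃ a : I → ℤ, a ≠ 0 ∧ IsAlgebraic ℚ (∏ i, y i ^ a i) := by
  let Ω := AlgebraicClosure L
  let j := algebraMap L Ω
  have hinj : Function.Injective j := j.injective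
  obtain ⟨a, ha, hal⟩ := res (Ω := Ω) (fun i => j (c i)) (fun i => j (y i)) (j r)
    (fun i => by simpa [j] using hy i)
    (fun h0 => hc (funext fun i => hinj (by simpa using congrFun h0 i))) (fun D => by
      have key : ∀ l : Module.Dual L Ω, ∃ δ : Derivation ℚ L L, ∀ x, δ x = l (D (j x)) :=
        fun l => ⟨LinearMap.compDer l (D.compAlgebraMap L), fun x => rfl⟩
      constructor
      · intro i
        rw [← Module.forall_dual_apply_eq_zero_iff L]
        intro l
        obtain ⟨δ, hδ⟩ := key l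
        rw [← hδ, (h δ).1 i]
      · rw [← sub_eq_zero, ← Module.forall_dual_apply_eq_zero_iff L]
        intro l
        obtain ⟨δ, hδ⟩ := key l
        rw [map_sub, map_sum, ← hδ, ← (h δ).2, sub_eq_zero]
        refine Finset.sum_congr rfl fun i _ => ?_
        have e : j (c i) * (D (j (y i)) / j (y i)) = (c i / y i) • D (j (y i)) := by
          rw [Algebra.smul_def, map_div₀]; ring
        rw [e, map_smul, ← hδ, smul_eq_mul]; ring)
  refine ⟨a, ha, ?_⟩
  rw [← isAlgebraic_algebraMap_iff (A := Ω) (R := ℚ) hinj]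
  simpa [j] using hal

end

end Pool.Agent.Work.MP_dd0d16_nt
end

-- merged part: Pool.Agent.Work.MP_dd0d16_nt.Indep
section
/-!
Formal logarithms are algebraically independent modulo the kernel of the seminorm.
-/

set_option autoImplicit false

namespace Pool.Agent.Work.MP_dd0d16_nt

open Filter Topology

theorem exists_ext_der {R : Type} [CommRing R] [Algebra ℚ R] (P : Ideal R) [P.IsPrime]
    (B : Type) [Field B] [Algebra (R ⧸ P) B] [IsFractionRing (R ⧸ P) B]
    (D : Derivation ℚ R R) (hD : ∀ f ∈ P, D f ∈ P) :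
    ∃ d : B → B, (∀ a b, d (a + b) = d a + d b) ∧
      (∀ a b, d (a * b) = a * d b + b * d a) ∧
      ∀ f, d (algebraMap (R ⧸ P) _ (Ideal.Quotient.mk P f)) =
        algebraMap (R ⧸ P) _ (Ideal.Quotient.mk P (D f)) := by
  let ψ : R →+* B := (algebraMap (R ⧸ P) B).comp (Ideal.Quotient.mk P)
  have hψ : ∀ f, ψ f = 0 ↔ f ∈ P := fun f => by
    simp [ψ, Ideal.Quotient.eq_zero_iff_mem]
  let Φ : R →+* TrivSqZeroExt B B :=
    { toFun := fun f => TrivSqZeroExt.inl (ψ f) + TrivSqZeroExt.inr (ψ (D f))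
      map_one' := by ext <;> simp
      map_mul' := fun a b => by ext <;> simp [mul_comm]
      map_zero' := by ext <;> simp
      map_add' := fun a b => by ext <;> simp }
  have hΦ1 : ∀ f, (Φ f).fst = ψ f := fun f => by simp [Φ]
  have hΦ2 : ∀ f, (Φ f).snd = ψ (D f) := fun f => by simp [Φ]
  let Φ0 : R ⧸ P →+* TrivSqZeroExt B B := Ideal.Quotient.lift P Φ fun f hf => by
    ext
    · rw [hΦ1, (hψ f).2 hf]; rfl
    · rw [hΦ2, (hψ _).2 (hD f hf)]; rfl
  have hu : ∀ y : nonZeroDivisors (R ⧸ P), IsUnit (Φ0 y) := by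
    rintro ⟨y, hy⟩
    obtain ⟨f, rfl⟩ := Ideal.Quotient.mk_surjective y
    rw [TrivSqZeroExt.isUnit_iff_isUnit_fst]
    change IsUnit (Φ f).fst
    rw [hΦ1, isUnit_iff_ne_zero, Ne, hψ, ← Ideal.Quotient.eq_zero_iff_mem]
    exact nonZeroDivisors.ne_zero hy
  let Φ1 : B →+* TrivSqZeroExt B B := IsLocalization.lift hu
  have hΦ3 : ∀ f, Φ1 (ψ f) = Φ f := fun f => IsLocalization.lift_eq hu _
  have hfst : ∀ x, (Φ1 x).fst = x := by
    have : (TrivSqZeroExt.fstHom B B B).toRingHom.comp Φ1 = RingHom.id B := by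
      refine IsLocalization.ringHom_ext (nonZeroDivisors (R ⧸ P)) ?_
      refine Ideal.Quotient.ringHom_ext (RingHom.ext fun f => ?_)
      change (Φ1 (ψ f)).fst = ψ f
      rw [hΦ3, hΦ1]
    exact fun x => RingHom.congr_fun this x
  refine ⟨fun x => (Φ1 x).snd, fun a b => by simp, fun a b => ?_, fun f => ?_⟩
  · simp only [map_mul, TrivSqZeroExt.snd_mul, hfst]
    simp [mul_comm]
  · change (Φ1 (ψ f)).snd = ψ (D f)
    rw [hΦ3, hΦ2]

section logs
variable {σ : Type}

open Classical in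
/-- A power series in the single variable `s`. -/
noncomputable def oneVar (s : σ) (c : ℕ → ℚ) : MvPowerSeries σ ℚ :=
  fun μ => if μ = Finsupp.single s (μ s) then c (μ s) else 0

open Classical in
theorem coeff_oneVar (s : σ) (c : ℕ → ℚ) (μ : σ →₀ ℕ) :
    MvPowerSeries.coeff μ (oneVar s c) = if μ = Finsupp.single s (μ s) then c (μ s) else 0 := rfl

/-- Coefficients of the logarithm series. -/
def lc : ℕ → ℚ
  | 0 => 0
  | n + 1 => (-1) ^ n / (n + 1)

/-- The series `log (1 + X s)`. -/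
noncomputable def ell (s : σ) : MvPowerSeries σ ℚ := oneVar s lc

/-- Partial sums of `log (1 + X s)`. -/
noncomputable def lp (T : ℕ) (s : σ) : MvPolynomial σ ℚ :=
  ∑ n ∈ Finset.range T, MvPolynomial.C ((-1) ^ n / (n + 1) : ℚ) * MvPolynomial.X s ^ (n + 1)

theorem pderiv_ell_ne {s t : σ} (h : t ≠ s) : MvPowerSeries.pderiv ℚ t (ell s) = 0 := by
  ext μ
  rw [MvPowerSeries.coeff_pderiv, ell, coeff_oneVar, if_neg]
  · simp
  · intro e
    have := congrArg (fun z => z t) e
    simp [h] at this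

theorem add_single_eq_iff (s : σ) (μ : σ →₀ ℕ) :
    μ + Finsupp.single s 1 = Finsupp.single s (μ s + 1) ↔ μ = Finsupp.single s (μ s) := by
  rw [Finsupp.single_add, add_left_inj]

open Classical in
theorem coeff_add_oneVar (s : σ) (c : ℕ → ℚ) (μ : σ →₀ ℕ) :
    MvPowerSeries.coeff (μ + Finsupp.single s 1) (oneVar s c) =
      if μ = Finsupp.single s (μ s) then c (μ s + 1) else 0 := by
  have : (μ + Finsupp.single s 1 : σ →₀ ℕ) s = μ s + 1 := by simp
  rw [coeff_oneVar, this]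
  exact if_congr (add_single_eq_iff s μ) rfl rfl

theorem pderiv_ell (s : σ) : MvPowerSeries.pderiv ℚ s (ell s) = oneVar s fun n => (-1) ^ n := by
  ext μ
  rw [MvPowerSeries.coeff_pderiv, ell, coeff_add_oneVar, coeff_oneVar]
  split_ifs
  · simp only [lc]
    field_simp
  · simp

theorem one_add_mul_pderiv_ell (s : σ) :
    (1 + MvPowerSeries.X s) * MvPowerSeries.pderiv ℚ s (ell s) = 1 := by
  classical
  rw [pderiv_ell]
  ext μ
  rw [add_mul, one_mul, map_add, MvPowerSeries.X, MvPowerSeries.coeff_monomial_mul,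
    MvPowerSeries.coeff_one]
  by_cases hle : Finsupp.single s 1 ≤ μ
  · obtain ⟨ν, rfl⟩ : ∃ ν, μ = ν + Finsupp.single s 1 := ⟨_, (tsub_add_cancel_of_le hle).symm⟩
    have h0 : ν + Finsupp.single s 1 ≠ 0 := by
      intro h
      have := congrArg (fun z => z s) h
      simp at this
    rw [if_pos hle, if_neg h0, add_tsub_cancel_right, coeff_add_oneVar, coeff_oneVar]
    split_ifs
    · ring
    · simp
  · have h0 : μ s = 0 := by
      rw [Finsupp.single_le_iff] at hle
      omega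
    rw [if_neg hle, coeff_oneVar, h0]
    simp

theorem ell_sub_lp [Finite σ] (T : ℕ) (s : σ) :
    ell s - (lp T s : MvPolynomial σ ℚ) ∈ MM σ ^ T := by
  classical
  refine mem_MM_pow T _ fun μ hμ => ?_
  rw [map_sub, MvPolynomial.coeff_coe, ell, coeff_oneVar, lp, MvPolynomial.coeff_sum, sub_eq_zero]
  simp only [MvPolynomial.coeff_C_mul, MvPolynomial.coeff_X_pow]
  split_ifs with h
  · have hd : μ.degree = μ s := by rw [h]; simp
    rcases hn : μ s with _ | n
    · rw [Finset.sum_eq_zero]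
      · rfl
      · intro m _
        rw [if_neg, mul_zero]
        intro e
        rw [← e] at hn
        simp at hn
    · rw [Finset.sum_eq_single n]
      · rw [if_pos (by rw [h, hn]), mul_one]; rfl
      · intro m _ hm
        rw [if_neg, mul_zero]
        intro e
        rw [← e] at hn
        simp at hn
        exact hm hn
      · intro hh
        exact absurd (Finset.mem_range.2 (by omega)) hh
  · symm
    refine Finset.sum_eq_zero fun m _ => ?_
    rw [if_neg, mul_zero]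
    intro e
    apply h
    rw [← e]
    simp

end logs

theorem map_units_zpow {R K : Type*} [CommRing R] [Field K] (f : R →+* K) (u : Rˣ) (a : ℤ) :
    f ((u ^ a : Rˣ) : R) = f u ^ a := by
  have := map_zpow (Units.map (f : R →* K)) u a
  have h2 := congrArg Units.val this
  rw [Units.val_zpow_eq_zpow_val] at h2
  exact h2

theorem der_mv_aeval {σ L : Type} [Fintype σ] [Field L] [CharZero L] (δ : Derivation ℚ L L)
    (z : σ → L) (P : MvPolynomial σ ℚ) :
    δ (MvPolynomial.aeval z P) = ∑ s, MvPolynomial.aeval z (MvPolynomial.pderiv s P) * δ (z s) := by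
  classical
  induction P using MvPolynomial.induction_on with
  | C a => rw [MvPolynomial.aeval_C, Derivation.map_algebraMap]; simp
  | add P Q hP hQ => simp [hP, hQ, add_mul, Finset.sum_add_distrib]
  | mul_X P j hP =>
    rw [map_mul, Derivation.leibniz, hP]
    simp only [Derivation.leibniz, smul_eq_mul, map_add, map_mul, add_mul, Finset.sum_add_distrib,
      MvPolynomial.aeval_X, Finset.mul_sum]
    congr 1
    · rw [Finset.sum_eq_single j]
      · simp
      · intro i _ hi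
        simp [MvPolynomial.pderiv_X_of_ne (Ne.symm hi)]
      · simp
    · exact Finset.sum_congr rfl fun i _ => by ring

namespace SN

variable {σ : Type} [Fintype σ] (S : SN σ)

theorem indep {I : Type} [Fintype I] (e : I → σ)
    (hind : ∀ a b : I → ℕ, a ≠ b → ∏ i, (1 + MvPolynomial.X (e i)) ^ a i -
      ∏ i, (1 + MvPolynomial.X (e i)) ^ b i ∉ S.qq)
    (F : MvPolynomial I (MvPolynomial σ ℚ))
    (hF : ∀ T, S.N (MvPolynomial.eval (fun i => lp T (e i)) F) ≤ S.θ ^ T) (μ : I →₀ ℕ) :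
    F.coeff μ ∈ S.qq := by
  classical
  let R := MvPowerSeries σ ℚ
  let co : MvPolynomial σ ℚ →+* R := MvPolynomial.coeToMvPowerSeries.ringHom
  obtain ⟨B, _, _, _⟩ : ∃ (B : Type) (_ : Field B) (_ : Algebra (R ⧸ S.PP) B),
      IsFractionRing (R ⧸ S.PP) B :=
    ⟨FractionRing (R ⧸ S.PP), inferInstance, inferInstance, inferInstance⟩
  let ψ : R →+* B := (algebraMap (R ⧸ S.PP) B).comp (Ideal.Quotient.mk S.PP)
  have hψ : ∀ f, ψ f = 0 ↔ f ∈ S.PP := fun f => by
    simp [ψ, Ideal.Quotient.eq_zero_iff_mem]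
  have hch : CharZero B := by
    refine ⟨fun m n h => ?_⟩
    have : ψ (co (MvPolynomial.C ((m : ℚ) - n))) = 0 := by simp [h]
    rw [hψ, ← Ideal.mem_comap] at this
    have h2 := S.mem_qq.1 this
    by_contra hne
    rw [S.const _ (sub_ne_zero.2 (by exact_mod_cast hne))] at h2
    exact one_ne_zero h2
  let f : R := MvPolynomial.eval₂ co (fun i => ell (e i)) F
  have hf : f ∈ S.PP := by
    rw [mem_PP]
    refine le_antisymm (ge_of_tendsto'
      (tendsto_pow_atTop_nhds_zero_of_lt_one S.θ_nonneg S.θ_lt) fun T => ?_) (S.Nh_nonneg _)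
    have h1 : f - co (MvPolynomial.eval (fun i => lp T (e i)) F) ∈ MM σ ^ T := by
      rw [← Ideal.Quotient.eq, MvPolynomial.eval₂_comp_left, ← MvPolynomial.eval₂_id,
        MvPolynomial.eval₂_comp_left, MvPolynomial.eval₂_comp_left]
      congr 1
      funext i
      exact Ideal.Quotient.eq.2 (ell_sub_lp T (e i))
    have h2 := S.Nh_add (f - co (MvPolynomial.eval (fun i => lp T (e i)) F))
      (co (MvPolynomial.eval (fun i => lp T (e i)) F))
    rw [sub_add_cancel] at h2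
    refine h2.trans (max_le (S.Nh_le_of_mem (Ideal.mem_sup_left h1)) ?_)
    exact (S.Nh_coe _).trans_le (hF T)
  let zb : σ → B := fun s => ψ (MvPowerSeries.X s)
  let L := IntermediateField.adjoin ℚ (Set.range zb)
  let z : σ → L := fun s => ⟨zb s, IntermediateField.subset_adjoin _ _ ⟨s, rfl⟩⟩
  let j := algebraMap L B
  have hj : Function.Injective j := j.injective
  have hev : ∀ P : MvPolynomial σ ℚ, j (MvPolynomial.aeval z P) = ψ (co P) := by
    intro P
    induction P using MvPolynomial.induction_on with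
    | C a =>
      rw [MvPolynomial.aeval_C]
      exact RingHom.congr_fun (Subsingleton.elim (j.comp (algebraMap ℚ L))
        ((ψ.comp co).comp MvPolynomial.C)) a
    | add P Q hP hQ => simp only [map_add, hP, hQ]
    | mul_X P s hP =>
      simp only [map_mul, hP, MvPolynomial.aeval_X]
      congr 1
      exact congrArg ψ (MvPolynomial.coe_X s).symm
  have hq : ∀ P : MvPolynomial σ ℚ, MvPolynomial.aeval z P = 0 ↔ P ∈ S.qq := by
    intro P
    rw [← map_eq_zero_iff j hj, hev, hψ]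
    rfl
  have hfrac : ∀ x : L, ∃ p q : MvPolynomial σ ℚ, MvPolynomial.aeval z q ≠ 0 ∧
      x * MvPolynomial.aeval z q = MvPolynomial.aeval z p := by
    intro x
    obtain ⟨p, q, h⟩ := (IntermediateField.mem_adjoin_range_iff ℚ zb x.1).1 x.2
    have ha : ∀ P : MvPolynomial σ ℚ, MvPolynomial.aeval zb P = j (MvPolynomial.aeval z P) :=
      fun P => by
        have := MvPolynomial.aeval_algebraMap_apply B z P
        exact this
    have h' : x = MvPolynomial.aeval z p / MvPolynomial.aeval z q := by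
      apply hj
      rw [map_div₀, ← ha, ← ha]
      exact h
    by_cases hq0 : MvPolynomial.aeval z q = 0
    · exact ⟨0, 1, by simp, by simp [h', hq0]⟩
    · exact ⟨p, q, hq0, by rw [h']; field_simp⟩
  have hunit : ∀ s, IsUnit (1 + MvPowerSeries.X s : R) := fun s => by
    rw [MvPowerSeries.isUnit_iff_constantCoeff]; simp
  let y : I → L := fun i => 1 + z (e i)
  have hyj : ∀ i, j (y i) = ψ (1 + MvPowerSeries.X (e i)) := fun i => by
    simp [y, j, z, zb]
  have hy : ∀ i, y i ≠ 0 := fun i h => by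
    have := hyj i
    rw [h, map_zero] at this
    exact ((hunit (e i)).map ψ).ne_zero this.symm
  by_contra hμ
  obtain ⟨c, r, hc, hcr⟩ := ostrowski (B := B) y (fun i => ψ (ell (e i))) (fun δ => by
      choose p q hq0 hpq using fun s => hfrac (δ (z s))
      let a := ∏ s, q s
      let G : σ → MvPolynomial σ ℚ := fun s => p s * ∏ t ∈ Finset.univ.erase s, q t
      have ha : MvPolynomial.aeval z a ≠ 0 := by
        rw [map_prod]; exact Finset.prod_ne_zero_iff.2 fun s _ => hq0 s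
      have hG : ∀ s, MvPolynomial.aeval z (G s) = MvPolynomial.aeval z a * δ (z s) := by
        intro s
        simp only [G, a]
        rw [← Finset.mul_prod_erase _ _ (Finset.mem_univ s), map_mul, map_mul, ← hpq]; ring
      let D : Derivation ℚ R R := ∑ s, co (G s) • MvPowerSeries.pderiv ℚ s
      have hD : ∀ g, D g = ∑ s, co (G s) * MvPowerSeries.pderiv ℚ s g := by
        intro g
        have := map_sum (Derivation.coeFnAddMonoidHom (R := ℚ) (A := R) (M := R))
          (fun s => co (G s) • MvPowerSeries.pderiv ℚ s) Finset.univ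
        have h2 := congrFun this g
        rw [Finset.sum_apply] at h2
        exact h2
      have hDco : ∀ P, D (co P) = co (∑ s, G s * MvPolynomial.pderiv s P) := by
        intro P
        rw [hD, map_sum]
        refine Finset.sum_congr rfl fun s _ => ?_
        rw [map_mul co (G s)]
        congr 1
        exact MvPowerSeries.pderiv_coe P
      have hDa : ∀ P, MvPolynomial.aeval z (∑ s, G s * MvPolynomial.pderiv s P) =
          MvPolynomial.aeval z a * δ (MvPolynomial.aeval z P) := by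
        intro P
        rw [der_mv_aeval, map_sum, Finset.mul_sum]
        exact Finset.sum_congr rfl fun s _ => by rw [map_mul, hG]; ring
      obtain ⟨d, hadd, hmul, hd⟩ := exists_ext_der S.PP B D fun g hg =>
        S.der_mem D (fun P hP => ⟨_, by
          rw [← hq, hDa, (hq P).2 hP, map_zero, mul_zero], hDco P⟩) hg
      have hd' : ∀ g, d (ψ g) = ψ (D g) := hd
      have haj : j (MvPolynomial.aeval z a) ≠ 0 := (map_ne_zero j).2 ha
      have hdP : ∀ P : MvPolynomial σ ℚ, d (j (MvPolynomial.aeval z P)) =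
          j (MvPolynomial.aeval z a) * j (δ (MvPolynomial.aeval z P)) := by
        intro P
        rw [hev, hd', hDco, ← hev, hDa, map_mul]
      refine ⟨fun x => (j (MvPolynomial.aeval z a))⁻¹ * d x, fun u v => ?_, fun u v => ?_,
        fun x => ?_, fun i => ?_⟩
      · simp only [hadd]; ring
      · simp only [hmul]; ring
      · obtain ⟨p', q', h1, h2⟩ := hfrac x
        have h3 := congrArg (fun t => d (j t)) h2
        have h4 := congrArg (fun t => j (δ t)) h2
        simp only [map_mul, hmul, hdP, Derivation.leibniz, smul_eq_mul, map_add] at h3 h4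
        have h5 : j (MvPolynomial.aeval z q') ≠ 0 := (map_ne_zero j).2 h1
        change _ * d (j x) = j (δ x)
        rw [inv_mul_eq_iff_eq_mul₀ haj]
        apply mul_left_cancel₀ h5
        linear_combination h3 - j (MvPolynomial.aeval z a) * h4
      · have h1 : (1 + MvPowerSeries.X (e i)) * D (ell (e i)) = co (G (e i)) := by
          rw [hD, Finset.sum_eq_single (e i)]
          · rw [mul_left_comm, one_add_mul_pderiv_ell, mul_one]
          · intro s _ hs
            rw [pderiv_ell_ne hs, mul_zero]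
          · simp
        have h2 := congrArg ψ h1
        rw [map_mul, ← hyj, ← hev, hG, ← hd'] at h2
        have h3 : δ (y i) = δ (z (e i)) := by simp [y]
        have h4 : j (y i) ≠ 0 := (map_ne_zero j).2 (hy i)
        change _ * d _ = j _
        rw [map_div₀, h3]
        rw [map_mul] at h2
        field_simp
        linear_combination h2)
    (MvPolynomial.map (MvPolynomial.aeval z : MvPolynomial σ ℚ →ₐ[ℚ] L).toRingHom F)
    (fun h => hμ (by
      rw [← hq]
      have := congrArg (MvPolynomial.coeff μ) h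
      rwa [MvPolynomial.coeff_map] at this))
    (by
      rw [MvPolynomial.aeval_def, MvPolynomial.eval₂_map, ← (hψ f).2 hf,
        MvPolynomial.eval₂_comp_left]
      congr 1
      exact RingHom.ext fun P => hev P)
  obtain ⟨a, ha, hal⟩ := exists_alg_monomial y hy c r hc hcr
  choose u hu using fun i => hunit (e i)
  let v : R := ((∏ i, u i ^ a i : Rˣ) : R)
  have hv : ψ v = j (∏ i, y i ^ a i) := by
    simp only [v, Units.coe_prod, map_prod, map_zpow₀, hyj, ← hu]
    refine Finset.prod_congr rfl fun i _ => ?_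
    exact map_units_zpow ψ (u i) (a i)
  have hv1 : MvPowerSeries.constantCoeff v = 1 := by
    simp only [v, Units.coe_prod, map_prod]
    refine Finset.prod_eq_one fun i _ => ?_
    rw [map_units_zpow (MvPowerSeries.constantCoeff (σ := σ) (R := ℚ)) (u i) (a i), hu]
    simp
  have h1 : ∏ i, y i ^ a i = 1 := by
    by_contra hne
    have hal' : IsIntegral ℚ (∏ i, y i ^ a i - 1) := (hal.sub isAlgebraic_one).isIntegral
    have hm := minpoly.coeff_zero_ne_zero hal' (sub_ne_zero.2 hne)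
    have h2 : Polynomial.aeval (v - 1) (minpoly ℚ (∏ i, y i ^ a i - 1)) ∈ S.PP := by
      rw [← hψ]
      have e1 := Polynomial.aeval_algHom_apply ψ.toRatAlgHom (v - 1)
        (minpoly ℚ (∏ i, y i ^ a i - 1))
      have e2 := Polynomial.aeval_algHom_apply j.toRatAlgHom (∏ i, y i ^ a i - 1)
        (minpoly ℚ (∏ i, y i ^ a i - 1))
      simp only [RingHom.toRatAlgHom_apply, map_sub, map_one, hv, minpoly.aeval, map_zero] at e1 e2
      rw [← e1, e2]
    refine S.PP_prime.ne_top (Ideal.eq_top_of_isUnit_mem _ h2 ?_)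
    rw [MvPowerSeries.isUnit_iff_constantCoeff]
    have e3 := Polynomial.aeval_algHom_apply
      (MvPowerSeries.constantCoeff (σ := σ) (R := ℚ)).toRatAlgHom (v - 1)
      (minpoly ℚ (∏ i, y i ^ a i - 1))
    simp only [RingHom.toRatAlgHom_apply, map_sub, map_one, hv1, sub_self] at e3
    rw [← e3, ← Polynomial.coeff_zero_eq_aeval_zero]
    exact isUnit_iff_ne_zero.2 hm
  refine hind (fun i => (a i).toNat) (fun i => (-a i).toNat) (fun h => ha (funext fun i => ?_)) ?_
  · have := congrFun h i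
    simp only [Pi.zero_apply] at this ⊢
    omega
  · rw [← hq]
    simp only [map_sub, map_prod, map_pow, map_add, map_one, MvPolynomial.aeval_X]
    change ∏ i, y i ^ (a i).toNat - ∏ i, y i ^ (-a i).toNat = 0
    rw [sub_eq_zero, ← mul_one (∏ i, y i ^ (-a i).toNat), ← h1, ← Finset.prod_mul_distrib]
    refine Finset.prod_congr rfl fun i _ => ?_
    rw [← zpow_natCast, ← zpow_natCast, ← zpow_add₀ (hy i)]
    congr 1
    omega

end SN

end Pool.Agent.Work.MP_dd0d16_nt
end

-- merged part: Pool.Agent.Work.MP_dd0d16_nt.Liouville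
section
/-!
A crude height and the Liouville inequality for an ultrametric absolute value.
-/

set_option autoImplicit false

namespace Pool.Agent.Work.MP_dd0d16_nt

open Polynomial

section K
variable {K : Type} [Field K] [Algebra ℚ K]

/-- At most `N` complex conjugates, all of size at most `B`, and a denominator at most `B`. -/
structure TameK (N : ℕ) (B : ℝ) (x : K) : Prop where
  one_le : 1 ≤ B
  card : ∃ s : Finset ℂ, s.card ≤ N ∧ ∀ φ : K →ₐ[ℚ] ℂ, φ x ∈ s
  den : ∃ a : ℤ, a ≠ 0 ∧ |(a : ℝ)| ≤ B ∧ IsIntegral ℤ ((a : K) * x)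
  house : ∀ φ : K →ₐ[ℚ] ℂ, ‖φ x‖ ≤ B

namespace TameK

theorem mono {N N' : ℕ} {B B' : ℝ} {x : K} (h : TameK N B x) (hN : N ≤ N') (hB : B ≤ B') :
    TameK N' B' x where
  one_le := h.one_le.trans hB
  card := by obtain ⟨s, h1, h2⟩ := h.card; exact ⟨s, h1.trans hN, h2⟩
  den := by obtain ⟨a, h1, h2, h3⟩ := h.den; exact ⟨a, h1, h2.trans hB, h3⟩
  house := fun φ => (h.house φ).trans hB

theorem mul {N N' : ℕ} {B B' : ℝ} {x y : K} (h : TameK N B x) (h' : TameK N' B' y) :
    TameK (N * N') (B * B') (x * y) where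
  one_le := one_le_mul_of_one_le_of_one_le h.one_le h'.one_le
  card := by
    classical
    obtain ⟨s, h1, h2⟩ := h.card
    obtain ⟨t, h3, h4⟩ := h'.card
    refine ⟨Finset.image₂ (· * ·) s t, (Finset.card_image₂_le _ _ _).trans (Nat.mul_le_mul h1 h3),
      fun φ => ?_⟩
    rw [map_mul]
    exact Finset.mem_image₂_of_mem (h2 φ) (h4 φ)
  den := by
    obtain ⟨a, h1, h2, h3⟩ := h.den
    obtain ⟨b, h4, h5, h6⟩ := h'.den
    refine ⟨a * b, mul_ne_zero h1 h4, ?_, ?_⟩
    · rw [Int.cast_mul, abs_mul]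
      exact mul_le_mul h2 h5 (abs_nonneg _) (zero_le_one.trans h.one_le)
    · have : ((a * b : ℤ) : K) * (x * y) = (a * x) * (b * y) := by push_cast; ring
      rw [this]
      exact h3.mul h6
  house := fun φ => by
    rw [map_mul, norm_mul]
    exact mul_le_mul (h.house φ) (h'.house φ) (norm_nonneg _) (zero_le_one.trans h.one_le)

theorem add {N N' : ℕ} {B B' : ℝ} {x y : K} (h : TameK N B x) (h' : TameK N' B' y) :
    TameK (N * N') (2 * (B * B')) (x + y) where
  one_le := by have := one_le_mul_of_one_le_of_one_le h.one_le h'.one_le; linarith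
  card := by
    classical
    obtain ⟨s, h1, h2⟩ := h.card
    obtain ⟨t, h3, h4⟩ := h'.card
    refine ⟨Finset.image₂ (· + ·) s t, (Finset.card_image₂_le _ _ _).trans (Nat.mul_le_mul h1 h3),
      fun φ => ?_⟩
    rw [map_add]
    exact Finset.mem_image₂_of_mem (h2 φ) (h4 φ)
  den := by
    obtain ⟨a, h1, h2, h3⟩ := h.den
    obtain ⟨b, h4, h5, h6⟩ := h'.den
    refine ⟨a * b, mul_ne_zero h1 h4, ?_, ?_⟩
    · rw [Int.cast_mul, abs_mul]
      have := mul_le_mul h2 h5 (abs_nonneg _) (zero_le_one.trans h.one_le)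
      have := one_le_mul_of_one_le_of_one_le h.one_le h'.one_le
      linarith
    · have : ((a * b : ℤ) : K) * (x + y) = b * (a * x) + a * (b * y) := by push_cast; ring
      rw [this]
      exact ((isIntegral_algebraMap (x := b)).mul h3).add ((isIntegral_algebraMap (x := a)).mul h6)
  house := fun φ => by
    rw [map_add]
    have h1 := h.house φ
    have h2 := h'.house φ
    have h3 := h.one_le
    have h4 := h'.one_le
    have h5 := norm_add_le (φ x) (φ y)
    nlinarith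

theorem pow {N : ℕ} {B : ℝ} {x : K} (h : TameK N B x) (r : ℕ) : TameK N (B ^ r) (x ^ r) where
  one_le := one_le_pow₀ h.one_le
  card := by
    classical
    obtain ⟨s, h1, h2⟩ := h.card
    exact ⟨s.image (· ^ r), Finset.card_image_le.trans h1, fun φ => by
      rw [map_pow]; exact Finset.mem_image_of_mem _ (h2 φ)⟩
  den := by
    obtain ⟨a, h1, h2, h3⟩ := h.den
    refine ⟨a ^ r, pow_ne_zero _ h1, ?_, ?_⟩
    · rw [Int.cast_pow, abs_pow]
      exact pow_le_pow_left₀ (abs_nonneg _) h2 r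
    · rw [Int.cast_pow, ← mul_pow]
      exact h3.pow r
  house := fun φ => by
    rw [map_pow, norm_pow]
    exact pow_le_pow_left₀ (norm_nonneg _) (h.house φ) r

theorem rat (q : ℚ) {B : ℝ} (h1 : |(q : ℝ)| ≤ B) (h2 : (q.den : ℝ) ≤ B) :
    TameK 1 B (algebraMap ℚ K q) where
  one_le := le_trans (by exact_mod_cast q.pos) h2
  card := ⟨{(q : ℂ)}, by simp, fun φ => by simp⟩
  den := by
    refine ⟨q.den, by exact_mod_cast q.den_nz, by simpa using h2, ?_⟩
    have : ((q.den : ℤ) : K) * algebraMap ℚ K q = algebraMap ℤ K q.num := by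
      have h : ((q.den : ℤ) : K) = algebraMap ℚ K (q.den : ℚ) := by simp
      rw [h, ← map_mul, Rat.den_mul_eq_num]
      simp
    rw [this]
    exact isIntegral_algebraMap
  house := fun φ => by simpa using h1

theorem of_root {d H : ℕ} {x : K} {f : ℤ[X]} (hf : f ≠ 0) (hd : f.natDegree ≤ d)
    (hH : ∀ i, |f.coeff i| ≤ H) (hx : aeval x f = 0) : TameK d (H + 1) x := by
  classical
  have hmap : f.map (Int.castRingHom ℂ) ≠ 0 :=
    (Polynomial.map_ne_zero_iff (Int.castRingHom ℂ).injective_int).2 hf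
  have hroot : ∀ φ : K →ₐ[ℚ] ℂ, (f.map (Int.castRingHom ℂ)).IsRoot (φ x) := by
    intro φ
    have := aeval_algHom_apply φ.toRingHom.toIntAlgHom x f
    rw [hx, map_zero] at this
    rw [IsRoot, eval_map]
    exact this
  have hHr : ∀ i, |((f.coeff i : ℤ) : ℝ)| ≤ H := fun i => by exact_mod_cast hH i
  refine ⟨by simp, ⟨(f.map (Int.castRingHom ℂ)).roots.toFinset, ?_, fun φ => ?_⟩,
    ⟨f.leadingCoeff, leadingCoeff_ne_zero.2 hf, (hHr _).trans (by linarith), ?_⟩, fun φ => ?_⟩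
  · exact (Multiset.toFinset_card_le _).trans ((card_roots' _).trans (natDegree_map_le.trans hd))
  · exact Multiset.mem_toFinset.2 ((mem_roots hmap).2 (hroot φ))
  · have := isIntegral_leadingCoeff_smul f x hx
    rwa [zsmul_eq_mul] at this
  · have h1 := (hroot φ).norm_lt_cauchyBound hmap
    have h2 : cauchyBound (f.map (Int.castRingHom ℂ)) ≤ H + 1 := by
      unfold cauchyBound
      gcongr
      have hl : 1 ≤ ‖(f.map (Int.castRingHom ℂ)).leadingCoeff‖₊ := by
        rw [leadingCoeff_map_of_injective (Int.castRingHom ℂ).injective_int, ← NNReal.coe_le_coe]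
        have : (1 : ℤ) ≤ |f.leadingCoeff| := Int.one_le_abs (leadingCoeff_ne_zero.2 hf)
        simpa [Int.norm_eq_abs] using
          (by exact_mod_cast this : (1 : ℝ) ≤ |((f.leadingCoeff : ℤ) : ℝ)|)
      refine (div_le_self zero_le hl).trans (Finset.sup_le fun i _ => ?_)
      rw [← NNReal.coe_le_coe]
      simpa [Int.norm_eq_abs] using hHr i
    have h3 : ‖φ x‖₊ ≤ H + 1 := h1.le.trans h2
    exact_mod_cast h3

end TameK

theorem tameK_aeval {σ : Type} [Fintype σ] (P : MvPolynomial σ ℚ) :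
    ∃ c : ℝ, 1 ≤ c ∧ ∀ (K : Type) [Field K] [Algebra ℚ K] (N : ℕ) (B : ℝ) (x : σ → K), 1 ≤ B →
      (∀ s, TameK N B (x s)) → TameK (N ^ Fintype.card σ)
        (c * B ^ (P.totalDegree * (Fintype.card σ + 1))) (MvPolynomial.aeval x P) := by
  classical
  obtain ⟨b, hb⟩ := IsLocalization.exist_integer_multiples (nonZeroDivisors ℤ) P.support
    (fun μ => P.coeff μ)
  have hb0 : (b : ℤ) ≠ 0 := nonZeroDivisors.coe_ne_zero b
  have hb1 : (1 : ℝ) ≤ |((b : ℤ) : ℝ)| := by exact_mod_cast Int.one_le_abs hb0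
  have hs0 : 0 ≤ ∑ μ ∈ P.support, |((P.coeff μ : ℚ) : ℝ)| :=
    Finset.sum_nonneg fun _ _ => abs_nonneg _
  refine ⟨|((b : ℤ) : ℝ)| + ∑ μ ∈ P.support, |((P.coeff μ : ℚ) : ℝ)|, by linarith,
    fun K _ _ N B x hB hx => ?_⟩
  set D := P.totalDegree
  have hB' : 1 ≤ B ^ (D * (Fintype.card σ + 1)) := one_le_pow₀ hB
  have hdeg : ∀ μ ∈ P.support, ∑ s, μ s ≤ D := fun μ hμ => by
    have := MvPolynomial.le_totalDegree hμ
    rwa [Finsupp.sum_fintype _ _ (fun _ => rfl)] at this
  have hev : MvPolynomial.aeval x P =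
      ∑ μ ∈ P.support, algebraMap ℚ K (P.coeff μ) * ∏ s, x s ^ μ s := by
    rw [MvPolynomial.aeval_def, MvPolynomial.eval₂_eq']
  refine ⟨by nlinarith, ?_, ?_, fun φ => ?_⟩
  · choose s h1 h2 using fun s => (hx s).card
    refine ⟨(Fintype.piFinset s).image fun v => MvPolynomial.aeval v P, ?_, fun φ => ?_⟩
    · refine Finset.card_image_le.trans ?_
      rw [Fintype.card_piFinset]
      exact (Finset.prod_le_pow_card _ _ N fun s _ => h1 s).trans (by simp)
    · refine Finset.mem_image.2 ⟨fun s => φ (x s), Fintype.mem_piFinset.2 fun s => h2 s φ, ?_⟩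
      exact (MvPolynomial.comp_aeval_apply x φ P).symm
  · choose a h1 h2 h3 using fun s => (hx s).den
    refine ⟨b * ∏ s, a s ^ D, mul_ne_zero hb0
      (Finset.prod_ne_zero_iff.2 fun s _ => pow_ne_zero _ (h1 s)), ?_, ?_⟩
    · push_cast
      rw [abs_mul, Finset.abs_prod]
      have h4 : ∏ s, |(a s : ℝ) ^ D| ≤ B ^ (D * (Fintype.card σ + 1)) := by
        refine (Finset.prod_le_prod (g := fun _ => B ^ D) (fun _ _ => abs_nonneg _)
          fun s _ => ?_).trans ?_
        · rw [abs_pow]; exact pow_le_pow_left₀ (abs_nonneg _) (h2 s) D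
        · rw [Finset.prod_const, ← pow_mul]
          exact pow_le_pow_right₀ hB (by simp [mul_add])
      exact mul_le_mul (by linarith) h4 (Finset.prod_nonneg fun _ _ => abs_nonneg _) (by linarith)
    · rw [hev, Finset.mul_sum]
      refine IsIntegral.sum _ fun μ hμ => ?_
      obtain ⟨m, hm⟩ := hb μ hμ
      have hm' : ((b : ℤ) : K) * algebraMap ℚ K (P.coeff μ) = (m : K) := by
        have := congrArg (algebraMap ℚ K) hm
        rw [zsmul_eq_mul, map_mul] at this
        simpa using this.symm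
      have e : ((b * ∏ s, a s ^ D : ℤ) : K) * (algebraMap ℚ K (P.coeff μ) * ∏ s, x s ^ μ s) =
          (m : K) * ∏ s, ((a s : K) ^ (D - μ s) * (a s * x s) ^ μ s) := by
        rw [← hm']
        push_cast
        rw [mul_mul_mul_comm, ← Finset.prod_mul_distrib]
        congr 1
        refine Finset.prod_congr rfl fun s _ => ?_
        have : μ s ≤ D := (Finset.single_le_sum (f := fun s => μ s) (fun _ _ => Nat.zero_le _)
          (Finset.mem_univ s)).trans (hdeg μ hμ)
        rw [mul_pow, ← mul_assoc, ← pow_add, Nat.sub_add_cancel this]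
      rw [e]
      exact (isIntegral_algebraMap (x := m)).mul (IsIntegral.prod _ fun s _ =>
        ((isIntegral_algebraMap (x := a s)).pow _).mul ((h3 s).pow _))
  · rw [hev, map_sum]
    refine (norm_sum_le _ _).trans ?_
    refine le_trans ?_ (mul_le_mul_of_nonneg_right (le_add_of_nonneg_left (abs_nonneg _))
      (zero_le_one.trans hB'))
    rw [Finset.sum_mul]
    refine Finset.sum_le_sum fun μ hμ => ?_
    rw [map_mul, norm_mul, AlgHom.commutes, map_prod, norm_prod]
    refine mul_le_mul (by simp) ?_ (Finset.prod_nonneg fun _ _ => norm_nonneg _) (abs_nonneg _)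
    refine (Finset.prod_le_prod (g := fun s => B ^ μ s) (fun _ _ => norm_nonneg _)
      fun s _ => ?_).trans ?_
    · rw [map_pow, norm_pow]; exact pow_le_pow_left₀ (norm_nonneg _) ((hx s).house φ) _
    · rw [Finset.prod_pow_eq_pow_sum]
      exact pow_le_pow_right₀ hB ((hdeg μ hμ).trans (by simp [mul_add]))

theorem TameK.exists_int [Algebra.IsAlgebraic ℚ K] {N : ℕ} {B : ℝ} {x : K} (h : TameK N B x)
    (hx : x ≠ 0) : ∃ (m : ℤ) (y : K), m ≠ 0 ∧ |(m : ℝ)| ≤ (B * B) ^ N ∧ IsIntegral ℤ y ∧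
      (m : K) = y * x := by
  classical
  have : CharZero K := algebraRat.charZero K
  obtain ⟨a, ha, haB, hint⟩ := h.den
  obtain ⟨s, hs, hsφ⟩ := h.card
  set γ := (a : K) * x with hγ
  have hγ0 : γ ≠ 0 := mul_ne_zero (by exact_mod_cast ha) hx
  let m := minpoly ℤ γ
  have hm : minpoly ℚ γ = m.map (algebraMap ℤ ℚ) :=
    minpoly.isIntegrallyClosed_eq_field_fractions' ℚ hint
  have hq : IsIntegral ℚ γ := hint.tower_top
  have hc : (minpoly ℚ γ).coeff 0 = (m.coeff 0 : ℚ) := by rw [hm]; simp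
  have h0 : m.coeff 0 ≠ 0 := by
    have := minpoly.coeff_zero_ne_zero hq hγ0
    rw [hc] at this
    exact_mod_cast this
  have hBB : 1 ≤ B * B := one_le_mul_of_one_le_of_one_le h.one_le h.one_le
  refine ⟨m.coeff 0, -(aeval γ m.divX * a), h0, ?_, ?_, ?_⟩
  · let M := (minpoly ℚ γ).map (algebraMap ℚ ℂ)
    have hM : M.Monic := (minpoly.monic hq).map _
    have h1 := (IsAlgClosed.splits M).coeff_zero_eq_prod_roots_of_monic hM
    have h2 : M.coeff 0 = (m.coeff 0 : ℂ) := by simp [M, hc]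
    have hnd : M.roots.Nodup := nodup_roots ((minpoly.irreducible hq).separable.map)
    have hr : ∀ r ∈ M.roots, ∃ φ : K →ₐ[ℚ] ℂ, φ γ = r := by
      intro r hr
      have : r ∈ (minpoly ℚ γ).rootSet ℂ := by
        rw [mem_rootSet_of_ne (minpoly.ne_zero hq), aeval_def, ← eval_map]
        exact isRoot_of_mem_roots hr
      rw [← Algebra.IsAlgebraic.range_eval_eq_rootSet_minpoly ℂ γ] at this
      exact this
    have hcard : M.roots.card ≤ N := by
      rw [← Multiset.toFinset_card_of_nodup hnd]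
      refine (Finset.card_le_card (t := s.image fun z => (a : ℂ) * z) fun r hr' => ?_).trans
        (Finset.card_image_le.trans hs)
      obtain ⟨φ, rfl⟩ := hr r (Multiset.mem_toFinset.1 hr')
      exact Finset.mem_image.2 ⟨φ x, hsφ φ, by simp [hγ]⟩
    have h3 : |((m.coeff 0 : ℤ) : ℝ)| = (M.roots.map fun r => ‖r‖).prod := by
      have := congrArg norm h1
      rw [h2, norm_mul, norm_pow, norm_neg, norm_one, one_pow, one_mul] at this
      rw [← Complex.norm_intCast, this]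
      exact map_multiset_prod (normHom (α := ℂ)) M.roots
    rw [h3]
    refine (Multiset.prod_map_le_prod_map₀ _ (fun _ => B * B) (fun _ _ => norm_nonneg _)
      fun r hr' => ?_).trans ?_
    · obtain ⟨φ, rfl⟩ := hr r hr'
      rw [hγ, map_mul, norm_mul, map_intCast, Complex.norm_intCast]
      exact mul_le_mul haB (h.house φ) (norm_nonneg _) (zero_le_one.trans h.one_le)
    · rw [Multiset.map_const', Multiset.prod_replicate]
      exact pow_le_pow_right₀ hBB hcard
  · have : IsIntegral ℤ (aeval γ m.divX) :=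
      adjoin_le_integralClosure hint (aeval_mem_adjoin_singleton ℤ γ)
    exact (this.mul (isIntegral_algebraMap (x := a))).neg
  · have h1 := congrArg (aeval γ) (divX_mul_X_add m)
    rw [minpoly.aeval, map_add, map_mul, aeval_X, aeval_C] at h1
    simp only [algebraMap_int_eq, eq_intCast] at h1
    rw [hγ] at h1 ⊢
    linear_combination h1

end K

section F
variable {F : Type} [NormedField F] [Algebra ℚ F]

/-- The crude height condition for an element of a normed field. -/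
def Tame (N : ℕ) (B : ℝ) (z : F) : Prop :=
  ∃ x : algebraicClosure ℚ F, (x : F) = z ∧ TameK N B x

namespace Tame

theorem isAlgebraic {N : ℕ} {B : ℝ} {z : F} (h : Tame N B z) : IsAlgebraic ℚ z := by
  obtain ⟨x, rfl, -⟩ := h
  exact mem_algebraicClosure_iff.1 x.2

theorem one_le {N : ℕ} {B : ℝ} {z : F} (h : Tame N B z) : 1 ≤ B := by
  obtain ⟨x, -, h⟩ := h
  exact h.one_le

theorem mono {N N' : ℕ} {B B' : ℝ} {z : F} (h : Tame N B z) (hN : N ≤ N') (hB : B ≤ B') :
    Tame N' B' z := by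
  obtain ⟨x, e, h⟩ := h
  exact ⟨x, e, h.mono hN hB⟩

theorem mul {N N' : ℕ} {B B' : ℝ} {z w : F} (h : Tame N B z) (h' : Tame N' B' w) :
    Tame (N * N') (B * B') (z * w) := by
  obtain ⟨x, rfl, h⟩ := h
  obtain ⟨y, rfl, h'⟩ := h'
  exact ⟨x * y, rfl, h.mul h'⟩

theorem add {N N' : ℕ} {B B' : ℝ} {z w : F} (h : Tame N B z) (h' : Tame N' B' w) :
    Tame (N * N') (2 * (B * B')) (z + w) := by
  obtain ⟨x, rfl, h⟩ := h
  obtain ⟨y, rfl, h'⟩ := h'
  exact ⟨x + y, rfl, h.add h'⟩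

theorem pow {N : ℕ} {B : ℝ} {z : F} (h : Tame N B z) (r : ℕ) : Tame N (B ^ r) (z ^ r) := by
  obtain ⟨x, rfl, h⟩ := h
  exact ⟨x ^ r, rfl, h.pow r⟩

theorem rat (q : ℚ) {B : ℝ} (h1 : |(q : ℝ)| ≤ B) (h2 : (q.den : ℝ) ≤ B) :
    Tame 1 B (algebraMap ℚ F q) :=
  ⟨algebraMap ℚ _ q, (algebraMap (algebraicClosure ℚ F) F).map_rat_algebraMap q,
    TameK.rat q h1 h2⟩

theorem of_root {d H : ℕ} {z : F} {f : ℤ[X]} (hf : f ≠ 0) (hd : f.natDegree ≤ d)
    (hH : ∀ i, |f.coeff i| ≤ H) (hz : aeval z f = 0) : Tame d (H + 1) z := by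
  have h1 : IsAlgebraic ℤ z := ⟨f, hf, hz⟩
  have h2 : IsAlgebraic ℚ z := h1.extendScalars (algebraMap ℤ ℚ).injective_int
  refine ⟨⟨z, mem_algebraicClosure_iff.2 h2⟩, rfl, TameK.of_root hf hd hH ?_⟩
  apply (algebraMap (algebraicClosure ℚ F) F).injective
  rw [map_zero, ← hz, ← aeval_algebraMap_apply]
  rfl

end Tame

theorem tame_aeval {σ : Type} [Fintype σ] (P : MvPolynomial σ ℚ) :
    ∃ c : ℝ, 1 ≤ c ∧ ∀ (F : Type) [NormedField F] [Algebra ℚ F] (N : ℕ) (B : ℝ) (z : σ → F),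
      1 ≤ B → (∀ s, Tame N B (z s)) → Tame (N ^ Fintype.card σ)
        (c * B ^ (P.totalDegree * (Fintype.card σ + 1))) (MvPolynomial.aeval z P) := by
  obtain ⟨c, hc, h⟩ := tameK_aeval P
  refine ⟨c, hc, fun F _ _ N B z hB hz => ?_⟩
  choose x e hx using hz
  refine ⟨MvPolynomial.aeval x P, ?_, h _ N B x hB hx⟩
  have := MvPolynomial.aeval_algebraMap_apply F x P
  rw [← funext e]
  exact this.symm

variable [IsUltrametricDist F]

omit [Algebra ℚ F] in
theorem norm_le_one_of_isIntegral {z : F} (h : IsIntegral ℤ z) : ‖z‖ ≤ 1 := by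
  have hv := Valuation.integer.integers (NormedField.valuation (K := F))
  have h2 : IsIntegral (NormedField.valuation (K := F)).integer z := h.tower_top
  exact hv.mem_of_integral h2

omit [IsUltrametricDist F] in
theorem isIntegral_coe {x : algebraicClosure ℚ F} (h : IsIntegral ℤ x) : IsIntegral ℤ (x : F) :=
  h.map (algebraMap (algebraicClosure ℚ F) F).toIntAlgHom

theorem Tame.norm_le (hF : ∀ n : ℤ, n ≠ 0 → 1 ≤ |(n : ℝ)| * ‖(n : F)‖) {N : ℕ} {B : ℝ} {z : F}
    (h : Tame N B z) : ‖z‖ ≤ B := by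
  obtain ⟨x, rfl, h⟩ := h
  obtain ⟨a, h1, h2, h3⟩ := h.den
  have h4 := norm_le_one_of_isIntegral (isIntegral_coe h3)
  push_cast at h4
  rw [norm_mul] at h4
  have h5 := hF a h1
  have h6 := norm_nonneg (x : F)
  have h7 := abs_nonneg (a : ℝ)
  nlinarith

theorem Tame.liouville (hF : ∀ n : ℤ, n ≠ 0 → 1 ≤ |(n : ℝ)| * ‖(n : F)‖) {N : ℕ} {B : ℝ} {z : F}
    (h : Tame N B z) (hz : z ≠ 0) : 1 ≤ (B * B) ^ N * ‖z‖ := by
  obtain ⟨x, rfl, h⟩ := h
  have : Algebra.IsAlgebraic ℚ (algebraicClosure ℚ F) := ⟨fun x =>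
    (isAlgebraic_algebraMap_iff (A := F) (algebraMap (algebraicClosure ℚ F) F).injective).1
      (mem_algebraicClosure_iff.1 x.2)⟩
  obtain ⟨m, y, h1, h2, h3, h4⟩ := h.exists_int (fun h0 => hz (by simp [h0]))
  have h5 := norm_le_one_of_isIntegral (isIntegral_coe h3)
  have h6 : (m : F) = y * x := by exact_mod_cast congrArg (fun t : algebraicClosure ℚ F => (t : F)) h4
  have h7 := hF m h1
  rw [h6, norm_mul] at h7
  refine h7.trans (mul_le_mul h2 (mul_le_of_le_one_left (norm_nonneg _) h5) (by positivity) ?_)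
  exact (abs_nonneg _).trans h2

end F

end Pool.Agent.Work.MP_dd0d16_nt
end

-- merged part: Pool.Agent.Work.MP_dd0d16_nt.Seq
section
/-!
The ultralimit seminorm attached to a sequence of small algebraic points.
-/

set_option autoImplicit false

namespace Pool.Agent.Work.MP_dd0d16_nt

open Filter Topology

section one
variable {F : Type} [NormedField F] [IsUltrametricDist F]

theorem log_tail (hF : ∀ n : ℤ, n ≠ 0 → 1 ≤ |(n : ℝ)| * ‖(n : F)‖) {u w : F} {ρ : ℝ}
    (hu : ‖u‖ ≤ ρ) (hρ : ρ ≤ 1 / 2)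
    (h : HasSum (fun n : ℕ => (-1 : F) ^ n * u ^ (n + 1) / ((n : F) + 1)) w) (T : ℕ) :
    ‖w - ∑ n ∈ Finset.range T, (-1 : F) ^ n * u ^ (n + 1) / ((n : F) + 1)‖ ≤
      (T + 1) * ρ ^ (T + 1) := by
  have hρ0 : 0 ≤ ρ := (norm_nonneg u).trans hu
  have h1 := ((hasSum_nat_add_iff' T).2 h).tendsto_sum_nat.norm
  refine le_of_tendsto' h1 fun m => ?_
  refine IsUltrametricDist.norm_sum_le_of_forall_le_of_nonneg (by positivity) fun j _ => ?_
  have h2 := hF ((j + T + 1 : ℕ) : ℤ) (by positivity)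
  have e1 : (((j + T + 1 : ℕ) : ℤ) : F) = ((j + T : ℕ) : F) + 1 := by push_cast; ring
  have e2 : |(((j + T + 1 : ℕ) : ℤ) : ℝ)| = j + T + 1 := by
    push_cast; exact abs_of_nonneg (by positivity)
  rw [e1, e2] at h2
  have h3 : 0 < ‖((j + T : ℕ) : F) + 1‖ := by
    by_contra h4
    have : ‖((j + T : ℕ) : F) + 1‖ = 0 := le_antisymm (not_lt.1 h4) (norm_nonneg _)
    rw [this] at h2
    linarith
  rw [norm_div, norm_mul, norm_pow, norm_pow, norm_neg, norm_one, one_pow, one_mul, div_le_iff₀ h3]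
  have h5 : ‖u‖ ^ (j + T + 1) ≤ ρ ^ (j + T + 1) := pow_le_pow_left₀ (norm_nonneg _) hu _
  have h6 : ρ ^ j * (j + 1) ≤ 1 := by
    have a : ρ ^ j ≤ (1 / 2) ^ j := pow_le_pow_left₀ hρ0 hρ j
    have b : ((j + 1 : ℕ) : ℝ) ≤ ((2 ^ j : ℕ) : ℝ) := by exact_mod_cast Nat.lt_two_pow_self
    push_cast at b
    have c : (1 / 2 : ℝ) ^ j * 2 ^ j = 1 := by rw [← mul_pow]; norm_num
    calc ρ ^ j * (j + 1) ≤ (1 / 2) ^ j * 2 ^ j := mul_le_mul a b (by positivity) (by positivity)
      _ = 1 := c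
  have h7 : ρ ^ (j + T + 1) * (j + T + 1) ≤ (T + 1) * ρ ^ (T + 1) := by
    have a : (j + T + 1 : ℝ) ≤ (j + 1) * (T + 1) := by nlinarith [Nat.cast_nonneg (α := ℝ) j, Nat.cast_nonneg (α := ℝ) T]
    calc ρ ^ (j + T + 1) * (j + T + 1) ≤ ρ ^ (j + T + 1) * ((j + 1) * (T + 1)) := by gcongr
      _ = (ρ ^ j * (j + 1)) * ((T + 1) * ρ ^ (T + 1)) := by ring
      _ ≤ 1 * ((T + 1) * ρ ^ (T + 1)) := by gcongr
      _ = _ := one_mul _
  calc ‖u‖ ^ (j + T + 1) ≤ ρ ^ (j + T + 1) * 1 := by rwa [mul_one]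
    _ ≤ ρ ^ (j + T + 1) * ((j + T + 1) * ‖((j + T : ℕ) : F) + 1‖) := by gcongr
    _ = (ρ ^ (j + T + 1) * (j + T + 1)) * ‖((j + T : ℕ) : F) + 1‖ := by ring
    _ ≤ _ := by gcongr

theorem norm_mul_sub_le {a b a' b' : F} {t : ℝ} (ha : ‖a‖ ≤ 1) (hb' : ‖b'‖ ≤ 1)
    (h1 : ‖a - a'‖ ≤ t) (h2 : ‖b - b'‖ ≤ t) : ‖a * b - a' * b'‖ ≤ t := by
  have e : a * b - a' * b' = a * (b - b') + (a - a') * b' := by ring
  rw [e]
  refine (IsUltrametricDist.norm_add_le_max _ _).trans (max_le ?_ ?_)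
  · rw [norm_mul]; exact (mul_le_of_le_one_left (norm_nonneg _) ha).trans h2
  · rw [norm_mul]; exact (mul_le_of_le_one_right (norm_nonneg _) hb').trans h1

theorem norm_pow_sub_le {a a' : F} {t : ℝ} (ha : ‖a‖ ≤ 1) (ha' : ‖a'‖ ≤ 1)
    (h1 : ‖a - a'‖ ≤ t) (n : ℕ) : ‖a ^ n - a' ^ n‖ ≤ t := by
  induction n with
  | zero => simpa using (norm_nonneg _).trans h1
  | succ n ih =>
    rw [pow_succ, pow_succ]
    exact norm_mul_sub_le (by rw [norm_pow]; exact pow_le_one₀ (norm_nonneg _) ha) ha' ih h1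

theorem norm_prod_sub_le {I : Type} (s : Finset I) {u v : I → F} {t : ℝ} (ht : 0 ≤ t)
    (hu : ∀ i, ‖u i‖ ≤ 1) (hv : ∀ i, ‖v i‖ ≤ 1) (h : ∀ i, ‖u i - v i‖ ≤ t) :
    ‖∏ i ∈ s, u i - ∏ i ∈ s, v i‖ ≤ t := by
  classical
  induction s using Finset.induction_on with
  | empty => simpa using ht
  | insert i s hi ih =>
    rw [Finset.prod_insert hi, Finset.prod_insert hi]
    refine norm_mul_sub_le (hu i) ?_ (h i) ih
    rw [norm_prod]
    exact Finset.prod_le_one (fun _ _ => norm_nonneg _) fun j _ => hv j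

theorem norm_eval₂_sub_le {I R : Type} [CommRing R] (f : R →+* F) {u v : I → F} {t c : ℝ}
    (ht : 0 ≤ t) (hc : 0 ≤ c) (hu : ∀ i, ‖u i‖ ≤ 1) (hv : ∀ i, ‖v i‖ ≤ 1)
    (h : ∀ i, ‖u i - v i‖ ≤ t) (G : MvPolynomial I R) (hG : ∀ μ ∈ G.support, ‖f (G.coeff μ)‖ ≤ c) :
    ‖MvPolynomial.eval₂ f u G - MvPolynomial.eval₂ f v G‖ ≤ c * t := by
  rw [MvPolynomial.eval₂_eq, MvPolynomial.eval₂_eq, ← Finset.sum_sub_distrib]
  refine IsUltrametricDist.norm_sum_le_of_forall_le_of_nonneg (by positivity) fun μ hμ => ?_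
  rw [← mul_sub, norm_mul]
  refine mul_le_mul (hG μ hμ) (norm_prod_sub_le _ ht (fun i => ?_) (fun i => ?_) fun i => ?_)
    (norm_nonneg _) hc
  · rw [norm_pow]; exact pow_le_one₀ (norm_nonneg _) (hu i)
  · rw [norm_pow]; exact pow_le_one₀ (norm_nonneg _) (hv i)
  · exact norm_pow_sub_le (hu i) (hv i) (h i) _

end one

theorem tame_rat (q : ℚ) : ∃ B : ℝ, ∀ (F : Type) [NormedField F] [Algebra ℚ F],
    Tame 1 B (algebraMap ℚ F q) :=
  ⟨max |(q : ℝ)| q.den, fun _ _ _ => Tame.rat q (le_max_left _ _) (le_max_right _ _)⟩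

theorem norm_aeval_le {σ : Type} (P : MvPolynomial σ ℚ) : ∃ c : ℝ, 1 ≤ c ∧
    ∀ (F : Type) [NormedField F] [Algebra ℚ F] [IsUltrametricDist F],
      (∀ n : ℤ, n ≠ 0 → 1 ≤ |(n : ℝ)| * ‖(n : F)‖) → ∀ z : σ → F, (∀ s, ‖z s‖ ≤ 1) →
      ‖MvPolynomial.aeval z P‖ ≤ c := by
  induction P using MvPolynomial.induction_on with
  | C a =>
    obtain ⟨B, hB⟩ := tame_rat a
    refine ⟨max B 1, le_max_right _ _, fun F _ _ _ hF z _ => ?_⟩
    rw [MvPolynomial.aeval_C]
    exact ((hB F).norm_le hF).trans (le_max_left _ _)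
  | add P Q hP hQ =>
    obtain ⟨c, hc, hP⟩ := hP
    obtain ⟨c', -, hQ⟩ := hQ
    refine ⟨max c c', le_max_of_le_left hc, fun F _ _ _ hF z hz => ?_⟩
    rw [map_add]
    exact (IsUltrametricDist.norm_add_le_max _ _).trans (max_le_max (hP F hF z hz) (hQ F hF z hz))
  | mul_X P s hP =>
    obtain ⟨c, hc, hP⟩ := hP
    refine ⟨c, hc, fun F _ _ _ hF z hz => ?_⟩
    rw [map_mul, norm_mul, MvPolynomial.aeval_X]
    exact (mul_le_of_le_one_right (norm_nonneg _) (hz s)).trans (hP F hF z hz)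

section seq
variable (U : Ultrafilter ℕ) {F : ℕ → Type} [∀ k, NormedField (F k)] [∀ k, Algebra ℚ (F k)]
  [∀ k, IsUltrametricDist (F k)] {σ : Type} [Fintype σ]

theorem exists_SN (hF : ∀ k, ∀ n : ℤ, n ≠ 0 → 1 ≤ |(n : ℝ)| * ‖(n : F k)‖) {ρ : ℕ → ℝ}
    (hρ0 : ∀ k, 0 < ρ k) (hρ1 : ∀ k, ρ k ≤ 1 / 2) (hρ : Tendsto ρ U (𝓝 0))
    (z : ∀ k, σ → F k) {N0 C0 : ℕ} (ht : ∀ k s, Tame N0 ((ρ k)⁻¹ ^ C0) (z k s))
    (hn : ∀ k s, ‖z k s‖ ≤ ρ k) :
    ∃ S : SN σ, (∀ P, S.N P = 0 ↔ ∀ᶠ k in U, MvPolynomial.aeval (z k) P = 0) ∧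
      ∀ (P : MvPolynomial σ ℚ) (c : ℝ) (T : ℕ), 0 < c →
        (∀ᶠ k in U, ‖MvPolynomial.aeval (z k) P‖ ≤ c * ρ k ^ T) → S.N P ≤ S.θ ^ T := by
  let ε : ℕ → ℝ := fun k => -(Real.log (ρ k))⁻¹
  have hlog : ∀ k, Real.log (ρ k) < 0 := fun k => Real.log_neg (hρ0 k) (by linarith [hρ1 k])
  have hε0 : ∀ k, 0 < ε k := fun k => neg_pos.2 (inv_lt_zero.2 (hlog k))
  have hε : Tendsto ε U (𝓝 0) := by
    have h1 : Tendsto ρ U (𝓝[>] 0) :=
      tendsto_nhdsWithin_iff.2 ⟨hρ, Eventually.of_forall hρ0⟩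
    simpa using ((Real.tendsto_log_nhdsGT_zero.comp h1).inv_tendsto_atBot).neg
  let θ := Real.exp (-1)
  have hθ0 : 0 < θ := Real.exp_pos _
  have hθ1 : θ < 1 := Real.exp_lt_one_iff.2 (by norm_num)
  have hρε : ∀ k (T : ℕ), (ρ k ^ T) ^ ε k = θ ^ T := by
    intro k T
    rw [← Real.rpow_natCast_mul (hρ0 k).le, mul_comm, Real.rpow_mul_natCast (hρ0 k).le]
    congr 1
    rw [Real.rpow_def_of_pos (hρ0 k)]
    congr 1
    have := (hlog k).ne
    simp only [ε]
    field_simp
  have hc1 : ∀ c : ℝ, 0 < c → Tendsto (fun k => c ^ ε k) U (𝓝 1) := by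
    intro c hc
    have := (Real.continuousAt_const_rpow (a := c) (b := 0) hc.ne').tendsto.comp hε
    rw [Real.rpow_zero] at this
    exact this
  let f : MvPolynomial σ ℚ → ℕ → ℝ := fun P k => ‖MvPolynomial.aeval (z k) P‖ ^ ε k
  have hf0 : ∀ P k, 0 ≤ f P k := fun P k => Real.rpow_nonneg (norm_nonneg _) _
  have hz1 : ∀ k s, ‖z k s‖ ≤ 1 := fun k s => (hn k s).trans (by linarith [hρ1 k])
  have hex : ∀ P, ∃ a, Tendsto (f P) U (𝓝 a) := by
    intro P
    obtain ⟨c, hc, h⟩ := norm_aeval_le P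
    have h2 : ∀ᶠ k in U, f P k ∈ Set.Icc (0 : ℝ) 2 := by
      filter_upwards [(hc1 c (by linarith)).eventually (gt_mem_nhds one_lt_two)] with k hk
      exact ⟨hf0 P k, (Real.rpow_le_rpow (norm_nonneg _) (h _ (hF k) _ (hz1 k))
        (hε0 k).le).trans hk.le⟩
    obtain ⟨a, -, ha⟩ := isCompact_Icc.ultrafilter_le_nhds (U.map (f P)) (le_principal_iff.2 h2)
    exact ⟨a, ha⟩
  choose N hN using hex
  have hup : ∀ (P : MvPolynomial σ ℚ) (c : ℝ) (T : ℕ), 0 < c →
      (∀ᶠ k in U, ‖MvPolynomial.aeval (z k) P‖ ≤ c * ρ k ^ T) → N P ≤ θ ^ T := by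
    intro P c T hc h
    have h1 := (hc1 c hc).mul_const (θ ^ T)
    rw [one_mul] at h1
    refine le_of_tendsto_of_tendsto (hN P) h1 ?_
    filter_upwards [h] with k hk
    rw [← hρε k T, ← Real.mul_rpow hc.le (pow_pos (hρ0 k) T).le]
    exact Real.rpow_le_rpow (norm_nonneg _) hk (hε0 k).le
  have hlow : ∀ (P : MvPolynomial σ ℚ) (c : ℝ) (T : ℕ), 0 < c →
      (∀ᶠ k in U, ρ k ^ T ≤ c * ‖MvPolynomial.aeval (z k) P‖) → θ ^ T ≤ N P := by
    intro P c T hc h
    have h1 := (hc1 c hc).mul (hN P)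
    rw [one_mul] at h1
    refine ge_of_tendsto h1 ?_
    filter_upwards [h] with k hk
    rw [← hρε k T, ← Real.mul_rpow hc.le (norm_nonneg _)]
    exact Real.rpow_le_rpow (pow_pos (hρ0 k) T).le hk (hε0 k).le
  have hz : ∀ P, (∀ᶠ k in U, MvPolynomial.aeval (z k) P = 0) → N P = 0 := by
    intro P h
    refine tendsto_nhds_unique (hN P) (tendsto_const_nhds.congr' ?_)
    filter_upwards [h] with k hk
    simp only [f, hk, norm_zero]
    exact (Real.zero_rpow (hε0 k).ne').symm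
  let E := 2 * C0 * (Fintype.card σ + 1) * N0 ^ Fintype.card σ
  have hliou : ∀ P, (¬ ∀ᶠ k in U, MvPolynomial.aeval (z k) P = 0) →
      θ ^ (E * P.totalDegree) ≤ N P := by
    intro P h
    obtain ⟨c, hc, hP⟩ := tame_aeval P
    refine hlow P ((c * c) ^ N0 ^ Fintype.card σ) _ (by positivity) ?_
    filter_upwards [Ultrafilter.eventually_not.2 h] with k hk
    have hB : 1 ≤ (ρ k)⁻¹ ^ C0 := one_le_pow₀ ((one_le_inv₀ (hρ0 k)).2 (by linarith [hρ1 k]))
    have h1 := (hP (F k) N0 _ (z k) hB (ht k)).liouville (hF k) hk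
    have h2 := mul_le_mul_of_nonneg_left h1 (pow_pos (hρ0 k) (E * P.totalDegree)).le
    rw [mul_one] at h2
    refine h2.trans (le_of_eq ?_)
    have h3 := (hρ0 k).ne'
    rw [← mul_assoc]
    congr 1
    simp only [mul_pow, ← pow_mul, inv_pow, E]
    field_simp
    ring
  refine ⟨{
    N := N, θ := θ, κ := θ ^ E
    nonneg := fun P => ge_of_tendsto' (hN P) (hf0 P)
    zero := hz 0 (Eventually.of_forall fun k => map_zero _)
    mul := fun P Q => tendsto_nhds_unique (hN _) (((hN P).mul (hN Q)).congr fun k => ?_)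
    add := fun P Q => le_of_tendsto_of_tendsto' (hN _) ((hN P).max (hN Q)) fun k => ?_
    const := fun c hc => ?_
    var := fun s => ?_
    θ_nonneg := hθ0.le
    θ_lt := hθ1
    κ_pos := by positivity
    κ_le := pow_le_one₀ hθ0.le hθ1.le
    liou := fun P hP => ?_ }, fun P => ⟨fun h => ?_, hz P⟩, hup⟩
  · simp only [f, map_mul, norm_mul]
    exact (Real.mul_rpow (norm_nonneg _) (norm_nonneg _)).symm
  · simp only [f, map_add]
    have := IsUltrametricDist.norm_add_le_max (MvPolynomial.aeval (z k) P)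
      (MvPolynomial.aeval (z k) Q)
    rcases le_max_iff.1 this with h | h
    · exact le_max_of_le_left (Real.rpow_le_rpow (norm_nonneg _) h (hε0 k).le)
    · exact le_max_of_le_right (Real.rpow_le_rpow (norm_nonneg _) h (hε0 k).le)
  · obtain ⟨B, hB⟩ := tame_rat c
    have hB1 := (hB (F 0)).one_le
    apply le_antisymm
    · have := hup (MvPolynomial.C c) B 0 (by linarith) (Eventually.of_forall fun k => by
        rw [MvPolynomial.aeval_C, pow_zero, mul_one]; exact (hB _).norm_le (hF k))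
      simpa using this
    · have := hlow (MvPolynomial.C c) ((B * B) ^ 1) 0 (by positivity)
        (Eventually.of_forall fun k => by
          rw [MvPolynomial.aeval_C, pow_zero]
          exact (hB _).liouville (hF k) ((map_ne_zero _).2 hc))
      simpa using this
  · have := hup (MvPolynomial.X s) 1 1 one_pos (Eventually.of_forall fun k => by
      simpa using hn k s)
    simpa using this
  · refine le_trans ?_ (hliou P fun h => hP (hz P h))
    rw [← pow_mul]
    exact pow_le_pow_of_le_one hθ0.le hθ1.le (by nlinarith)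
  · by_contra h'
    have := hliou P h'
    change N P = 0 at h
    rw [h] at this
    exact absurd this (not_le.2 (by positivity))

theorem seq_indep (hF : ∀ k, ∀ n : ℤ, n ≠ 0 → 1 ≤ |(n : ℝ)| * ‖(n : F k)‖) {ρ : ℕ → ℝ}
    (hρ0 : ∀ k, 0 < ρ k) (hρ1 : ∀ k, ρ k ≤ 1 / 2) (hρ : Tendsto ρ U (𝓝 0))
    (z : ∀ k, σ → F k) {N0 C0 : ℕ} (ht : ∀ k s, Tame N0 ((ρ k)⁻¹ ^ C0) (z k s))
    (hn : ∀ k s, ‖z k s‖ ≤ ρ k) {I : Type} [Fintype I] (e : I → σ) (w : ∀ k, I → F k)
    (hw : ∀ k i, HasSum (fun n : ℕ => (-1 : F k) ^ n * z k (e i) ^ (n + 1) / ((n : F k) + 1))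
      (w k i))
    (hind : ∀ a b : I → ℕ, a ≠ b →
      ¬ ∀ᶠ k in U, ∏ i, (1 + z k (e i)) ^ a i = ∏ i, (1 + z k (e i)) ^ b i)
    (G : MvPolynomial I (MvPolynomial σ ℚ))
    (hG : ∀ᶠ k in U, MvPolynomial.eval₂ (MvPolynomial.aeval (z k)).toRingHom (w k) G = 0) :
    ∀ᶠ k in U, MvPolynomial.map (MvPolynomial.aeval (z k)).toRingHom G = 0 := by
  obtain ⟨S, h1, h2⟩ := exists_SN U hF hρ0 hρ1 hρ z ht hn
  have hz1 : ∀ k s, ‖z k s‖ ≤ 1 := fun k s => (hn k s).trans (by linarith [hρ1 k])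
  have key := S.indep e (fun a b hab hq => hind a b hab (by
    filter_upwards [(h1 _).1 (S.mem_qq.1 hq)] with k hk
    simpa [sub_eq_zero] using hk)) G (fun T => by
    choose c hc1 hc using fun μ => norm_aeval_le (G.coeff μ)
    have hc0 : 0 ≤ ∑ μ ∈ G.support, c μ := Finset.sum_nonneg fun μ _ => by linarith [hc1 μ]
    refine h2 _ ((∑ μ ∈ G.support, c μ + 1) * (T + 1)) T (by positivity) ?_
    filter_upwards [hG] with k hk
    have e1 : MvPolynomial.aeval (z k) (MvPolynomial.eval (fun i => lp T (e i)) G) =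
        MvPolynomial.eval₂ (MvPolynomial.aeval (z k)).toRingHom
          (fun i => MvPolynomial.aeval (z k) (lp T (e i))) G := by
      rw [← MvPolynomial.eval₂_id]
      exact MvPolynomial.eval₂_comp_left (MvPolynomial.aeval (z k)).toRingHom _ _ G
    have e2 : ∀ i, MvPolynomial.aeval (z k) (lp T (e i)) =
        ∑ n ∈ Finset.range T, (-1 : F k) ^ n * z k (e i) ^ (n + 1) / ((n : F k) + 1) := by
      intro i
      simp only [lp, map_sum, map_mul, MvPolynomial.aeval_C, map_pow, MvPolynomial.aeval_X,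
        map_div₀, map_neg, map_one, map_add, map_natCast]
      exact Finset.sum_congr rfl fun n _ => by ring
    have hr0 := hρ0 k
    have hr1 := hρ1 k
    have ht1 : ∀ i, ‖w k i - MvPolynomial.aeval (z k) (lp T (e i))‖ ≤ (T + 1) * ρ k ^ T := by
      intro i
      rw [e2]
      refine (log_tail (hF k) (hn k _) (hρ1 k) (hw k i) T).trans ?_
      have := pow_le_pow_of_le_one hr0.le (by linarith) (Nat.le_succ T)
      exact mul_le_mul_of_nonneg_left this (by positivity)
    have hw1 : ∀ i, ‖w k i‖ ≤ 1 := by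
      intro i
      have := log_tail (hF k) (hn k _) (hρ1 k) (hw k i) 0
      simp at this
      linarith
    have hs : (T + 1) * ρ k ^ T ≤ 1 := by
      have a : ρ k ^ T ≤ (1 / 2) ^ T := pow_le_pow_left₀ hr0.le hr1 T
      have b : ((T + 1 : ℕ) : ℝ) ≤ ((2 ^ T : ℕ) : ℝ) := by exact_mod_cast Nat.lt_two_pow_self
      push_cast at b
      calc (T + 1) * ρ k ^ T ≤ 2 ^ T * (1 / 2) ^ T := mul_le_mul b a (by positivity) (by positivity)
        _ = 1 := by rw [← mul_pow]; norm_num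
    have hl1 : ∀ i, ‖MvPolynomial.aeval (z k) (lp T (e i))‖ ≤ 1 := by
      intro i
      have e3 : MvPolynomial.aeval (z k) (lp T (e i)) =
          w k i + -(w k i - MvPolynomial.aeval (z k) (lp T (e i))) := by ring
      rw [e3]
      refine (IsUltrametricDist.norm_add_le_max _ _).trans (max_le (hw1 i) ?_)
      rw [norm_neg]
      exact (ht1 i).trans hs
    have h3 := norm_eval₂_sub_le (MvPolynomial.aeval (z k)).toRingHom
      (c := ∑ μ ∈ G.support, c μ + 1) (by positivity)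
      (by positivity) hw1 hl1 ht1 G fun μ hμ =>
        (hc μ _ (hF k) _ (hz1 k)).trans ((Finset.single_le_sum
          (f := c) (fun μ _ => by linarith [hc1 μ]) hμ).trans (by linarith))
    rw [hk, zero_sub, norm_neg, ← e1, ← mul_assoc] at h3
    exact h3)
  have h4 : ∀ᶠ k in U, ∀ μ ∈ G.support, MvPolynomial.aeval (z k) (G.coeff μ) = 0 :=
    (Filter.eventually_all_finset _).2 fun μ _ => (h1 _).1 (S.mem_qq.1 (key μ))
  filter_upwards [h4] with k hk
  ext μ
  rw [MvPolynomial.coeff_map, MvPolynomial.coeff_zero]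
  by_cases hμ : μ ∈ G.support
  · exact hk μ hμ
  · rw [MvPolynomial.notMem_support_iff.1 hμ, map_zero]

end seq

end Pool.Agent.Work.MP_dd0d16_nt
end
end

-- merged part: Pool.Agent.Work.MP_dd0d16_nt.PAdic
section
-- merged part: Pool.Agent.Work.MP_dd0d16_nt.Four
section
/-!
The two by two determinant along a sequence of small algebraic points.
-/

set_option autoImplicit false

namespace Pool.Agent.Work.MP_dd0d16_nt

open Filter Topology

section forms
variable {K O : Type} [Field K] [Fintype O]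

theorem dot_mul_zero {b c : O → K} (h : ∀ v, (b ⬝ᵥ v) * (c ⬝ᵥ v) = 0) : b = 0 ∨ c = 0 := by
  classical
  by_contra hh
  push Not at hh
  obtain ⟨i, hi⟩ := Function.ne_iff.1 hh.1
  obtain ⟨j, hj⟩ := Function.ne_iff.1 hh.2
  have h1 := h (Pi.single i 1)
  have h2 := h (Pi.single j 1)
  have h3 := h (Pi.single i 1 + Pi.single j 1)
  simp only [dotProduct_add, dotProduct_single, mul_one, Pi.zero_apply] at h1 h2 h3 hi hj
  have h4 : c i = 0 := (mul_eq_zero.1 h1).resolve_left hi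
  have h5 : b j = 0 := (mul_eq_zero.1 h2).resolve_right hj
  rw [h4, h5, add_zero, zero_add] at h3
  exact mul_ne_zero hi hj h3

theorem forms_hom {a b c d : O → K} (h : ∀ v, (a ⬝ᵥ v) * (d ⬝ᵥ v) = (b ⬝ᵥ v) * (c ⬝ᵥ v)) :
    (∃ l m : K, ¬(l = 0 ∧ m = 0) ∧ l • a + m • c = 0 ∧ l • b + m • d = 0) ∨
    (∃ l m : K, ¬(l = 0 ∧ m = 0) ∧ l • a + m • b = 0 ∧ l • c + m • d = 0) := by
  classical
  by_cases ha : a = 0
  · rcases dot_mul_zero (b := b) (c := c) (fun v => by rw [← h, ha]; simp) with hb | hc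
    · exact Or.inl ⟨1, 0, by simp, by simp [ha], by simp [hb]⟩
    · exact Or.inr ⟨1, 0, by simp, by simp [ha], by simp [hc]⟩
  obtain ⟨o, ho⟩ := Function.ne_iff.1 ha
  have ho' : a o ≠ 0 := ho
  have key := dot_mul_zero (b := b - (b o / a o) • a) (c := c - (c o / a o) • a) fun v => by
    have h1 := h (v - (a ⬝ᵥ v / a o) • Pi.single o 1)
    simp only [dotProduct_sub, dotProduct_smul, dotProduct_single, sub_dotProduct, smul_dotProduct,
      smul_eq_mul, mul_one] at h1 ⊢
    rw [div_mul_cancel₀ _ ho', sub_self, zero_mul] at h1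
    rw [h1]; ring
  rcases key with hb | hc
  · rw [sub_eq_zero] at hb
    have := dot_mul_zero (b := a) (c := d - (b o / a o) • c) fun v => by
      have h1 := h v
      have h2 : b ⬝ᵥ v = b o / a o * (a ⬝ᵥ v) := by
        conv_lhs => rw [hb]
        simp
      rw [h2] at h1
      simp only [sub_dotProduct, smul_dotProduct, smul_eq_mul]
      linear_combination h1
    refine Or.inr ⟨b o / a o, -1, by simp, ?_, ?_⟩
    · rw [← hb]; simp
    · rw [sub_eq_zero.1 (this.resolve_left ha)]; simp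
  · rw [sub_eq_zero] at hc
    have := dot_mul_zero (b := a) (c := d - (c o / a o) • b) fun v => by
      have h1 := h v
      have h2 : c ⬝ᵥ v = c o / a o * (a ⬝ᵥ v) := by
        conv_lhs => rw [hc]
        simp
      rw [h2] at h1
      simp only [sub_dotProduct, smul_dotProduct, smul_eq_mul]
      linear_combination h1
    refine Or.inl ⟨c o / a o, -1, by simp, ?_, ?_⟩
    · rw [← hc]; simp
    · rw [sub_eq_zero.1 (this.resolve_left ha)]; simp

theorem forms_aff [CharZero K] {a b c d : Option O → K}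
    (h : ∀ x : O → K, (a none + ∑ i, a (some i) * x i) * (d none + ∑ i, d (some i) * x i) =
      (b none + ∑ i, b (some i) * x i) * (c none + ∑ i, c (some i) * x i)) (v : Option O → K) :
    (a ⬝ᵥ v) * (d ⬝ᵥ v) = (b ⬝ᵥ v) * (c ⬝ᵥ v) := by
  have h1 : ∀ t : K, t ≠ 0 → ∀ x : O → K,
      (a none * t + ∑ i, a (some i) * x i) * (d none * t + ∑ i, d (some i) * x i) =
      (b none * t + ∑ i, b (some i) * x i) * (c none * t + ∑ i, c (some i) * x i) := by
    intro t ht x
    have h2 := h fun i => t⁻¹ * x i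
    have e : ∀ f : Option O → K, f none * t + ∑ i, f (some i) * x i =
        t * (f none + ∑ i, f (some i) * (t⁻¹ * x i)) := by
      intro f
      rw [mul_add, Finset.mul_sum, mul_comm]
      congr 1
      exact Finset.sum_congr rfl fun i _ => by field_simp
    rw [e a, e b, e c, e d]
    linear_combination t ^ 2 * h2
  simp only [dotProduct, Fintype.sum_option]
  by_cases hv : v none = 0
  · have t1 := h1 1 one_ne_zero fun i => v (some i)
    have t2 := h1 2 two_ne_zero fun i => v (some i)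
    have t3 := h1 3 three_ne_zero fun i => v (some i)
    rw [hv]
    linear_combination 3 * t1 - 3 * t2 + t3
  · exact h1 _ hv _

end forms

/-- The rows or the columns are linearly dependent over the algebraic numbers. -/
def Dep {F : Type} [Field F] [Algebra ℚ F] (M : Fin 2 → Fin 2 → F) : Prop :=
  (∃ a b : F, IsAlgebraic ℚ a ∧ IsAlgebraic ℚ b ∧ (∀ j, a * M 0 j + b * M 1 j = 0) ∧
    ¬(a = 0 ∧ b = 0)) ∨
  (∃ a b : F, IsAlgebraic ℚ a ∧ IsAlgebraic ℚ b ∧ (∀ i, a * M i 0 + b * M i 1 = 0) ∧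
    ¬(a = 0 ∧ b = 0))

theorem dep_of_forms {F O : Type} [Field F] [Algebra ℚ F] [Fintype O]
    (A : Fin 2 → Fin 2 → F) (B : Fin 2 → Fin 2 → O → F) (hA : ∀ i j, IsAlgebraic ℚ (A i j))
    (hB : ∀ i j l, IsAlgebraic ℚ (B i j l))
    (h : ∀ x : O → F, (A 0 0 + ∑ l, B 0 0 l * x l) * (A 1 1 + ∑ l, B 1 1 l * x l) =
      (A 0 1 + ∑ l, B 0 1 l * x l) * (A 1 0 + ∑ l, B 1 0 l * x l)) (w : O → F) :
    Dep fun i j => A i j + ∑ l, B i j l * w l := by
  let K := algebraicClosure ℚ F
  let f : Fin 2 → Fin 2 → Option O → K := fun i j o =>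
    match o with
    | none => ⟨A i j, mem_algebraicClosure_iff.2 (hA i j)⟩
    | some l => ⟨B i j l, mem_algebraicClosure_iff.2 (hB i j l)⟩
  have h1 := forms_hom (forms_aff (a := f 0 0) (b := f 0 1) (c := f 1 0) (d := f 1 1) fun x => by
    apply Subtype.val_injective
    push_cast
    exact h fun l => x l)
  have key : ∀ (l m : K) (i j i' j' : Fin 2), l • f i j + m • f i' j' = 0 →
      (l : F) * (A i j + ∑ o, B i j o * w o) + m * (A i' j' + ∑ o, B i' j' o * w o) = 0 := by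
    intro l m i j i' j' h2
    have h3 : ∀ o, (l : F) * f i j o + m * f i' j' o = 0 := fun o => by
      have := congrArg Subtype.val (congrFun h2 o)
      simpa using this
    have h4 : (l : F) * A i j + m * A i' j' = 0 := h3 none
    have h5 : ∑ o, ((l : F) * B i j o + m * B i' j' o) * w o = 0 :=
      Finset.sum_eq_zero fun o _ => mul_eq_zero_of_left (h3 (some o)) _
    simp only [add_mul, Finset.sum_add_distrib, mul_assoc, ← Finset.mul_sum] at h5
    linear_combination h4 + h5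
  have hne : ∀ l m : K, ¬(l = 0 ∧ m = 0) → ¬((l : F) = 0 ∧ (m : F) = 0) := fun l m h => by
    simpa using h
  rcases h1 with ⟨l, m, h0, h2, h3⟩ | ⟨l, m, h0, h2, h3⟩
  · exact Or.inl ⟨l, m, mem_algebraicClosure_iff.1 l.2, mem_algebraicClosure_iff.1 m.2,
      Fin.forall_fin_two.2 ⟨key _ _ _ _ _ _ h2, key _ _ _ _ _ _ h3⟩, hne l m h0⟩
  · exact Or.inr ⟨l, m, mem_algebraicClosure_iff.1 l.2, mem_algebraicClosure_iff.1 m.2,
      Fin.forall_fin_two.2 ⟨key _ _ _ _ _ _ h2, key _ _ _ _ _ _ h3⟩, hne l m h0⟩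

section seq
variable (U : Ultrafilter ℕ) {F : ℕ → Type} [∀ k, NormedField (F k)] [∀ k, Algebra ℚ (F k)]
  [∀ k, IsUltrametricDist (F k)] {σ : Type} [Fintype σ]

theorem seq_four (hF : ∀ k, ∀ n : ℤ, n ≠ 0 → 1 ≤ |(n : ℝ)| * ‖(n : F k)‖) {ρ : ℕ → ℝ}
    (hρ0 : ∀ k, 0 < ρ k) (hρ1 : ∀ k, ρ k ≤ 1 / 2) (hρ : Tendsto ρ U (𝓝 0))
    (z : ∀ k, σ → F k) {N0 C0 : ℕ} (ht : ∀ k s, Tame N0 ((ρ k)⁻¹ ^ C0) (z k s))
    (hn : ∀ k s, ‖z k s‖ ≤ ρ k) {I : Type} (e : I → σ) (w : ∀ k, I → F k)
    (hw : ∀ k i, HasSum (fun n : ℕ => (-1 : F k) ^ n * z k (e i) ^ (n + 1) / ((n : F k) + 1))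
      (w k i))
    (hrel : ∀ k (s : Finset I) (a b : I → ℕ), ∏ i ∈ s, (1 + z k (e i)) ^ a i =
      ∏ i ∈ s, (1 + z k (e i)) ^ b i → ∑ i ∈ s, a i * w k i = ∑ i ∈ s, b i * w k i)
    (A : Fin 2 → Fin 2 → MvPolynomial σ ℚ) (s : Finset I) :
    ∀ (B : Fin 2 → Fin 2 → I → MvPolynomial σ ℚ) (M : ∀ k, Fin 2 → Fin 2 → F k),
      (∀ᶠ k in U, ∀ i j, M k i j = MvPolynomial.aeval (z k) (A i j) +
        ∑ l ∈ s, MvPolynomial.aeval (z k) (B i j l) * w k l) →
      (∀ᶠ k in U, M k 0 0 * M k 1 1 = M k 0 1 * M k 1 0) → ∀ᶠ k in U, Dep (M k) := by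
  classical
  induction s using Finset.strongInduction with
  | H s ih =>
  intro B M hM hdet
  by_cases hind : ∀ a b : s → ℕ, a ≠ b →
      ¬ ∀ᶠ k in U, ∏ i : s, (1 + z k (e i)) ^ a i = ∏ i : s, (1 + z k (e i)) ^ b i
  · let l : Fin 2 → Fin 2 → MvPolynomial s (MvPolynomial σ ℚ) := fun i j =>
      MvPolynomial.C (A i j) + ∑ o : s, MvPolynomial.C (B i j o) * MvPolynomial.X o
    have hl : ∀ k (x : s → F k) i j,
        MvPolynomial.eval₂ (MvPolynomial.aeval (z k)).toRingHom x (l i j) =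
        MvPolynomial.aeval (z k) (A i j) + ∑ o : s, MvPolynomial.aeval (z k) (B i j o) * x o := by
      intro k x i j
      simp [l, MvPolynomial.eval₂_add, MvPolynomial.eval₂_sum, MvPolynomial.eval₂_mul]
    have h1 := seq_indep U hF hρ0 hρ1 hρ z ht hn (fun i : s => e i) (fun k i => w k i)
      (fun k i => hw k i) hind (l 0 0 * l 1 1 - l 0 1 * l 1 0) (by
        filter_upwards [hM, hdet] with k h1 h2
        rw [MvPolynomial.eval₂_sub, MvPolynomial.eval₂_mul, MvPolynomial.eval₂_mul, sub_eq_zero]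
        have e0 : ∀ i j, ∑ o : s, MvPolynomial.aeval (z k) (B i j o) * w k o =
            ∑ o ∈ s, MvPolynomial.aeval (z k) (B i j o) * w k o := fun i j =>
          Finset.sum_coe_sort s fun o => MvPolynomial.aeval (z k) (B i j o) * w k o
        simp only [hl, e0, ← h1]
        exact h2)
    filter_upwards [h1, hM] with k h2 h3
    have halg : ∀ P : MvPolynomial σ ℚ, IsAlgebraic ℚ (MvPolynomial.aeval (z k) P) := by
      intro P
      obtain ⟨c, -, hc⟩ := tame_aeval P
      exact (hc (F k) N0 _ (z k)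
        (one_le_pow₀ ((one_le_inv₀ (hρ0 k)).2 (by linarith [hρ1 k]))) (ht k)).isAlgebraic
    have h4 := dep_of_forms (fun i j => MvPolynomial.aeval (z k) (A i j))
      (fun i j (o : s) => MvPolynomial.aeval (z k) (B i j o)) (fun _ _ => halg _)
      (fun _ _ _ => halg _) (fun x => by
        have := congrArg (MvPolynomial.eval x) h2
        rw [MvPolynomial.eval_map, map_zero, MvPolynomial.eval₂_sub, MvPolynomial.eval₂_mul,
          MvPolynomial.eval₂_mul, sub_eq_zero] at this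
        simpa only [hl] using this) fun o => w k o
    have e1 : M k = fun i j => MvPolynomial.aeval (z k) (A i j) +
        ∑ o : s, MvPolynomial.aeval (z k) (B i j o) * w k o := by
      funext i j
      rw [h3, Finset.sum_coe_sort s fun o => MvPolynomial.aeval (z k) (B i j o) * w k o]
    rw [e1]
    exact h4
  · push Not at hind
    obtain ⟨a, b, hab, hev⟩ := hind
    obtain ⟨o, ho⟩ := Function.ne_iff.1 hab
    let a' : I → ℕ := fun i => if h : i ∈ s then a ⟨i, h⟩ else 0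
    let b' : I → ℕ := fun i => if h : i ∈ s then b ⟨i, h⟩ else 0
    have ha' : ∀ i : s, a' i = a i := fun i => dif_pos i.2
    have hb' : ∀ i : s, b' i = b i := fun i => dif_pos i.2
    have hq : ((a' o : ℚ) - b' o) ≠ 0 := by
      rw [ha', hb', sub_ne_zero]; exact_mod_cast ho
    refine ih (s.erase o) (Finset.erase_ssubset o.2)
      (fun i j l => B i j l - MvPolynomial.C (((a' l : ℚ) - b' l) / ((a' o : ℚ) - b' o)) * B i j o)
      M ?_ hdet
    filter_upwards [hM, hev] with k h1 h2 i j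
    have h3 := hrel k s a' b' (by
      rw [← Finset.prod_coe_sort s, ← Finset.prod_coe_sort s]
      simpa only [ha', hb'] using h2)
    have hq' : ((a' o : F k) - b' o) ≠ 0 := by
      have := (map_ne_zero (algebraMap ℚ (F k))).2 hq
      rwa [map_sub, map_natCast, map_natCast] at this
    rw [← Finset.add_sum_erase s _ o.2, ← Finset.add_sum_erase s _ o.2] at h3
    rw [h1, ← Finset.add_sum_erase s _ o.2]
    congr 1
    simp only [map_sub, map_mul, MvPolynomial.aeval_C, map_div₀, map_natCast, sub_mul,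
      Finset.sum_sub_distrib]
    have e2 : ∑ x ∈ s.erase o, ((a' x : F k) - b' x) / (a' o - b' o) *
        MvPolynomial.aeval (z k) (B i j o) * w k x =
        MvPolynomial.aeval (z k) (B i j o) / (a' o - b' o) *
          (∑ x ∈ s.erase o, a' x * w k x - ∑ x ∈ s.erase o, b' x * w k x) := by
      rw [← Finset.sum_sub_distrib, Finset.mul_sum]
      exact Finset.sum_congr rfl fun x _ => by ring
    have e3 : ∑ x ∈ s.erase o, (a' x : F k) * w k x - ∑ x ∈ s.erase o, b' x * w k x =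
        -((a' o - b' o) * w k o) := by linear_combination h3
    rw [e2, e3]
    field_simp
    ring

end seq

end Pool.Agent.Work.MP_dd0d16_nt
end

-- merged part: Pool.Agent.Work.MP_dd0d16_nt.Finite
section
/-!
Uniform finite statements, by compactness.
-/

set_option autoImplicit false

namespace Pool.Agent.Work.MP_dd0d16_nt

open Filter Topology

section one
variable {F : Type} [NormedField F]

/-- The two properties of the logarithm that are used. -/
def IsLogF (L : F → F) : Prop :=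
  (∀ x y : F, x ≠ 0 → y ≠ 0 → L (x * y) = L x + L y) ∧
  ∀ z : F, ‖z‖ < 1 → HasSum (fun n : ℕ => (-1 : F) ^ n * z ^ (n + 1) / ((n : F) + 1)) (L (1 + z))

namespace IsLogF
variable {L : F → F} (h : IsLogF L)
include h

theorem one : L 1 = 0 := by simpa using h.1 1 1 one_ne_zero one_ne_zero

theorem pow {x : F} (hx : x ≠ 0) (n : ℕ) : L (x ^ n) = n * L x := by
  induction n with
  | zero => simp [h.one]
  | succ n ih => rw [pow_succ, h.1 _ _ (pow_ne_zero n hx) hx, ih]; push_cast; ring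

theorem prod {I : Type} (s : Finset I) {x : I → F} (hx : ∀ i, x i ≠ 0) :
    L (∏ i ∈ s, x i) = ∑ i ∈ s, L (x i) := by
  classical
  induction s using Finset.induction_on with
  | empty => simp [h.one]
  | insert i s hi ih =>
    rw [Finset.prod_insert hi, Finset.sum_insert hi,
      h.1 _ _ (hx i) (Finset.prod_ne_zero_iff.2 fun j _ => hx j), ih]

theorem rel {I : Type} (s : Finset I) {x : I → F} (hx : ∀ i, x i ≠ 0) (a b : I → ℕ)
    (e : ∏ i ∈ s, x i ^ a i = ∏ i ∈ s, x i ^ b i) :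
    ∑ i ∈ s, a i * L (x i) = ∑ i ∈ s, b i * L (x i) := by
  have := congrArg L e
  rw [h.prod s fun i => pow_ne_zero _ (hx i), h.prod s fun i => pow_ne_zero _ (hx i)] at this
  simpa only [h.pow (hx _)] using this

end IsLogF

theorem ne_zero_of_close {x : F} (h : ‖x - 1‖ ≤ 1 / 2) : x ≠ 0 := by
  rintro rfl
  norm_num at h

variable [Algebra ℚ F]

theorem tame_sub_one {N : ℕ} {B : ℝ} {x : F} (h : Tame N B x) : Tame N (2 * B) (x - 1) := by
  have := h.add (Tame.rat (F := F) (-1) (B := 1) (by simp) (by simp))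
  simpa [sub_eq_add_neg] using this

theorem tame_sub_one' {N C : ℕ} {ρ : ℝ} (h0 : 0 < ρ) (h1 : ρ ≤ 1 / 2) {x : F}
    (h : Tame N (ρ⁻¹ ^ C) x) : Tame (N * N + N) (ρ⁻¹ ^ (C * (C + 2) + C + 1)) (x - 1) := by
  have h2 : 2 ≤ ρ⁻¹ := by rw [le_inv_comm₀ two_pos h0]; linarith
  refine (tame_sub_one h).mono (Nat.le_add_left _ _) ?_
  calc 2 * ρ⁻¹ ^ C ≤ ρ⁻¹ * ρ⁻¹ ^ C := by gcongr
    _ = ρ⁻¹ ^ (C + 1) := by ring
    _ ≤ _ := pow_le_pow_right₀ (by linarith) (by omega)

theorem tame_scale [IsUltrametricDist F] (hF : ∀ n : ℤ, n ≠ 0 → 1 ≤ |(n : ℝ)| * ‖(n : F)‖)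
    {N C : ℕ} {π a : F} (h0 : 0 < ‖π‖) (h1 : ‖π‖ ≤ 1 / 2) (hπ : Tame N (‖π‖⁻¹ ^ C) π)
    (h : Tame N (‖π‖⁻¹ ^ C) a) :
    Tame (N * N + N) (‖π‖⁻¹ ^ (C * (C + 2) + C + 1)) (π ^ (C + 1) * a) ∧
      ‖π ^ (C + 1) * a‖ ≤ ‖π‖ := by
  have h2 : 2 ≤ ‖π‖⁻¹ := by rw [le_inv_comm₀ two_pos h0]; linarith
  constructor
  · refine ((hπ.pow (C + 1)).mul h).mono (Nat.le_add_right _ _) ?_
    rw [← pow_mul, ← pow_add]
    exact pow_le_pow_right₀ (by linarith) (by nlinarith)
  · rw [norm_mul, norm_pow]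
    calc ‖π‖ ^ (C + 1) * ‖a‖ ≤ ‖π‖ ^ (C + 1) * ‖π‖⁻¹ ^ C := by gcongr; exact h.norm_le hF
      _ = ‖π‖ := by rw [inv_pow]; field_simp; ring

theorem Dep.of_smul {M : Fin 2 → Fin 2 → F} {t : F} (ht : t ≠ 0)
    (h : Dep fun i j => t * M i j) : Dep M := by
  rcases h with ⟨a, b, h1, h2, h3, h4⟩ | ⟨a, b, h1, h2, h3, h4⟩
  · exact Or.inl ⟨a, b, h1, h2, fun j => mul_left_cancel₀ ht (by linear_combination h3 j), h4⟩
  · exact Or.inr ⟨a, b, h1, h2, fun j => mul_left_cancel₀ ht (by linear_combination h3 j), h4⟩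

/-- The four exponentials conclusion for coefficients of crude height given by `N` and `B`. -/
def Good4 (N : ℕ) (B : ℝ) {n : ℕ} (w : Fin n → F) : Prop :=
  ∀ (a : Fin 2 → Fin 2 → F) (c : Fin 2 → Fin 2 → Fin n → F), (∀ i j, Tame N B (a i j)) →
    (∀ i j l, Tame N B (c i j l)) →
    (a 0 0 + ∑ l, c 0 0 l * w l) * (a 1 1 + ∑ l, c 1 1 l * w l) =
      (a 0 1 + ∑ l, c 0 1 l * w l) * (a 1 0 + ∑ l, c 1 0 l * w l) →
    Dep fun i j => a i j + ∑ l, c i j l * w l

/-- The algebraic independence conclusion for coefficients of crude height given by `N` and `B`. -/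
def GoodI (d N : ℕ) (B : ℝ) {n : ℕ} (w : Fin n → F) : Prop :=
  LinearIndependent ℚ w → ∀ c : (Fin n → Fin (d + 1)) → F, (∀ μ, Tame N B (c μ)) →
    ∑ μ, c μ * ∏ l, w l ^ (μ l : ℕ) = 0 → c = 0

end one

theorem tendsto_aux {ρ : ℕ → ℝ} (h0 : ∀ k, 0 < ρ k) (h : ∀ k : ℕ, ρ k ≤ 1 / ((k : ℝ) + 2)) :
    (∀ k, ρ k ≤ 1 / 2) ∧ Tendsto ρ (hyperfilter ℕ) (𝓝 0) := by
  refine ⟨fun k => (h k).trans ?_, ?_⟩
  · exact one_div_le_one_div_of_le two_pos (by linarith [Nat.cast_nonneg (α := ℝ) k])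
  · refine Tendsto.mono_left ?_ Nat.hyperfilter_le_atTop
    refine squeeze_zero (fun k => (h0 k).le) (fun k => (h k).trans ?_)
      tendsto_one_div_add_atTop_nhds_zero_nat
    exact one_div_le_one_div_of_le (by positivity) (by linarith)

theorem finite_four (n N C : ℕ) : ∃ η : ℝ, 0 < η ∧ ∀ (F : Type) [NormedField F] [Algebra ℚ F]
    [IsUltrametricDist F], (∀ n : ℤ, n ≠ 0 → 1 ≤ |(n : ℝ)| * ‖(n : F)‖) → ∀ L : F → F, IsLogF L →
    ∀ (π : F) (x : Fin n → F), 0 < ‖π‖ → ‖π‖ ≤ η → Tame N (‖π‖⁻¹ ^ C) π →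
      (∀ i, Tame N (‖π‖⁻¹ ^ C) (x i)) → (∀ i, ‖x i - 1‖ ≤ ‖π‖) →
      Good4 N (‖π‖⁻¹ ^ C) fun i => L (x i) := by
  by_contra hcon
  have h := fun k : ℕ => not_and.1 (not_exists.1 hcon (1 / ((k : ℝ) + 2))) (by positivity)
  simp only [Good4, not_forall] at h
  choose F i1 i2 i3 hF L hL π x h0 h1 hπ hx hx1 a c ha hc hdet hdep using h
  obtain ⟨hρ1, hρ⟩ := tendsto_aux h0 h1
  let z : ∀ k, Fin n ⊕ (Fin 2 × Fin 2 × Option (Fin n)) → F k := fun k s =>
    match s with
    | Sum.inl i => x k i - 1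
    | Sum.inr (i, j, none) => π k ^ (C + 1) * a k i j
    | Sum.inr (i, j, some l) => π k ^ (C + 1) * c k i j l
  have hx0 : ∀ k i, x k i ≠ 0 := fun k i => ne_zero_of_close ((hx1 k i).trans (hρ1 k))
  have key := seq_four (hyperfilter ℕ) hF h0 hρ1 hρ z (N0 := N * N + N)
    (C0 := C * (C + 2) + C + 1)
    (fun k s => by
      rcases s with i | ⟨i, j, _ | l⟩
      · exact tame_sub_one' (h0 k) (hρ1 k) (hx k i)
      · exact (tame_scale (hF k) (h0 k) (hρ1 k) (hπ k) (ha k i j)).1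
      · exact (tame_scale (hF k) (h0 k) (hρ1 k) (hπ k) (hc k i j l)).1)
    (fun k s => by
      rcases s with i | ⟨i, j, _ | l⟩
      · exact hx1 k i
      · exact (tame_scale (hF k) (h0 k) (hρ1 k) (hπ k) (ha k i j)).2
      · exact (tame_scale (hF k) (h0 k) (hρ1 k) (hπ k) (hc k i j l)).2)
    Sum.inl (fun k i => L k (x k i))
    (fun k i => by
      have := (hL k).2 (x k i - 1) (by linarith [hx1 k i, hρ1 k])
      rwa [add_sub_cancel] at this)
    (fun k s u v e => (hL k).rel s (hx0 k) u v (by simpa [z] using e))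
    (fun i j => MvPolynomial.X (Sum.inr (i, j, none))) Finset.univ
    (fun i j l => MvPolynomial.X (Sum.inr (i, j, some l)))
    (fun k i j => π k ^ (C + 1) * (a k i j + ∑ l, c k i j l * L k (x k l)))
    (Eventually.of_forall fun k i j => by
      simp only [MvPolynomial.aeval_X, z, mul_add, Finset.mul_sum, mul_assoc])
    (Eventually.of_forall fun k => by
      linear_combination (π k ^ (C + 1)) ^ 2 * hdet k)
  obtain ⟨k, hk⟩ := key.exists
  exact hdep k (Dep.of_smul (pow_ne_zero _ (norm_pos_iff.1 (h0 k))) hk)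

theorem finite_indep (n d N C : ℕ) : ∃ η : ℝ, 0 < η ∧ ∀ (F : Type) [NormedField F] [Algebra ℚ F]
    [IsUltrametricDist F], (∀ n : ℤ, n ≠ 0 → 1 ≤ |(n : ℝ)| * ‖(n : F)‖) → ∀ L : F → F, IsLogF L →
    ∀ (π : F) (x : Fin n → F), 0 < ‖π‖ → ‖π‖ ≤ η → Tame N (‖π‖⁻¹ ^ C) π →
      (∀ i, Tame N (‖π‖⁻¹ ^ C) (x i)) → (∀ i, ‖x i - 1‖ ≤ ‖π‖) →
      GoodI d N (‖π‖⁻¹ ^ C) fun i => L (x i) := by
  classical
  by_contra hcon
  have h := fun k : ℕ => not_and.1 (not_exists.1 hcon (1 / ((k : ℝ) + 2))) (by positivity)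
  simp only [GoodI, not_forall] at h
  choose F i1 i2 i3 hF L hL π x h0 h1 hπ hx hx1 hli c hc hsum hne using h
  obtain ⟨hρ1, hρ⟩ := tendsto_aux h0 h1
  let z : ∀ k, Fin n ⊕ (Fin n → Fin (d + 1)) → F k := fun k s =>
    match s with
    | Sum.inl i => x k i - 1
    | Sum.inr μ => π k ^ (C + 1) * c k μ
  have hx0 : ∀ k i, x k i ≠ 0 := fun k i => ne_zero_of_close ((hx1 k i).trans (hρ1 k))
  let ex : (Fin n → Fin (d + 1)) → (Fin n →₀ ℕ) := fun μ =>
    Finsupp.equivFunOnFinite.symm fun l => (μ l : ℕ)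
  have hex : Function.Injective ex := fun μ ν e => by
    funext l
    have := congrArg (fun t => t l) e
    exact Fin.ext (by simpa [ex] using this)
  have key := seq_indep (hyperfilter ℕ) hF h0 hρ1 hρ z (N0 := N * N + N)
    (C0 := C * (C + 2) + C + 1)
    (fun k s => by
      rcases s with i | μ
      · exact tame_sub_one' (h0 k) (hρ1 k) (hx k i)
      · exact (tame_scale (hF k) (h0 k) (hρ1 k) (hπ k) (hc k μ)).1)
    (fun k s => by
      rcases s with i | μ
      · exact hx1 k i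
      · exact (tame_scale (hF k) (h0 k) (hρ1 k) (hπ k) (hc k μ)).2)
    Sum.inl (fun k i => L k (x k i))
    (fun k i => by
      have := (hL k).2 (x k i - 1) (by linarith [hx1 k i, hρ1 k])
      rwa [add_sub_cancel] at this)
    (fun u v huv hev => by
      obtain ⟨k, e⟩ := hev.exists
      have h2 := (hL k).rel Finset.univ (hx0 k) u v (by simpa [z] using e)
      have h3 := Fintype.linearIndependent_iff.1 (hli k) (fun i => (u i : ℚ) - v i) (by
        simp only [Algebra.smul_def, map_sub, map_natCast, sub_mul, Finset.sum_sub_distrib, h2,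
          sub_self])
      exact huv (funext fun i => by exact_mod_cast sub_eq_zero.1 (h3 i)))
    (∑ μ, MvPolynomial.monomial (ex μ) (MvPolynomial.X (Sum.inr μ)))
    (Eventually.of_forall fun k => by
      rw [MvPolynomial.eval₂_sum, ← mul_zero (π k ^ (C + 1)), ← hsum k, Finset.mul_sum]
      refine Finset.sum_congr rfl fun μ _ => ?_
      rw [MvPolynomial.eval₂_monomial, Finsupp.prod_fintype _ _ (by simp)]
      simp [z, ex, mul_assoc])
  obtain ⟨k, hk⟩ := key.exists
  refine hne k (funext fun μ => ?_)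
  have := congrArg (MvPolynomial.coeff (ex μ)) hk
  rw [MvPolynomial.coeff_map, MvPolynomial.coeff_sum, Finset.sum_eq_single μ] at this
  · simp only [MvPolynomial.coeff_monomial, if_true, MvPolynomial.coeff_zero] at this
    have h2 : π k ^ (C + 1) * c k μ = 0 := by simpa [z] using this
    exact (mul_eq_zero.1 h2).resolve_left (pow_ne_zero _ (norm_pos_iff.1 (h0 k)))
  · intro ν _ hν
    rw [MvPolynomial.coeff_monomial, if_neg (hex.ne hν)]
  · simp

theorem finite_both (n d N C : ℕ) : ∃ η : ℝ, 0 < η ∧ ∀ (F : Type) [NormedField F] [Algebra ℚ F]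
    [IsUltrametricDist F], (∀ n : ℤ, n ≠ 0 → 1 ≤ |(n : ℝ)| * ‖(n : F)‖) →
    ∀ q : ℕ, 2 ≤ q → ‖(q : F)‖ = (q : ℝ)⁻¹ → ∀ L : F → F, IsLogF L →
    ∀ (B : ℝ) (x : Fin n → F), 1 ≤ B →
      (∀ i, Tame N B (x i) ∧ ‖x i - 1‖ ≤ η ∧ ‖x i - 1‖ ^ C * B ≤ 1) →
      (Good4 N B fun i => L (x i)) ∧ GoodI d N B fun i => L (x i) := by
  obtain ⟨η1, h1, H1⟩ := finite_four n (N + 1) (C + 1)
  obtain ⟨η2, h2, H2⟩ := finite_indep n d (N + 1) (C + 1)
  refine ⟨min (1 / 2) (min η1 η2), by positivity, fun F _ _ _ hF q hq hqn L hL B x hB hx => ?_⟩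
  obtain ⟨π, p0, p1, p2, p3, p4⟩ : ∃ π : F, 0 < ‖π‖ ∧ ‖π‖ ≤ min (1 / 2) (min η1 η2) ∧
      B ≤ ‖π‖⁻¹ ^ (C + 1) ∧ Tame (N + 1) (‖π‖⁻¹ ^ (C + 1)) π ∧ ∀ i, ‖x i - 1‖ ≤ ‖π‖ := by
    by_cases hall : ∀ i, x i = 1
    · have hq1 : (1 : ℝ) < q := by exact_mod_cast hq
      obtain ⟨m, hm⟩ := pow_unbounded_of_one_lt (max B (min (1 / 2) (min η1 η2))⁻¹) hq1
      have e : ‖(q : F) ^ m‖ = ((q : ℝ) ^ m)⁻¹ := by rw [norm_pow, hqn, inv_pow]
      have hqm : (1 : ℝ) ≤ q ^ m := one_le_pow₀ hq1.le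
      have hle : (q : ℝ) ^ m ≤ ((q : ℝ) ^ m) ^ (C + 1) := le_self_pow₀ hqm (Nat.succ_ne_zero C)
      refine ⟨(q : F) ^ m, by rw [e]; positivity, ?_, ?_, ?_, fun i => by simp [hall i]⟩
      · rw [e, inv_le_comm₀ (by positivity) (by positivity)]
        exact (le_max_right _ _).trans hm.le
      · rw [e, inv_inv]
        exact ((le_max_left _ _).trans hm.le).trans hle
      · rw [e, inv_inv]
        have := Tame.rat (F := F) ((q : ℚ) ^ m) (B := (q : ℝ) ^ m) (by simp) (by simpa using hqm)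
        rw [map_pow, map_natCast] at this
        exact this.mono (by omega) hle
    · push Not at hall
      obtain ⟨j, hj⟩ := hall
      obtain ⟨i, -, hi⟩ := Finset.exists_max_image Finset.univ (fun i => ‖x i - 1‖)
        ⟨j, Finset.mem_univ j⟩
      have p0 : 0 < ‖x i - 1‖ :=
        (norm_pos_iff.2 (sub_ne_zero.2 hj)).trans_le (hi j (Finset.mem_univ j))
      obtain ⟨t1, t2, t3⟩ := hx i
      have h3 : 2 ≤ ‖x i - 1‖⁻¹ := by
        rw [le_inv_comm₀ two_pos p0]; linarith [t2.trans (min_le_left _ _)]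
      have h4 : B ≤ ‖x i - 1‖⁻¹ ^ C := by
        rw [inv_pow, ← one_div, le_div_iff₀ (by positivity)]; linarith
      have h5 : 2 * B ≤ ‖x i - 1‖⁻¹ ^ (C + 1) := by
        rw [pow_succ']; exact mul_le_mul h3 h4 (by linarith) (by linarith)
      exact ⟨x i - 1, p0, t2, by linarith, (tame_sub_one t1).mono (Nat.le_succ N) h5,
        fun l => hi l (Finset.mem_univ l)⟩
  have hxt : ∀ i, Tame (N + 1) (‖π‖⁻¹ ^ (C + 1)) (x i) := fun i =>
    (hx i).1.mono (Nat.le_succ N) p2
  constructor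
  · intro a c ha hc
    exact H1 F hF L hL π x p0 (p1.trans ((min_le_right _ _).trans (min_le_left _ _))) p3 hxt p4 a c
      (fun i j => (ha i j).mono (Nat.le_succ N) p2) fun i j l => (hc i j l).mono (Nat.le_succ N) p2
  · intro hli c hc
    exact H2 F hF L hL π x p0 (p1.trans ((min_le_right _ _).trans (min_le_right _ _))) p3 hxt p4
      hli c fun μ => (hc μ).mono (Nat.le_succ N) p2

end Pool.Agent.Work.MP_dd0d16_nt
end

-- merged part: Pool.Agent.Work.MP_dd0d16_nt.PAdic
section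
/-!
Specialisation to the algebraic closure of the p-adic numbers.
-/

set_option autoImplicit false

namespace Pool.Agent.Work.MP_dd0d16_nt

open Polynomial IntermediateField

variable {p : ℕ} [hp : Fact p.Prime]

/-- For the numbers `w 1, ..., w n` and all coefficients of degree at most `d` and height at most
`H`: (i) every matrix with entries `a i j + ∑ k, c i j k * w k` satisfies `FourExp`; (ii) if the
`w k` are linearly independent over `ℚ`, they satisfy no nontrivial polynomial relation of degree at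
most `d` in each variable. -/
def Good (d H : ℕ) {n : ℕ} (w : Fin n → PadicAlgCl p) : Prop :=
  (∀ (a : Fin 2 → Fin 2 → PadicAlgCl p) (c : Fin 2 → Fin 2 → Fin n → PadicAlgCl p),
    (∀ i j, Bdd d H (a i j)) → (∀ i j k, Bdd d H (c i j k)) →
    FourExp (Matrix.of fun i j => a i j + ∑ k, c i j k * w k)) ∧
  (LinearIndependent ℚ w → ∀ c : (Fin n → Fin (d + 1)) → PadicAlgCl p, (∀ μ, Bdd d H (c μ)) →
    ∑ μ, c μ * ∏ k, w k ^ (μ k : ℕ) = 0 → c = 0)

theorem norm_int_ge (n : ℤ) (hn : n ≠ 0) : 1 ≤ |(n : ℝ)| * ‖(n : PadicAlgCl p)‖ := by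
  have e : (n : PadicAlgCl p) = algebraMap ℚ_[p] (PadicAlgCl p) n := by simp
  have h1 : ‖(n : PadicAlgCl p)‖ = ((p : ℝ) ^ padicValInt p n)⁻¹ := by
    rw [e, norm_algebraMap', Padic.norm_eq_zpow_neg_valuation (by exact_mod_cast hn),
      Padic.valuation_intCast, zpow_neg, zpow_natCast]
  have h2 : ((p : ℤ) ^ padicValInt p n) ≤ |n| :=
    Int.le_of_dvd (abs_pos.2 hn) ((dvd_abs _ _).2 (padicValInt_dvd n))
  have h3 : ((p : ℝ) ^ padicValInt p n) ≤ |(n : ℝ)| := by exact_mod_cast h2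
  have h4 : (0 : ℝ) < p := by exact_mod_cast hp.out.pos
  rw [h1, ← div_eq_mul_inv, le_div_iff₀ (by positivity), one_mul]
  exact h3

theorem norm_p_eq : ‖(p : PadicAlgCl p)‖ = (p : ℝ)⁻¹ := by
  have e : (p : PadicAlgCl p) = algebraMap ℚ_[p] (PadicAlgCl p) p := by simp
  rw [e, norm_algebraMap', Padic.norm_p]

theorem Bdd.tame {d H : ℕ} {z : PadicAlgCl p} (h : Bdd d H z) : Tame d (H + 1) z := by
  obtain ⟨f, h1, h2, h3, h4⟩ := h
  exact Tame.of_root h1 h2 h3 h4

theorem Bdd.natDegree_le {d H : ℕ} {z : PadicAlgCl p} (h : Bdd d H z) :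
    (minpoly ℚ_[p] z).natDegree ≤ d := by
  obtain ⟨f, h1, h2, -, h4⟩ := h
  have h5 : f.map (algebraMap ℤ ℚ_[p]) ≠ 0 :=
    (Polynomial.map_ne_zero_iff (algebraMap ℤ ℚ_[p]).injective_int).2 h1
  have h6 := minpoly.degree_le_of_ne_zero ℚ_[p] z h5 (by rwa [aeval_map_algebraMap])
  exact (natDegree_le_natDegree h6).trans (natDegree_map_le.trans h2)

theorem good_of {d H N n : ℕ} {B : ℝ} {w : Fin n → PadicAlgCl p} (hN : d ≤ N) (hB : H + 1 ≤ B)
    (h : Good4 N B w ∧ GoodI d N B w) : Good d H w := by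
  refine ⟨fun a c ha hc h1 h2 hdet => ?_, fun hli c hc => h.2 hli c fun μ =>
    (hc μ).tame.mono hN hB⟩
  rw [Matrix.det_fin_two, sub_eq_zero] at hdet
  rcases h.1 a c (fun i j => (ha i j).tame.mono hN hB) (fun i j l => (hc i j l).tame.mono hN hB)
    hdet with ⟨u, v, t1, t2, t3, t4⟩ | ⟨u, v, t1, t2, t3, t4⟩
  · exact t4 (h1 u v t1 t2 t3)
  · exact t4 (h2 u v t1 t2 t3)

theorem exists_norm_pow {d : ℕ} {x : PadicAlgCl p} (hx : x ≠ 0)
    (hd : (minpoly ℚ_[p] x).natDegree ≤ d) : ∃ r : ℤ, ‖x‖ ^ d.factorial = (p : ℝ) ^ r := by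
  have hi : IsIntegral ℚ_[p] x := Algebra.IsIntegral.isIntegral x
  have hm := minpoly.natDegree_pos hi
  obtain ⟨t, ht⟩ := Nat.dvd_factorial hm hd
  have h1 := spectralNorm.spectralNorm_eq_norm_coeff_zero_rpow ℚ_[p] (PadicAlgCl p) x
  rw [PadicAlgCl.spectralNorm_eq] at h1
  have h2 : ‖x‖ ^ (minpoly ℚ_[p] x).natDegree = ‖(minpoly ℚ_[p] x).coeff 0‖ := by
    rw [h1, one_div, Real.rpow_inv_natCast_pow (norm_nonneg _) hm.ne']
  refine ⟨-((minpoly ℚ_[p] x).coeff 0).valuation * t, ?_⟩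
  rw [ht, pow_mul, h2, Padic.norm_eq_zpow_neg_valuation (minpoly.coeff_zero_ne_zero hi hx),
    zpow_mul, zpow_natCast]

theorem unit_pow_close {d : ℕ} {u : PadicAlgCl p} (hu : ‖u‖ = 1)
    (hd : (minpoly ℚ_[p] u).natDegree ≤ d) : ‖u ^ (p ^ (2 * d)).factorial - 1‖ ≤ 1 / 4 := by
  classical
  have hi : IsIntegral ℚ_[p] u := Algebra.IsIntegral.isIntegral u
  have hc : ∀ n, ‖(minpoly ℚ_[p] u).coeff n‖ ≤ 1 := by
    rw [← spectralValue_le_one_iff (minpoly.monic hi)]
    exact ((PadicAlgCl.spectralNorm_eq p u).trans hu).le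
  obtain ⟨f, hf1, hf2, hf3⟩ := lifts_and_natDegree_eq_and_monic
    (f := algebraMap ℤ_[p] ℚ_[p]) ((lifts_iff_coeff_lifts _).2 fun n => ⟨⟨_, hc n⟩, rfl⟩)
    (minpoly.monic hi)
  let j : ℤ_[p] →+* PadicAlgCl p := (algebraMap ℚ_[p] (PadicAlgCl p)).comp (algebraMap ℤ_[p] ℚ_[p])
  have hj : ∀ a, ‖j a‖ = ‖a‖ := fun a => norm_algebraMap' (PadicAlgCl p) (a : ℚ_[p])
  have hf0 : f.eval₂ j u = 0 := by
    rw [← eval₂_map, hf1]; exact minpoly.aeval _ _
  have hf1' : f ≠ 1 := by
    rintro rfl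
    simp at hf0
  let g : ℕ → ℤ_[p][X] := fun m => X ^ m %ₘ f
  have hg : ∀ m, u ^ m = ∑ i ∈ Finset.range d, j ((g m).coeff i) * u ^ i := by
    intro m
    have h1 : (g m).natDegree < d := (natDegree_modByMonic_lt _ hf3 hf1').trans_le (hf2 ▸ hd)
    rw [← eval₂_eq_sum_range' j h1, eval₂_modByMonic_eq_self_of_root hf0]
    simp
  obtain ⟨a, ha, b, hb, hab, e⟩ := Finset.exists_ne_map_eq_of_card_lt_of_maps_to
    (s := Finset.range (p ^ (2 * d) + 1)) (t := Finset.univ)
    (f := fun m (i : Fin d) => PadicInt.toZModPow 2 ((g m).coeff i))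
    (by simp [ZMod.card, pow_mul]) fun _ _ => Finset.mem_univ _
  have hp2 : (2 : ℝ) ≤ p := by exact_mod_cast hp.out.two_le
  have h2 : ‖u ^ a - u ^ b‖ ≤ 1 / 4 := by
    rw [hg a, hg b, ← Finset.sum_sub_distrib]
    refine IsUltrametricDist.norm_sum_le_of_forall_le_of_nonneg (by norm_num) fun i hi => ?_
    rw [← sub_mul, ← map_sub, norm_mul, norm_pow, hu, one_pow, mul_one, hj]
    have h3 : (g a).coeff i - (g b).coeff i ∈ Ideal.span {(p : ℤ_[p]) ^ 2} := by
      rw [← PadicInt.ker_toZModPow, RingHom.mem_ker, map_sub, sub_eq_zero]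
      exact congrFun e ⟨i, Finset.mem_range.1 hi⟩
    refine ((PadicInt.norm_le_pow_iff_mem_span_pow _ 2).2 h3).trans ?_
    rw [zpow_neg, zpow_natCast, one_div]
    exact inv_anti₀ (by norm_num) (by nlinarith)
  have key : ∀ a b : ℕ, a < b → b ≤ p ^ (2 * d) → ‖u ^ a - u ^ b‖ ≤ 1 / 4 →
      ‖u ^ (p ^ (2 * d)).factorial - 1‖ ≤ 1 / 4 := by
    intro a b h1 h3 h4
    obtain ⟨t, ht⟩ := Nat.dvd_factorial (Nat.sub_pos_of_lt h1) ((Nat.sub_le b a).trans h3)
    have e1 : u ^ a - u ^ b = -(u ^ a * (u ^ (b - a) - 1)) := by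
      rw [mul_sub, ← pow_add, Nat.add_sub_cancel' h1.le]; ring
    rw [e1, norm_neg, norm_mul, norm_pow, hu, one_pow, one_mul] at h4
    have := norm_pow_sub_le (a := u ^ (b - a)) (a' := 1) (by rw [norm_pow, hu, one_pow])
      (by simp) h4 t
    rwa [one_pow, ← pow_mul, ← ht] at this
  rcases lt_or_gt_of_ne hab with h | h
  · exact key a b h (Nat.lt_succ_iff.1 (Finset.mem_range.1 hb)) h2
  · exact key b a h (Nat.lt_succ_iff.1 (Finset.mem_range.1 ha)) (by rwa [norm_sub_rev])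

theorem tame_zpow (r : ℤ) : Tame 1 ((p : ℝ) ^ r.natAbs) ((p : PadicAlgCl p) ^ r) := by
  have h1 : (1 : ℝ) ≤ p := by exact_mod_cast hp.out.one_le
  obtain ⟨n, rfl | rfl⟩ := r.eq_nat_or_neg
  · have := Tame.rat (F := PadicAlgCl p) ((p : ℚ) ^ n) (B := (p : ℝ) ^ n) (by simp)
      (by simpa using one_le_pow₀ h1)
    simpa using this
  · have := Tame.rat (F := PadicAlgCl p) (((p ^ n : ℕ) : ℚ)⁻¹) (B := (p : ℝ) ^ n)
      (by
        push_cast
        rw [abs_of_nonneg (by positivity)]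
        exact (inv_le_one_of_one_le₀ (one_le_pow₀ h1)).trans (one_le_pow₀ h1))
      (by rw [Rat.inv_natCast_den_of_pos (pow_pos hp.out.pos n)]; simp)
    simpa using this

theorem IsLog.isLogF {L : PadicAlgCl p → PadicAlgCl p} (h : IsLog L) : IsLogF L := ⟨h.1, h.2.2⟩

theorem IsLog.zpow {L : PadicAlgCl p → PadicAlgCl p} (h : IsLog L) (r : ℤ) :
    L ((p : PadicAlgCl p) ^ r) = 0 := by
  have h0 : (p : PadicAlgCl p) ≠ 0 := by exact_mod_cast hp.out.ne_zero
  have h1 : ∀ n : ℕ, L ((p : PadicAlgCl p) ^ n) = 0 := fun n => by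
    rw [h.isLogF.pow h0, h.2.1, mul_zero]
  obtain ⟨n, rfl | rfl⟩ := r.eq_nat_or_neg
  · simpa using h1 n
  · have := h.1 ((p : PadicAlgCl p) ^ n) ((p : PadicAlgCl p) ^ n)⁻¹ (pow_ne_zero n h0)
      (inv_ne_zero (pow_ne_zero n h0))
    rw [mul_inv_cancel₀ (pow_ne_zero n h0), h.isLogF.one, h1, zero_add] at this
    simpa using this.symm

theorem exists_close {d H : ℕ} {L : PadicAlgCl p → PadicAlgCl p} (hL : IsLog L)
    {x : PadicAlgCl p} (hx : x ≠ 0) (hb : Bdd d H x) : ∃ y : PadicAlgCl p,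
      Tame d ((H + 1) ^ ((2 * d + 2) * (d.factorial * (p ^ (2 * d)).factorial))) y ∧
      ‖y - 1‖ ≤ ‖L x‖ ∧ L y = ((d.factorial * (p ^ (2 * d)).factorial : ℕ) : PadicAlgCl p) * L x := by
  obtain ⟨r, hr⟩ := exists_norm_pow hx hb.natDegree_le
  have h0 : (p : PadicAlgCl p) ≠ 0 := by exact_mod_cast hp.out.ne_zero
  have hp0 : (0 : ℝ) < p := by exact_mod_cast hp.out.pos
  let u := x ^ d.factorial * (p : PadicAlgCl p) ^ r
  have hu : ‖u‖ = 1 := by
    simp only [u, norm_mul, norm_pow, norm_zpow, hr, norm_p_eq, inv_zpow]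
    exact mul_inv_cancel₀ (zpow_ne_zero _ hp0.ne')
  have hi : IsIntegral ℚ_[p] x := Algebra.IsIntegral.isIntegral x
  have hd : (minpoly ℚ_[p] u).natDegree ≤ d := by
    have := adjoin.finiteDimensional hi
    have hm : u ∈ ℚ_[p]⟮x⟯ :=
      mul_mem (pow_mem (mem_adjoin_simple_self _ x) _) (zpow_mem (_root_.natCast_mem _ p) r)
    have h1 := minpoly.natDegree_le (A := ℚ_[p]) (⟨u, hm⟩ : ℚ_[p]⟮x⟯)
    rw [adjoin.finrank hi, IntermediateField.minpoly_eq] at h1
    exact h1.trans hb.natDegree_le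
  have h1 := unit_pow_close hu hd
  set M := (p ^ (2 * d)).factorial
  have hu0 : u ≠ 0 := by rintro h; simp [h] at hu
  have hLy : L (u ^ M) = ((d.factorial * M : ℕ) : PadicAlgCl p) * L x := by
    rw [hL.isLogF.pow hu0, hL.1 _ _ (pow_ne_zero _ hx) (zpow_ne_zero _ h0), hL.zpow,
      hL.isLogF.pow hx]
    push_cast; ring
  have ht := hb.tame
  have hB := ht.one_le
  refine ⟨u ^ M, ?_, ?_, hLy⟩
  · have h2 : (p : ℝ) ^ r.natAbs ≤ (H + 1) ^ ((2 * d + 1) * d.factorial) := by
      obtain ⟨n, rfl | rfl⟩ := r.eq_nat_or_neg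
      · rw [Int.natAbs_natCast, ← zpow_natCast, ← hr, pow_mul]
        exact pow_le_pow_left₀ (norm_nonneg _) ((ht.norm_le norm_int_ge).trans
          (le_self_pow₀ hB (by omega))) _
      · have h3 := pow_le_pow_left₀ zero_le_one (ht.liouville norm_int_ge hx) d.factorial
        rw [one_pow, mul_pow, hr, zpow_neg, zpow_natCast, ← div_eq_mul_inv,
          le_div_iff₀ (by positivity), one_mul, ← pow_two, ← pow_mul, ← pow_mul] at h3
        rw [Int.natAbs_neg, Int.natAbs_natCast]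
        exact h3.trans (pow_le_pow_right₀ hB (by nlinarith [Nat.zero_le d.factorial]))
    refine (((ht.pow d.factorial).mul ((tame_zpow r).mono le_rfl h2)).pow M).mono (by simp)
      (le_of_eq ?_)
    rw [← pow_add, ← pow_mul]
    congr 1
    ring
  · have h2 := log_tail norm_int_ge (le_refl ‖u ^ M - 1‖) (by linarith)
      (hL.2.2 (u ^ M - 1) (by linarith)) 1
    simp only [add_sub_cancel, Finset.sum_range_one, pow_zero, one_mul, zero_add, pow_one,
      Nat.cast_zero, div_one, Nat.cast_one] at h2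
    have h3 : ‖L (u ^ M)‖ ≤ ‖L x‖ := by
      rw [hLy, norm_mul]
      exact mul_le_of_le_one_left (norm_nonneg _) (IsUltrametricDist.norm_natCast_le_one _ _)
    have h4 := IsUltrametricDist.norm_add_le_max (L (u ^ M)) (-(L (u ^ M) - (u ^ M - 1)))
    have e : L (u ^ M) + -(L (u ^ M) - (u ^ M - 1)) = u ^ M - 1 := by ring
    rw [e, norm_neg] at h4
    have h5 := norm_nonneg (u ^ M - 1)
    have h6 := norm_nonneg (L x)
    rcases le_max_iff.1 h4 with h | h
    · linarith
    · rw [pow_succ, pow_one] at h2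
      nlinarith

theorem main_A (n d C : ℕ) : ∃ η : ℝ, 0 < η ∧ ∀ (p : ℕ) [Fact p.Prime]
    (L : PadicAlgCl p → PadicAlgCl p) (H : ℕ) (x : Fin n → PadicAlgCl p), IsLog L →
    (∀ k, Bdd d H (x k) ∧ ‖x k - 1‖ ≤ η ∧ ‖x k - 1‖ ^ C * H ≤ 1) → Good d H fun k => L (x k) := by
  obtain ⟨η, h0, h⟩ := finite_both n d d (C + 1)
  refine ⟨min η (1 / 2), by positivity, fun p hp L H x hL hx => good_of le_rfl le_rfl
    (h _ norm_int_ge p hp.out.two_le norm_p_eq L hL.isLogF _ x (by simp) fun k => ?_)⟩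
  obtain ⟨t1, t2, t3⟩ := hx k
  have t4 := t2.trans (min_le_right _ _)
  have t5 := norm_nonneg (x k - 1)
  have t6 : ‖x k - 1‖ ^ C ≤ 1 := pow_le_one₀ t5 (by linarith)
  have t7 : 0 ≤ ‖x k - 1‖ ^ C * (H + 1) := by positivity
  refine ⟨t1.tame, t2.trans (min_le_left _ _), ?_⟩
  rw [pow_succ', mul_assoc]
  nlinarith

theorem main_B (n d C p : ℕ) [hp : Fact p.Prime] : ∃ η : ℝ, 0 < η ∧
    ∀ (L : PadicAlgCl p → PadicAlgCl p) (H : ℕ) (x : Fin n → PadicAlgCl p), IsLog L →
    (∀ k, x k ≠ 0 ∧ Bdd d H (x k) ∧ ‖L (x k)‖ ≤ η ∧ ‖L (x k)‖ ^ C * H ≤ 1) →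
    Good d H fun k => L (x k) := by
  set E := d.factorial * (p ^ (2 * d)).factorial with hE
  have hE0 : 0 < E := Nat.mul_pos (Nat.factorial_pos _) (Nat.factorial_pos _)
  have hE1 : (1 : ℝ) ≤ E := by exact_mod_cast hE0
  set K : ℝ := (E : ℝ) ^ (n * d + 1)
  have hK : 1 ≤ K := one_le_pow₀ hE1
  set G := (2 * d + 2) * E
  have hG : G ≠ 0 := by positivity
  obtain ⟨η, h0, h⟩ := finite_both n d d ((C + 1) * G + 1)
  refine ⟨min η (min (1 / 2) K⁻¹), by positivity, fun L H x hL hx => ?_⟩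
  choose y hy1 hy2 hy3 using fun k => exists_close hL (hx k).1 (hx k).2.1
  rw [← hE] at hy3
  have hH : (1 : ℝ) ≤ H + 1 := by simp
  have hHG : (H + 1 : ℝ) ≤ (H + 1) ^ G := le_self_pow₀ hH hG
  obtain ⟨g1, g2⟩ := h _ norm_int_ge p hp.out.two_le norm_p_eq L hL.isLogF ((H + 1) ^ G * K) y
    (by nlinarith) fun k => by
      obtain ⟨-, -, t2, t3⟩ := hx k
      have t4 := (hy2 k).trans (t2.trans ((min_le_right _ _).trans (min_le_left _ _)))
      have t4' := (hy2 k).trans (t2.trans ((min_le_right _ _).trans (min_le_right _ _)))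
      have t5 := norm_nonneg (y k - 1)
      have t6 : ‖y k - 1‖ ^ C ≤ 1 := pow_le_one₀ t5 (by linarith)
      have t7 : 0 ≤ ‖y k - 1‖ ^ C * (H + 1) := by positivity
      have t8 : ‖y k - 1‖ ^ C * H ≤ 1 := le_trans (by gcongr; exact hy2 k) t3
      have t9 : ‖y k - 1‖ ^ (C + 1) * (H + 1) ≤ 1 := by
        rw [pow_succ', mul_assoc]
        nlinarith
      refine ⟨(hy1 k).mono le_rfl (le_mul_of_one_le_right (by positivity) hK),
        (hy2 k).trans (t2.trans (min_le_left _ _)), ?_⟩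
      have e : ‖y k - 1‖ ^ ((C + 1) * G + 1) * ((H + 1) ^ G * K) =
          (‖y k - 1‖ ^ (C + 1) * (H + 1)) ^ G * (‖y k - 1‖ * K) := by
        rw [mul_pow, ← pow_mul]; ring
      rw [e]
      refine mul_le_one₀ (pow_le_one₀ (by positivity) t9) (by positivity) ?_
      rwa [← le_div_iff₀ (by positivity), one_div]
  have hEF : (E : PadicAlgCl p) ≠ 0 := by exact_mod_cast hE0.ne'
  have hinv : ∀ m ≤ n * d + 1, ∀ c : PadicAlgCl p, Tame d (H + 1) c →
      Tame d ((H + 1) ^ G * K) (c * ((E : PadicAlgCl p) ^ m)⁻¹) := by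
    intro m hm c hc
    have h1 : (E : ℝ) ^ m ≤ K := pow_le_pow_right₀ hE1 hm
    have h2 := Tame.rat (F := PadicAlgCl p) (((E ^ m : ℕ) : ℚ)⁻¹) (B := K)
      (by
        push_cast
        rw [abs_of_nonneg (by positivity)]
        exact (inv_le_one_of_one_le₀ (one_le_pow₀ hE1)).trans hK)
      (by rw [Rat.inv_natCast_den_of_pos (pow_pos hE0 m)]; simpa using h1)
    have h3 := (hc.mono le_rfl hHG).mul h2
    simpa using h3
  refine good_of (B := H + 1) le_rfl le_rfl ⟨fun a c ha hc hdet => ?_, fun hli c hc hsum => ?_⟩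
  · have e : ∀ i j, ∑ l, c i j l * ((E : PadicAlgCl p) ^ 1)⁻¹ * L (y l) =
        ∑ l, c i j l * L (x l) := fun i j => Finset.sum_congr rfl fun l _ => by
      rw [hy3]; field_simp
    have := g1 a (fun i j l => c i j l * ((E : PadicAlgCl p) ^ 1)⁻¹)
      (fun i j => (ha i j).mono le_rfl (by nlinarith))
      (fun i j l => hinv 1 (by omega) _ (hc i j l)) (by simpa only [e] using hdet)
    simpa only [e] using this
  · have hli' : LinearIndependent ℚ fun k => L (y k) := by
      have := hli.units_smul fun _ => Units.mk0 (E : ℚ) (by exact_mod_cast hE0.ne')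
      have e : (fun k => L (y k)) =
          (fun _ : Fin n => Units.mk0 (E : ℚ) (by exact_mod_cast hE0.ne')) • fun k => L (x k) := by
        funext k
        simp [hy3, Units.smul_def, Algebra.smul_def]
      rw [e]
      exact this
    have := g2 hli' (fun μ => c μ * ((E : PadicAlgCl p) ^ ∑ l, (μ l : ℕ))⁻¹)
      (fun μ => hinv _ (by
        have := Finset.sum_le_card_nsmul Finset.univ (fun l => (μ l : ℕ)) d
          fun l _ => Nat.lt_succ_iff.1 (μ l).2
        simp at this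
        omega) _ (hc μ)) (by
        rw [← hsum]
        refine Finset.sum_congr rfl fun μ _ => ?_
        simp only [hy3, mul_pow, Finset.prod_mul_distrib, Finset.prod_pow_eq_pow_sum]
        field_simp)
    funext μ
    have h2 := congrFun this μ
    simpa [hEF] using h2

theorem norm_le_norm_log {L : PadicAlgCl p → PadicAlgCl p} (hL : IsLog L) {x : PadicAlgCl p}
    (h1 : ‖x - 1‖ ≤ 1 / 4) : ‖x - 1‖ ≤ ‖L x‖ := by
  have h2 := log_tail norm_int_ge (le_refl ‖x - 1‖) (by linarith) (hL.2.2 (x - 1) (by linarith)) 1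
  simp only [add_sub_cancel, Finset.sum_range_one, pow_zero, one_mul, zero_add, pow_one,
    Nat.cast_zero, div_one, Nat.cast_one] at h2
  have h4 := IsUltrametricDist.norm_add_le_max (L x) (-(L x - (x - 1)))
  have e : L x + -(L x - (x - 1)) = x - 1 := by ring
  rw [e, norm_neg] at h4
  have h5 := norm_nonneg (x - 1)
  have h6 := norm_nonneg (L x)
  rcases le_max_iff.1 h4 with h | h
  · exact h
  · rw [pow_succ, pow_one] at h2
    nlinarith

theorem close_of_large {d H : ℕ} {x : PadicAlgCl p} (hb : Bdd d H x) (hp4 : 4 ^ d ≤ p)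
    (h1 : ‖x - 1‖ < 1) : ‖x - 1‖ ≤ 1 / 4 := by
  by_cases h0 : x - 1 = 0
  · rw [h0]; norm_num
  have hi : IsIntegral ℚ_[p] (x - 1) := Algebra.IsIntegral.isIntegral _
  have hm := minpoly.natDegree_pos hi
  have hd : (minpoly ℚ_[p] (x - 1)).natDegree ≤ d := by
    have := minpoly.sub_algebraMap (A := ℚ_[p]) x 1
    rw [map_one] at this
    rw [this, natDegree_comp, natDegree_X_add_C, mul_one]
    exact hb.natDegree_le
  have h2 := spectralNorm.spectralNorm_eq_norm_coeff_zero_rpow ℚ_[p] (PadicAlgCl p) (x - 1)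
  rw [PadicAlgCl.spectralNorm_eq] at h2
  have h3 : ‖x - 1‖ ^ (minpoly ℚ_[p] (x - 1)).natDegree = ‖(minpoly ℚ_[p] (x - 1)).coeff 0‖ := by
    rw [h2, one_div, Real.rpow_inv_natCast_pow (norm_nonneg _) hm.ne']
  have h4 : ‖(minpoly ℚ_[p] (x - 1)).coeff 0‖ < 1 := by
    rw [← h3]; exact pow_lt_one₀ (norm_nonneg _) h1 hm.ne'
  have h5 : ‖(minpoly ℚ_[p] (x - 1)).coeff 0‖ ≤ (p : ℝ)⁻¹ := by
    have := (Padic.norm_le_pow_iff_norm_lt_pow_add_one ((minpoly ℚ_[p] (x - 1)).coeff 0) (-1)).2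
      (by simpa using h4)
    simpa using this
  have h6 : ‖x - 1‖ ^ d ≤ (1 / 4) ^ d := by
    refine (pow_le_pow_of_le_one (norm_nonneg _) h1.le hd).trans (h3.trans_le (h5.trans ?_))
    rw [one_div, inv_pow]
    exact inv_anti₀ (by positivity) (by exact_mod_cast hp4)
  exact (pow_le_pow_iff_left₀ (norm_nonneg _) (by norm_num) (by omega)).1 h6

theorem main_C (n d C : ℕ) : ∃ η : ℝ, 0 < η ∧ ∀ (p : ℕ) [Fact p.Prime]
    (L : PadicAlgCl p → PadicAlgCl p) (H : ℕ) (x : Fin n → PadicAlgCl p), IsLog L →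
    (∀ k, x k ≠ 0 ∧ Bdd d H (x k) ∧ ‖L (x k)‖ ≤ η ∧ ‖L (x k)‖ ^ C * H ≤ 1 ∧
      (p ≤ C ∨ ‖x k - 1‖ < 1)) → Good d H fun k => L (x k) := by
  obtain ⟨η0, h0, hA⟩ := main_A n d C
  have hB : ∀ P : ℕ, ∃ η : ℝ, 0 < η ∧ ∀ (p : ℕ) [Fact p.Prime], p < P →
      ∀ (L : PadicAlgCl p → PadicAlgCl p) (H : ℕ) (x : Fin n → PadicAlgCl p), IsLog L →
      (∀ k, x k ≠ 0 ∧ Bdd d H (x k) ∧ ‖L (x k)‖ ≤ η ∧ ‖L (x k)‖ ^ C * H ≤ 1) →
      Good d H fun k => L (x k) := by
    intro P
    induction P with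
    | zero => exact ⟨1, one_pos, fun p _ h => absurd h (Nat.not_lt_zero p)⟩
    | succ P ih =>
      obtain ⟨η1, h1, H1⟩ := ih
      by_cases hP : P.Prime
      · have : Fact P.Prime := ⟨hP⟩
        obtain ⟨η2, h2, H2⟩ := main_B n d C P
        refine ⟨min η1 η2, lt_min h1 h2, fun p _ h L H x hL hx => ?_⟩
        rcases Nat.lt_succ_iff_lt_or_eq.1 h with h | rfl
        · exact H1 p h L H x hL fun k => ⟨(hx k).1, (hx k).2.1,
            (hx k).2.2.1.trans (min_le_left _ _), (hx k).2.2.2⟩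
        · exact H2 L H x hL fun k => ⟨(hx k).1, (hx k).2.1,
            (hx k).2.2.1.trans (min_le_right _ _), (hx k).2.2.2⟩
      · refine ⟨η1, h1, fun p hp h => H1 p ?_⟩
        rcases Nat.lt_succ_iff_lt_or_eq.1 h with h | rfl
        · exact h
        · exact absurd hp.out hP
  obtain ⟨η1, h1, H1⟩ := hB (C + 4 ^ d + 1)
  refine ⟨min η0 η1, lt_min h0 h1, fun p _ L H x hL hx => ?_⟩
  by_cases hp : p < C + 4 ^ d + 1
  · exact H1 p hp L H x hL fun k => ⟨(hx k).1, (hx k).2.1,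
      (hx k).2.2.1.trans (min_le_right _ _), (hx k).2.2.2.1⟩
  · refine hA p L H x hL fun k => ?_
    obtain ⟨-, t1, t2, t3, t4⟩ := hx k
    have t0 : 0 < 4 ^ d := by positivity
    have t5 := norm_le_norm_log hL (close_of_large t1 (by omega) (t4.resolve_left (by omega)))
    exact ⟨t1, t5.trans (t2.trans (min_le_left _ _)), le_trans (by gcongr) t3⟩

end Pool.Agent.Work.MP_dd0d16_nt
end
end
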